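import Mathlib

namespace Pool.Agent.MP_e67b39_co

open Finset

section weights

variable {F : Type*} [Field F] [DecidableEq F] (B : Finset F)

/-- the weights -/
noncomputable def wt (x : F) : F := 1 / ∏ y ∈ B.erase x, (x - y)

/-- the weighted power sums -/
noncomputable def WW (j : ℕ) : F := ∑ x ∈ B, wt B x * x ^ j

lemma sum_wt_eval {P : Polynomial F} (hP : P.degree < (B.card : WithBot ℕ)) :
    ∑ x ∈ B, wt B x * P.eval x = P.coeff (B.card - 1) := by
  have h := Lagrange.coeff_eq_sum (s := B) (v := (id : F → F)) (Set.injOn_id _) hP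
  rw [h]
  apply Finset.sum_congr rfl
  intro x _
  rw [wt]
  simp only [id]
  rw [div_mul_eq_mul_div, one_mul]

lemma WW_of_lt {j : ℕ} (hj : j < B.card) : WW B j = if B.card - 1 = j then 1 else 0 := by
  have h := sum_wt_eval B (P := Polynomial.X ^ j)
    ((Polynomial.degree_X_pow_le j).trans_lt (by exact_mod_cast hj))
  rw [Polynomial.coeff_X_pow] at h
  rw [← h, WW]
  apply Finset.sum_congr rfl
  intro x _
  rw [Polynomial.eval_pow, Polynomial.eval_X]

lemma WW_card (hB : 0 < B.card) : WW B B.card = ∑ x ∈ B, x := by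
  set f : Polynomial F := ∏ x ∈ B, (Polynomial.X - Polynomial.C x) with hf
  have hmonic : f.Monic := Polynomial.monic_prod_of_monic _ _ (fun x _ => Polynomial.monic_X_sub_C x)
  have hdeg : f.degree = B.card := by
    rw [hf, Polynomial.degree_prod]
    simp
  have hdlt : (Polynomial.X ^ B.card - f : Polynomial F).degree < (B.card : WithBot ℕ) := by
    have h1 : (Polynomial.X ^ B.card : Polynomial F).degree = B.card := Polynomial.degree_X_pow _
    have := Polynomial.degree_sub_lt (p := Polynomial.X ^ B.card) (q := f)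
      (by rw [h1, hdeg]) (by
        intro h
        rw [h] at h1
        simp at h1) (by
        rw [Polynomial.leadingCoeff_X_pow, hmonic.leadingCoeff])
    rwa [h1] at this
  have h := sum_wt_eval B hdlt
  rw [Polynomial.coeff_sub, hf, Polynomial.prod_X_sub_C_coeff_card_pred B (fun x => x) hB,
    Polynomial.coeff_X_pow, if_neg (by omega), zero_sub, neg_neg] at h
  rw [← h, WW]
  apply Finset.sum_congr rfl
  intro x hx
  rw [Polynomial.eval_sub, Polynomial.eval_pow, Polynomial.eval_X, Polynomial.eval_prod,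
    Finset.prod_eq_zero hx (by simp), sub_zero]

/-- the averaging operator -/
noncomputable def TT (f : F → F) (c : F) : F := ∑ x ∈ B, wt B x * f (x + c)

lemma TT_pow (n : ℕ) (c : F) : TT B (fun t => t ^ n) c =
    ∑ i ∈ Finset.range (n + 1), (n.choose i : F) * WW B i * c ^ (n - i) := by
  unfold TT WW
  simp_rw [add_pow, Finset.mul_sum, Finset.sum_mul]
  rw [Finset.sum_comm]
  apply Finset.sum_congr rfl
  intro i _
  apply Finset.sum_congr rfl
  intro x _
  ring

lemma TT_lin {ι : Type*} (S : Finset ι) (a : ι → F) (f : ι → F → F) (c : F) :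
    TT B (fun t => ∑ i ∈ S, a i * f i t) c = ∑ i ∈ S, a i * TT B (f i) c := by
  unfold TT
  simp_rw [Finset.mul_sum]
  rw [Finset.sum_comm]
  apply Finset.sum_congr rfl
  intro i _
  apply Finset.sum_congr rfl
  intro x _
  ring

noncomputable def E1 (n : ℕ) : F → F := TT B (fun t => t ^ n)
noncomputable def E2 (n : ℕ) : F → F := TT B (E1 B n)
noncomputable def E3 (n : ℕ) : F → F := TT B (E2 B n)

lemma E2_eq (n : ℕ) (c : F) : E2 B n c =
    ∑ i ∈ Finset.range (n + 1), (n.choose i : F) * WW B i * E1 B (n - i) c := by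
  have h : E1 B n = fun t => ∑ i ∈ Finset.range (n + 1),
      ((n.choose i : F) * WW B i) * (fun s => s ^ (n - i)) t := by
    funext t
    exact TT_pow B n t
  rw [E2, h, TT_lin]
  rfl

lemma E3_eq (n : ℕ) (c : F) : E3 B n c =
    ∑ i ∈ Finset.range (n + 1), (n.choose i : F) * WW B i * E2 B (n - i) c := by
  have h : E2 B n = fun t => ∑ i ∈ Finset.range (n + 1),
      ((n.choose i : F) * WW B i) * (E1 B (n - i)) t := by
    funext t
    exact E2_eq B n t
  rw [E3, h, TT_lin]
  rfl

/-- a sum over `range (a + e + 1)` whose terms below `a` vanish and those above `a + 1` vanish -/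
lemma sum_two {n a : ℕ} (g : ℕ → F) (ha : a + 1 ≤ n) (h1 : ∀ i, i < a → g i = 0)
    (h2 : ∀ i, a + 1 < i → i ≤ n → g i = 0) :
    ∑ i ∈ Finset.range (n + 1), g i = g a + g (a + 1) := by
  rw [← Finset.sum_subset (s₁ := {a, a + 1})]
  · rw [Finset.sum_pair (by omega)]
  · intro i hi
    simp only [Finset.mem_insert, Finset.mem_singleton] at hi
    rw [Finset.mem_range]
    omega
  · intro i hi hi'
    simp only [Finset.mem_insert, Finset.mem_singleton] at hi'
    rw [Finset.mem_range] at hi
    rcases Nat.lt_or_ge i a with h | h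
    · exact h1 i h
    · exact h2 i (by omega) (by omega)

lemma sum_one {n a : ℕ} (g : ℕ → F) (ha : a ≤ n) (h1 : ∀ i, i < a → g i = 0)
    (h2 : ∀ i, a < i → i ≤ n → g i = 0) :
    ∑ i ∈ Finset.range (n + 1), g i = g a := by
  apply Finset.sum_eq_single_of_mem
  · rw [Finset.mem_range]; omega
  · intro i hi hi'
    rw [Finset.mem_range] at hi
    rcases Nat.lt_or_ge i a with h | h
    · exact h1 i h
    · exact h2 i (by omega) (by omega)

variable {B} {d : ℕ} (hd : B.card = d + 1)

include hd

lemma WW_lt {i : ℕ} (hi : i < d) : WW B i = 0 := by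
  rw [WW_of_lt B (by omega), if_neg (by omega)]

lemma WW_d : WW B d = 1 := by
  rw [WW_of_lt B (by omega), if_pos (by omega)]

lemma WW_d1 : WW B (d + 1) = ∑ x ∈ B, x := by
  rw [← hd]
  exact WW_card B (by omega)

lemma E1_lt {n : ℕ} (hn : n < d) (c : F) : E1 B n c = 0 := by
  rw [E1, TT_pow]
  apply Finset.sum_eq_zero
  intro i hi
  rw [Finset.mem_range] at hi
  rw [WW_lt hd (by omega)]
  ring

lemma E1_d (c : F) : E1 B d c = 1 := by
  rw [E1, TT_pow, sum_one _ le_rfl]
  · rw [WW_d hd]; simp
  · intro i hi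
    rw [WW_lt hd hi]; ring
  · intro i h1 h2
    omega

lemma E1_d1 (c : F) : E1 B (d + 1) c = ((d + 1 : ℕ) : F) * c + ∑ x ∈ B, x := by
  rw [E1, TT_pow, sum_two _ le_rfl]
  · rw [WW_d hd, WW_d1 hd]
    simp
  · intro i hi
    rw [WW_lt hd hi]; ring
  · intro i h1 h2
    omega

lemma E2_lt {n : ℕ} (hn : n < 2 * d) (c : F) : E2 B n c = 0 := by
  rw [E2_eq]
  apply Finset.sum_eq_zero
  intro i hi
  rw [Finset.mem_range] at hi
  rcases Nat.lt_or_ge i d with h | h
  · rw [WW_lt hd h]; ring
  · rw [E1_lt hd (by omega)]; ring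

lemma E2_d (c : F) : E2 B (2 * d) c = ((2 * d).choose d : F) := by
  rw [E2_eq, sum_one (a := d) _ (by omega)]
  · rw [WW_d hd, show 2 * d - d = d by omega, E1_d hd]; ring
  · intro i hi
    rw [WW_lt hd hi]; ring
  · intro i h1 h2
    rw [E1_lt hd (by omega)]; ring

lemma E2_d1 (c : F) : E2 B (2 * d + 1) c =
    ((2 * d + 1).choose d : F) * (((d + 1 : ℕ) : F) * c + ∑ x ∈ B, x) +
      ((2 * d + 1).choose (d + 1) : F) * ∑ x ∈ B, x := by
  rw [E2_eq, sum_two (a := d) _ (by omega)]
  · rw [WW_d hd, WW_d1 hd, show 2 * d + 1 - d = d + 1 by omega,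
      show 2 * d + 1 - (d + 1) = d by omega, E1_d hd, E1_d1 hd]
    ring
  · intro i hi
    rw [WW_lt hd hi]; ring
  · intro i h1 h2
    rw [E1_lt hd (by omega)]; ring

lemma E3_d1 (c : F) : E3 B (3 * d + 1) c =
    ((3 * d + 1).choose d : F) * ((2 * d + 1).choose d : F) *
      (((d + 1 : ℕ) : F) * c + 3 * ∑ x ∈ B, x) := by
  rw [E3_eq, sum_two (a := d) _ (by omega)]
  · rw [WW_d hd, WW_d1 hd, show 3 * d + 1 - d = 2 * d + 1 by omega,
      show 3 * d + 1 - (d + 1) = 2 * d by omega, E2_d hd, E2_d1 hd]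
    have e1 : (2 * d + 1).choose (d + 1) = (2 * d + 1).choose d := by
      rw [← Nat.choose_symm (show d + 1 ≤ 2 * d + 1 by omega)]
      congr 1
      omega
    have e2 : (3 * d + 1).choose (d + 1) * (2 * d).choose d =
        (3 * d + 1).choose d * (2 * d + 1).choose d := by
      have := Nat.choose_mul (n := 3 * d + 1) (k := 2 * d + 1) (s := d + 1) (by omega)
      rw [show 3 * d + 1 - (d + 1) = 2 * d by omega, show 2 * d + 1 - (d + 1) = d by omega,
        e1] at this
      rw [← this]
      congr 1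
      rw [← Nat.choose_symm (show d ≤ 3 * d + 1 by omega)]
      congr 1
      omega
    have e3 : ((3 * d + 1).choose (d + 1) : F) * ((2 * d).choose d : F) =
        ((3 * d + 1).choose d : F) * ((2 * d + 1).choose d : F) := by
      exact_mod_cast congrArg (Nat.cast : ℕ → F) e2
    rw [e1]
    linear_combination (∑ x ∈ B, x) * e3
  · intro i hi
    rw [WW_lt hd hi]; ring
  · intro i h1 h2
    rw [E2_lt hd (by omega)]; ring

end weights

/-- a set of `(p+1)/3` elements of `ℤ/p` whose threefold sumset misses `μ` -/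
theorem poly_lemma {p : ℕ} [Fact p.Prime] {B : Finset (ZMod p)} {m : ℕ} (hm : B.card = m)
    (h3 : 3 * m = p + 1) (hm2 : 2 ≤ m) {μ : ZMod p}
    (hμ : ∀ x ∈ B, ∀ y ∈ B, ∀ z ∈ B, x + y + z ≠ μ) : 9 * ∑ x ∈ B, x = μ := by
  obtain ⟨d, rfl⟩ : ∃ d, m = d + 1 := ⟨m - 1, by omega⟩
  have hp : p = 3 * d + 2 := by omega
  have h0 : E3 B (3 * d + 1) (-μ) = 0 := by
    have h1 : E3 B (3 * d + 1) (-μ) = ∑ z ∈ B, wt B z * ∑ y ∈ B, wt B y * ∑ x ∈ B, wt B x * 1 := by
      simp only [E3, E2, E1, TT]
      apply Finset.sum_congr rfl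
      intro z hz
      congr 1
      apply Finset.sum_congr rfl
      intro y hy
      congr 1
      apply Finset.sum_congr rfl
      intro x hx
      congr 1
      have hne : x + (y + (z + -μ)) ≠ 0 := by
        intro h
        apply hμ x hx y hy z hz
        linear_combination h
      have := ZMod.pow_card_sub_one_eq_one hne
      rwa [show p - 1 = 3 * d + 1 by omega] at this
    have h2 : ∑ x ∈ B, wt B x * 1 = 0 := by
      have := WW_lt hm (i := 0) (by omega)
      rw [WW] at this
      simpa using this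
    rw [h1, h2]
    simp
  rw [E3_d1 hm] at h0
  have hne : ∀ n k : ℕ, n < p → k ≤ n → ((n.choose k : ℕ) : ZMod p) ≠ 0 := by
    intro n k hn hk h
    rw [ZMod.natCast_eq_zero_iff] at h
    have h1 : p ∣ n.factorial := by
      rw [← Nat.choose_mul_factorial_mul_factorial hk, mul_assoc]
      exact Dvd.dvd.mul_right h _
    have := (Nat.Prime.dvd_factorial (Fact.out : p.Prime)).1 h1
    omega
  have h1 := hne (3 * d + 1) d (by omega) (by omega)
  have h2 := hne (2 * d + 1) d (by omega) (by omega)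
  rcases mul_eq_zero.1 h0 with h | h
  · rcases mul_eq_zero.1 h with h | h
    · exact absurd h h1
    · exact absurd h h2
  · have h4 : ((3 * (d + 1) : ℕ) : ZMod p) = 1 := by
      rw [h3]
      push_cast
      rw [ZMod.natCast_self]
      ring
    push_cast at h h4
    linear_combination 3 * h + μ * h4

end Pool.Agent.MP_e67b39_co
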