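import Pool.Agent.MP_e67b39_co.DFalse
import Pool.Agent.MP_e67b39_co.Poly

namespace Pool.Agent.MP_e67b39_co

open Finset Pointwise Pool.Agent.Lib.helper11

section fibres

variable {k ν : ℕ} [NeZero k] (h : ν ∣ 3 * k)

lemma card_phi_fibre (b : ZMod ν) :
    ((Finset.univ : Finset (GG k)).filter fun x => phi h x = b).card * ν = 9 * k := by
  classical
  obtain ⟨x₀, hx₀⟩ := phi_surjective h b
  have h1 : ((Finset.univ : Finset (GG k)).filter fun x => phi h x = b) =
      fib (phi h).ker (cl (phi h).ker x₀) := by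
    ext x
    rw [mem_fib, Finset.mem_filter]
    have : cl (phi h).ker x = cl (phi h).ker x₀ ↔ phi h x = b := by
      rw [cl_eq, AddMonoidHom.mem_ker, map_sub, hx₀, sub_eq_zero]
    simp only [Finset.mem_univ, true_and]
    exact this.symm
  rw [h1, card_fib]
  have e1 := AddSubgroup.card_eq_card_quotient_mul_card_addSubgroup (phi h).ker
  rw [Nat.card_congr (QuotientAddGroup.quotientKerEquivOfSurjective _
      (phi_surjective h)).toEquiv, Nat.card_zmod, card_GG] at e1
  rw [mul_comm, ← e1]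
  ring

lemma card_phi_fibre' {l : ℕ} (hl : k = ν * l) (b : ZMod ν) :
    ((Finset.univ : Finset (GG k)).filter fun x => phi h x = b).card = 9 * l := by
  have h1 := card_phi_fibre h b
  have hν : 0 < ν := by
    rcases Nat.eq_zero_or_pos ν with h0 | h0
    · exfalso
      rw [h0, zero_mul] at hl
      exact NeZero.ne k hl
    · exact h0
  apply Nat.eq_of_mul_eq_mul_right hν
  rw [h1]
  have : 9 * k = 9 * (ν * l) := congrArg _ hl
  rw [this]
  ring

/-- the full preimage of a set of classes -/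
def preim (B : Finset (ZMod ν)) : Finset (GG k) :=
  (Finset.univ : Finset (GG k)).filter fun x => phi h x ∈ B

lemma mem_preim {B : Finset (ZMod ν)} {x : GG k} : x ∈ preim h B ↔ phi h x ∈ B := by
  rw [preim, Finset.mem_filter]
  simp

lemma card_preim {l : ℕ} (hl : k = ν * l) (B : Finset (ZMod ν)) :
    (preim h B).card = 9 * l * B.card := by
  classical
  rw [Finset.card_eq_sum_card_fiberwise (f := phi h) (t := B)
    (fun x hx => by
      have := (mem_preim h).1 (Finset.mem_coe.1 hx)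
      exact this)]
  rw [Finset.sum_const_nat (m := 9 * l), mul_comm]
  intro b hb
  rw [← card_phi_fibre' h hl b]
  congr 1
  ext x
  rw [Finset.mem_filter, Finset.mem_filter, mem_preim]
  constructor
  · exact fun hx => ⟨Finset.mem_univ _, hx.2⟩
  · rintro ⟨-, hx⟩
    exact ⟨by rwa [hx], hx⟩

lemma sum_preim {l : ℕ} (hl : k = ν * l) (B : Finset (ZMod ν)) :
    ∑ x ∈ preim h B, phi h x = ((9 * l : ℕ) : ZMod ν) * ∑ b ∈ B, b := by
  classical
  rw [← Finset.sum_fiberwise_of_maps_to (s := preim h B) (t := B) (g := phi h)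
    (fun x hx => (mem_preim h).1 hx), Finset.mul_sum]
  apply Finset.sum_congr rfl
  intro b hb
  have e1 : ∀ x ∈ (preim h B).filter (fun x => phi h x = b), phi h x = b :=
    fun x hx => (Finset.mem_filter.1 hx).2
  rw [Finset.sum_congr rfl e1, Finset.sum_const, nsmul_eq_mul]
  congr 2
  rw [← card_phi_fibre' h hl b]
  congr 1
  ext x
  rw [Finset.mem_filter, Finset.mem_filter, mem_preim]
  constructor
  · exact fun hx => ⟨Finset.mem_univ _, hx.2⟩
  · rintro ⟨-, hx⟩
    exact ⟨by rwa [hx], hx⟩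

end fibres

/-- `K3` in `ℤ/2p` -/
theorem K3p {p : ℕ} (hp : p.Prime) (ψ : ZMod (2 * p) →+ ZMod 2) (hψ : Function.Surjective ψ)
    {B : Finset (ZMod (2 * p))} {μ : ZMod (2 * p)}
    (hμ : ∀ x ∈ B, ∀ y ∈ B, ∀ z ∈ B, x + y + z ≠ μ) {a b c : ZMod 2} (habc : a + b + c = ψ μ)
    (ha : 0 < (part ψ B a).card) (hb : 0 < (part ψ B b).card) (hc : 0 < (part ψ B c).card) :
    (part ψ B a).card + (part ψ B b).card + (part ψ B c).card ≤ p + 1 := by
  classical
  haveI : NeZero (2 * p) := ⟨by have := hp.pos; omega⟩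
  have hker : Nat.card ψ.ker = p := by
    have e1 := AddSubgroup.card_eq_card_quotient_mul_card_addSubgroup ψ.ker
    rw [Nat.card_congr (QuotientAddGroup.quotientKerEquivOfSurjective _ hψ).toEquiv,
      Nat.card_zmod, Nat.card_zmod] at e1
    omega
  obtain ⟨x₀, hx₀⟩ := Finset.card_pos.1 ha
  obtain ⟨y₀, hy₀⟩ := Finset.card_pos.1 hb
  have hx₀' := mem_part.1 hx₀
  have hy₀' := mem_part.1 hy₀
  obtain ⟨H, hH, hc⟩ := K3 ψ.ker (X := part ψ B a) (Y := part ψ B b) (Z := part ψ B c)
    ⟨x₀, hx₀⟩ ⟨y₀, hy₀⟩ (Finset.card_pos.1 hc) (x₀ := x₀) (y₀ := y₀) (σ := μ)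
    (by
      intro x hx
      rw [AddMonoidHom.mem_ker, map_sub, (mem_part.1 hx).2, hx₀'.2, sub_self])
    (by
      intro x hx
      rw [AddMonoidHom.mem_ker, map_sub, (mem_part.1 hx).2, hy₀'.2, sub_self])
    (by
      intro x hx
      rw [AddMonoidHom.mem_ker, map_sub, map_sub, map_add, (mem_part.1 hx).2, hx₀'.2, hy₀'.2,
        ← habc]
      ring)
    (by
      intro x hx y hy z hz
      exact hμ x (mem_part.1 hx).1 y (mem_part.1 hy).1 z (mem_part.1 hz).1)
  have hdvd : Nat.card H ∣ p := by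
    have := AddSubgroup.card_dvd_of_le hH.le
    rwa [hker] at this
  have hH1 : Nat.card H = 1 := by
    rcases (Nat.dvd_prime hp).1 hdvd with h | h
    · exact h
    · exfalso
      apply hH.ne
      apply SetLike.coe_injective
      apply Set.eq_of_subset_of_ncard_le hH.le
      have e1 : Nat.card H = (H : Set (ZMod (2 * p))).ncard := rfl
      have e2 : Nat.card ψ.ker = (ψ.ker : Set (ZMod (2 * p))).ncard := rfl
      omega
  have e1 := card_le_img H (part ψ B a)
  have e2 := card_le_img H (part ψ B b)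
  have e3 := card_le_img H (part ψ B c)
  rw [hH1, one_mul] at e1 e2 e3
  rw [hH1, one_mul, hker] at hc
  omega

section

variable {k ν : ℕ} [NeZero k] {A : Finset (GG k)} {s : GG k} (h : ν ∣ 3 * k)

/-- the case `ν = 2` -/
theorem a_two (hν : ν = 2) (hA : A.card = 3 * k + 3) (hs : ∑ x ∈ A, x = s)
    (hm : 3 * (A.image (phi h)).card = ν + 1)
    (hno : ∀ x ∈ A, ∀ y ∈ A, ∀ z ∈ A, phi h x + phi h y + phi h z ≠ phi h s) : False := by
  classical
  have h1 : (A.image (phi h)).card = 1 := by omega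
  obtain ⟨b, hb⟩ := Finset.card_eq_one.1 h1
  have hval : ∀ x ∈ A, phi h x = b := by
    intro x hx
    have : phi h x ∈ A.image (phi h) := Finset.mem_image.2 ⟨x, hx, rfl⟩
    rwa [hb, Finset.mem_singleton] at this
  have hpos : 0 < A.card := by omega
  obtain ⟨x, hx⟩ := Finset.card_pos.1 hpos
  apply hno x hx x hx x hx
  rw [← hs, map_sum, Finset.sum_congr rfl hval, Finset.sum_const, hA, hval x hx, add_nsmul]
  have : (3 * k) • b = 0 := by
    obtain ⟨g, rfl⟩ := phi_surjective h b
    rw [← map_nsmul, nsmul_GG, map_zero]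
  rw [this]
  abel

/-- holes -/
theorem holes {l : ℕ} (hl : k = ν * l) (hA : A.card = 3 * k + 3) (hs : ∑ x ∈ A, x = s)
    (hm : 3 * (A.image (phi h)).card = ν + 1) :
    (preim h (A.image (phi h)) \ A).card + 3 = 3 * l ∧
    phi h s + ∑ x ∈ preim h (A.image (phi h)) \ A, phi h x =
      ((9 * l : ℕ) : ZMod ν) * ∑ b ∈ A.image (phi h), b := by
  classical
  have hsub : A ⊆ preim h (A.image (phi h)) := by
    intro x hx
    exact (mem_preim h).2 (Finset.mem_image.2 ⟨x, hx, rfl⟩)
  constructor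
  · have h1 := Finset.card_sdiff_add_card_eq_card hsub
    rw [card_preim h hl, hA] at h1
    have h2 : 9 * l * (A.image (phi h)).card = 3 * k + 3 * l := by
      calc 9 * l * (A.image (phi h)).card = 3 * l * (3 * (A.image (phi h)).card) := by ring
        _ = 3 * l * (ν + 1) := by rw [hm]
        _ = 3 * (ν * l) + 3 * l := by ring
        _ = 3 * k + 3 * l := by rw [← hl]
    omega
  · rw [← sum_preim h hl, ← Finset.sum_sdiff hsub, add_comm, ← hs, map_sum]

/-- the case `k = ν = 8` -/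
theorem a_eight (hν : ν = 8) (hk : k = ν) (hA : A.card = 3 * k + 3) (hs : ∑ x ∈ A, x = s)
    (hm : 3 * (A.image (phi h)).card = ν + 1)
    (hno : ∀ x ∈ A, ∀ y ∈ A, ∀ z ∈ A, phi h x + phi h y + phi h z ≠ phi h s) : False := by
  classical
  obtain ⟨h1, h2⟩ := holes h (l := 1) (by omega) hA hs hm
  have h3 : preim h (A.image (phi h)) \ A = ∅ := by
    rw [← Finset.card_eq_zero]; omega
  rw [h3, Finset.sum_empty, add_zero] at h2
  have h4 : (A.image (phi h)).card = 3 := by omega
  obtain ⟨x, y, z, hxy, hxz, hyz, hB⟩ := Finset.card_eq_three.1 h4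
  have mem : ∀ t ∈ ({x, y, z} : Finset (ZMod ν)), ∃ a ∈ A, phi h a = t := by
    intro t ht
    rw [← hB] at ht
    exact Finset.mem_image.1 ht
  obtain ⟨a, ha, rfl⟩ := mem x (by simp)
  obtain ⟨b, hb, rfl⟩ := mem y (by simp)
  obtain ⟨c, hc, rfl⟩ := mem z (by simp)
  apply hno a ha b hb c hc
  rw [h2, hB, Finset.sum_insert (by simp [hxy, hxz]), Finset.sum_insert (by simp [hyz]),
    Finset.sum_singleton]
  have : ((9 * 1 : ℕ) : ZMod ν) = 1 := by
    subst hν
    rfl
  rw [this]
  ring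

/-- the case `k = 2 p`, `ν = p` -/
theorem a_p (hp : ν.Prime) (hν : 5 ≤ ν) (hk : k = ν * 2) (hA : A.card = 3 * k + 3)
    (hs : ∑ x ∈ A, x = s) (hm : 3 * (A.image (phi h)).card = ν + 1)
    (hno : ∀ x ∈ A, ∀ y ∈ A, ∀ z ∈ A, phi h x + phi h y + phi h z ≠ phi h s) : False := by
  classical
  haveI : Fact ν.Prime := ⟨hp⟩
  obtain ⟨h1, h2⟩ := holes h hk hA hs hm
  have h3 : (preim h (A.image (phi h)) \ A).card = 3 := by omega
  have hno' : ∀ x ∈ A.image (phi h), ∀ y ∈ A.image (phi h), ∀ z ∈ A.image (phi h),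
      x + y + z ≠ phi h s := by
    intro x hx y hy z hz
    obtain ⟨x', hx', rfl⟩ := Finset.mem_image.1 hx
    obtain ⟨y', hy', rfl⟩ := Finset.mem_image.1 hy
    obtain ⟨z', hz', rfl⟩ := Finset.mem_image.1 hz
    exact hno x' hx' y' hy' z' hz'
  have h4 := poly_lemma (m := (A.image (phi h)).card) rfl hm (by omega) hno'
  obtain ⟨x, y, z, hxy, hxz, hyz, hB⟩ := Finset.card_eq_three.1 h3
  have mem : ∀ t ∈ ({x, y, z} : Finset (GG k)), phi h t ∈ A.image (phi h) := by
    intro t ht
    rw [← hB] at ht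
    exact (mem_preim h).1 (Finset.mem_sdiff.1 ht).1
  apply hno' _ (mem x (by simp)) _ (mem y (by simp)) _ (mem z (by simp))
  rw [hB, Finset.sum_insert (by simp [hxy, hxz]), Finset.sum_insert (by simp [hyz]),
    Finset.sum_singleton] at h2
  push_cast at h2
  linear_combination h2 + 2 * h4

/-- the case `k = ν = 2 p`, `p ≡ 1 mod 3` -/
theorem a_2p {p : ℕ} (hp : p.Prime) (hp3 : p % 3 = 1) (hν : ν = 2 * p) (hk : k = ν)
    (hA : A.card = 3 * k + 3) (hs : ∑ x ∈ A, x = s) (hm : 3 * (A.image (phi h)).card = ν + 1)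
    (hno : ∀ x ∈ A, ∀ y ∈ A, ∀ z ∈ A, phi h x + phi h y + phi h z ≠ phi h s) : False := by
  classical
  obtain ⟨h1, h2⟩ := holes h (l := 1) (by omega) hA hs hm
  have h3 : preim h (A.image (phi h)) \ A = ∅ := by
    rw [← Finset.card_eq_zero]; omega
  rw [h3, Finset.sum_empty, add_zero] at h2
  have hno' : ∀ x ∈ A.image (phi h), ∀ y ∈ A.image (phi h), ∀ z ∈ A.image (phi h),
      x + y + z ≠ phi h s := by
    intro x hx y hy z hz
    obtain ⟨x', hx', rfl⟩ := Finset.mem_image.1 hx
    obtain ⟨y', hy', rfl⟩ := Finset.mem_image.1 hy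
    obtain ⟨z', hz', rfl⟩ := Finset.mem_image.1 hz
    exact hno x' hx' y' hy' z' hz'
  subst hν
  set B := A.image (phi h) with hB
  set μ := phi h s with hμ
  have hd2 : 2 ∣ 2 * p := Dvd.intro p rfl
  set ψ : ZMod (2 * p) →+ ZMod 2 := (ZMod.castHom hd2 (ZMod 2)).toAddMonoidHom
    with hψ
  have hψs : Function.Surjective ψ := ZMod.castHom_surjective hd2
  haveI : NeZero (2 * p) := ⟨by have := hp.pos; omega⟩
  have hsum := sum_parts ψ B 0
  have hw := wsum_parts ψ B 0
  simp only [sub_zero, zero_add] at hsum hw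
  rw [show (Finset.univ : Finset (ZMod 2)) = {0, 1} from by decide,
    Finset.sum_insert (by decide), Finset.sum_singleton] at hsum hw
  rw [mul_zero, mul_one, zero_add] at hw
  have hψμ : ψ μ = ((part ψ B 1).card : ZMod 2) := by
    rw [h2, ← hw, ← map_sum]
    have : ∀ t : ZMod (2 * p), ψ (((9 * 1 : ℕ) : ZMod (2 * p)) * t) = ψ t := by
      intro t
      show (ZMod.castHom hd2 (ZMod 2)) _ = _
      rw [map_mul, map_natCast]
      have e : ((9 * 1 : ℕ) : ZMod 2) = 1 := by decide
      rw [e, one_mul]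
      rfl
    exact this _
  have hK := fun {a b c : ZMod 2} => K3p hp ψ hψs (B := B) (μ := μ) hno' (a := a) (b := b) (c := c)
  set b0 := (part ψ B 0).card with hb0
  set b1 := (part ψ B 1).card with hb1
  have hp2 : p ≠ 2 := by omega
  have hodd : p % 2 = 1 := by
    rcases hp.eq_two_or_odd with h | h
    · exact absurd h hp2
    · exact h
  rcases Nat.even_or_odd b1 with hev | hodd1
  · have hz : ψ μ = 0 := by
      rw [hψμ, ZMod.natCast_eq_zero_iff]
      exact hev.two_dvd
    obtain ⟨c, hc⟩ := hev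
    have k1 := hK (a := 0) (b := 0) (c := 0) (by rw [hz]; decide)
    have k2 := hK (a := 0) (b := 1) (c := 1) (by rw [hz]; decide)
    rw [← hb0] at k1 k2
    rw [← hb1] at k2
    omega
  · have hz : ψ μ = 1 := by
      obtain ⟨c, hc⟩ := hodd1
      rw [hψμ, hc]
      push_cast
      rw [show (2 : ZMod 2) = 0 from by decide]
      ring
    obtain ⟨c, hc⟩ := hodd1
    have k1 := hK (a := 1) (b := 1) (c := 1) (by rw [hz]; decide)
    have k2 := hK (a := 0) (b := 0) (c := 1) (by rw [hz]; decide)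
    rw [← hb0] at k2
    rw [← hb1] at k1 k2
    omega

end

end Pool.Agent.MP_e67b39_co
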