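import Pool.Agent.MP_e67b39_co.Tools

namespace Pool.Agent.MP_e67b39_co

open Finset Pointwise Pool.Agent.Lib.helper11

variable {Γ : Type*} [AddCommGroup Γ] [Fintype Γ] [DecidableEq Γ]

/-- a cap in a plane of order three has at most four points -/
theorem cap_le {D : Finset Γ} {σ : Γ} (h3 : ∀ x ∈ D, 3 • x = σ) (hno : NoTriple D σ)
    (h9 : ((Finset.univ : Finset Γ).filter fun x => 3 • x = σ).card ≤ 9) : D.card ≤ 4 := by
  classical
  by_contra hcon
  obtain ⟨D', hD', hcard⟩ := Finset.exists_subset_card_eq (show 5 ≤ D.card by omega)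
  set V := (Finset.univ : Finset Γ).filter fun x => 3 • x = σ with hV
  have hDV : D' ⊆ V := by
    intro x hx
    exact Finset.mem_filter.2 ⟨Finset.mem_univ _, h3 x (hD' hx)⟩
  have hC : (V \ D').card ≤ 4 := by
    rw [Finset.card_sdiff_of_subset hDV]
    omega
  have hmaps : ∀ p ∈ D'.offDiag, σ - p.1 - p.2 ∈ V \ D' := by
    rintro ⟨x, y⟩ hp
    obtain ⟨hx, hy, hxy⟩ := Finset.mem_offDiag.1 hp
    have hx3 := h3 x (hD' hx)
    have hy3 := h3 y (hD' hy)
    rw [Finset.mem_sdiff]
    constructor
    · refine Finset.mem_filter.2 ⟨Finset.mem_univ _, ?_⟩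
      show 3 • (σ - x - y) = σ
      have : 3 • (σ - x - y) = 3 • σ - 3 • x - 3 • y := by abel
      rw [this, hx3, hy3]
      abel
    · intro hz
      have hz' : σ - x - y ∈ D := hD' hz
      apply hno x (hD' hx) y (hD' hy) _ hz' hxy
      · intro h
        apply hxy
        have : σ = 3 • x := hx3.symm
        rw [this] at h
        have h2 : x - y = 0 := by
          have : x - y = (3 • x - x - y) - x := by abel
          rw [this, ← h]; abel
        exact sub_eq_zero.1 h2
      · intro h
        apply hxy
        have : σ = 3 • y := hy3.symm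
        rw [this] at h
        have h2 : y - x = 0 := by
          have : y - x = (3 • y - x - y) - y := by abel
          rw [this, ← h]; abel
        exact (sub_eq_zero.1 h2).symm
      · abel
  have hoff : D'.offDiag.card = 20 := by
    rw [Finset.offDiag_card, hcard]
  obtain ⟨c, -, hc⟩ := Finset.exists_lt_card_fiber_of_mul_lt_card_of_maps_to
    (f := fun p : Γ × Γ => σ - p.1 - p.2) hmaps (n := 4) (by omega)
  set F := D'.offDiag.filter fun p : Γ × Γ => σ - p.1 - p.2 = c with hF
  have hinj : Set.InjOn Prod.fst (F : Set (Γ × Γ)) := by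
    rintro ⟨x, y⟩ hp ⟨x', y'⟩ hp' h
    have h1 := (Finset.mem_filter.1 (Finset.mem_coe.1 hp)).2
    have h2 := (Finset.mem_filter.1 (Finset.mem_coe.1 hp')).2
    simp only at h h1 h2
    subst h
    have : y = y' := by
      have e1 : y = σ - x - c := by rw [← h1]; abel
      have e2 : y' = σ - x - c := by rw [← h2]; abel
      rw [e1, e2]
    rw [this]
  have himg : F.image Prod.fst = D' := by
    apply Finset.eq_of_subset_of_card_le
    · intro x hx
      obtain ⟨p, hp, rfl⟩ := Finset.mem_image.1 hx
      exact (Finset.mem_offDiag.1 (Finset.mem_filter.1 hp).1).1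
    · rw [Finset.card_image_of_injOn hinj, hcard]
      exact hc
  have hinv : ∀ x ∈ D', σ - c - x ∈ D' ∧ σ - c - x ≠ x := by
    intro x hx
    rw [← himg] at hx
    obtain ⟨⟨x', y⟩, hp, hpx⟩ := Finset.mem_image.1 hx
    simp only at hpx
    subst hpx
    have h1 := (Finset.mem_filter.1 hp).2
    obtain ⟨-, hy, hxy⟩ := Finset.mem_offDiag.1 (Finset.mem_filter.1 hp).1
    simp only at h1 hy hxy
    have e : σ - c - x' = y := by rw [← h1]; abel
    rw [e]
    exact ⟨hy, hxy.symm⟩
  have hsum : ∑ x ∈ D', (1 : ZMod 2) = 0 := by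
    apply Finset.sum_involution (fun x _ => σ - c - x)
    · intro x _
      decide
    · intro x hx _
      exact (hinv x hx).2
    · intro x hx
      exact (hinv x hx).1
    · intro x _
      abel
  rw [Finset.sum_const, hcard] at hsum
  revert hsum
  decide

/-- the number of solutions of `m x = σ` in a quotient -/
theorem tors_le {G : Type*} [AddCommGroup G] (π : G →+ Γ) (hπ : Function.Surjective π) (m : ℕ)
    (S : Finset G) (hS : ∀ g : G, ∃ s ∈ S, ∃ h : G, g = s + m • h) (σ : Γ) :
    ((Finset.univ : Finset Γ).filter fun x => m • x = σ).card ≤ S.card := by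
  classical
  set f : Γ →+ Γ := nsmulAddMonoidHom m with hf
  have hf' : ∀ x, f x = m • x := fun x => rfl
  have h1 : ((Finset.univ : Finset Γ).filter fun x => m • x = σ).card ≤ Nat.card f.ker := by
    rcases Finset.eq_empty_or_nonempty ((Finset.univ : Finset Γ).filter fun x => m • x = σ)
      with h | ⟨x₀, hx₀⟩
    · rw [h]
      simp
    · rw [← card_fib f.ker (cl f.ker x₀)]
      apply Finset.card_le_card
      intro x hx
      rw [mem_fib]
      apply cl_eq.2
      rw [AddMonoidHom.mem_ker, map_sub, hf', hf', (Finset.mem_filter.1 hx).2,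
        (Finset.mem_filter.1 hx₀).2, sub_self]
  have h2 : Nat.card f.ker = Nat.card (Γ ⧸ f.range) := by
    have e1 := AddSubgroup.card_eq_card_quotient_mul_card_addSubgroup f.ker
    have e2 := AddSubgroup.card_eq_card_quotient_mul_card_addSubgroup f.range
    have e3 : Nat.card (Γ ⧸ f.ker) = Nat.card f.range :=
      Nat.card_congr (QuotientAddGroup.quotientKerEquivRange f).toEquiv
    rw [e3] at e1
    rw [e1, mul_comm] at e2
    have : 0 < Nat.card f.range := Nat.card_pos
    exact Nat.eq_of_mul_eq_mul_right this e2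
  have h3 : Nat.card (Γ ⧸ f.range) ≤ S.card := by
    have hsurj : Function.Surjective
        (fun s : S => (QuotientAddGroup.mk (π s.1) : Γ ⧸ f.range)) := by
      intro Q
      obtain ⟨x, rfl⟩ := QuotientAddGroup.mk_surjective Q
      obtain ⟨g, rfl⟩ := hπ x
      obtain ⟨s, hs, h, rfl⟩ := hS g
      refine ⟨⟨s, hs⟩, ?_⟩
      show (QuotientAddGroup.mk (π s) : Γ ⧸ f.range) = QuotientAddGroup.mk (π (s + m • h))
      rw [QuotientAddGroup.eq]
      refine ⟨π h, ?_⟩
      rw [hf', map_add, map_nsmul]
      abel
    have := Nat.card_le_card_of_surjective _ hsurj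
    have e : Nat.card S = S.card := by simp
    rwa [e] at this
  omega

/-- a set in a coset `q + H` with `3 q - s ∈ H` in which no triple sums to `s` -/
theorem rr_le {H : AddSubgroup Γ} {X : Finset Γ} {q s : Γ} (hq : s - 3 • q ∈ H)
    (hX : ∀ x ∈ X, x - q ∈ H) (hno : NoTriple X s) : 2 * X.card ≤ Nat.card H + 3 := by
  classical
  rcases Finset.eq_empty_or_nonempty X with h0 | h0
  · rw [h0]; simp
  -- the average number of halves is at most one
  obtain ⟨x, hx, hx1⟩ : ∃ x ∈ X, (X.filter fun y => 2 • y = s - x).card ≤ 1 := by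
    by_contra hcon
    push Not at hcon
    have h1 : X.card * 2 ≤ ∑ x ∈ X, (X.filter fun y => 2 • y = s - x).card := by
      rw [← smul_eq_mul]
      exact Finset.card_nsmul_le_sum _ _ _ (fun x hx => hcon x hx)
    have h2 : ∑ x ∈ X, (X.filter fun y => 2 • y = s - x).card ≤ X.card := by
      rw [← Finset.card_biUnion]
      · apply Finset.card_le_card
        intro y hy
        obtain ⟨x, -, hy'⟩ := Finset.mem_biUnion.1 hy
        exact (Finset.mem_filter.1 hy').1
      · intro x _ x' _ hne
        show Disjoint _ _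
        rw [Finset.disjoint_left]
        intro y hy hy'
        apply hne
        have e1 := (Finset.mem_filter.1 hy).2
        have e2 := (Finset.mem_filter.1 hy').2
        rw [e1] at e2
        exact sub_right_injective e2
    have h3 : 0 < X.card := Finset.card_pos.2 h0
    omega
  set F := fib H (cl H q) with hF
  have memF : ∀ y, y ∈ F ↔ y - q ∈ H := by
    intro y
    rw [hF, mem_fib]
    exact cl_eq
  have hFc : F.card = Nat.card H := card_fib H _
  have hXF : X ⊆ F := fun y hy => (memF y).2 (hX y hy)
  set Y := (X \ {x, s - 2 • x}) \ (X.filter fun y => 2 • y = s - x) with hY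
  have hYc : X.card ≤ Y.card + 3 := by
    have e1 := Finset.le_card_sdiff (X.filter fun y => 2 • y = s - x) (X \ {x, s - 2 • x})
    have e2 := Finset.le_card_sdiff ({x, s - 2 • x} : Finset Γ) X
    have e3 : ({x, s - 2 • x} : Finset Γ).card ≤ 2 := Finset.card_le_two
    rw [hY]
    omega
  have hmap : Y.image (fun y => s - x - y) ⊆ F \ X := by
    intro z hz
    obtain ⟨y, hy, rfl⟩ := Finset.mem_image.1 hz
    rw [hY, Finset.mem_sdiff, Finset.mem_sdiff, Finset.mem_insert, Finset.mem_singleton,
      Finset.mem_filter] at hy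
    obtain ⟨⟨hyX, hy1⟩, hy2⟩ := hy
    push Not at hy1 hy2
    rw [Finset.mem_sdiff, memF]
    constructor
    · have := H.sub_mem (H.sub_mem hq (hX x hx)) (hX y hyX)
      rwa [show s - 3 • q - (x - q) - (y - q) = s - x - y - q by abel] at this
    · intro hz
      apply hno x hx y hyX _ hz (Ne.symm hy1.1)
      · intro h
        apply hy1.2
        have : y = s - x - x := by
          have : y = s - x - (s - x - y) := by abel
          rw [this, ← h]
        rw [this, two_nsmul]; abel
      · intro h
        apply hy2 hyX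
        rw [two_nsmul]
        nth_rewrite 2 [h]
        abel
      · abel
  have h1 := Finset.card_le_card hmap
  rw [Finset.card_image_of_injective _ (sub_right_injective), Finset.card_sdiff_of_subset hXF,
    hFc] at h1
  have h2 := Finset.card_le_card hXF
  omega

/-- the case of equality -/
theorem rr_eq {H : AddSubgroup Γ} {X : Finset Γ} {q s : Γ} (hq : s - 3 • q ∈ H)
    (hX : ∀ x ∈ X, x - q ∈ H) (hno : NoTriple X s) (heq : 2 * X.card = Nat.card H + 3) :
    Nat.card H = 3 ∨ Nat.card H = 5 ∨ Nat.card H = 9 := by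
  classical
  set F := fib H (cl H q) with hF
  have memF : ∀ y, y ∈ F ↔ y - q ∈ H := by
    intro y
    rw [hF, mem_fib]
    exact cl_eq
  have hFc : F.card = Nat.card H := card_fib H _
  have hXF : X ⊆ F := fun y hy => (memF y).2 (hX y hy)
  set C := F \ X with hC
  have hCc : C.card + 3 = X.card := by
    have h2 := Finset.card_le_card hXF
    rw [hC, Finset.card_sdiff_of_subset hXF, hFc]
    omega
  have hodd : ∀ g ∈ H, 2 • g = 0 → g = 0 := by
    intro g hg h2
    have e1 : addOrderOf g ∣ 2 := addOrderOf_dvd_of_nsmul_eq_zero h2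
    have e2 : addOrderOf g ∣ Nat.card H := by
      have := addOrderOf_dvd_natCard (⟨g, hg⟩ : H)
      rwa [← AddSubgroup.addOrderOf_coe] at this
    rw [← AddMonoid.addOrderOf_eq_one_iff]
    have hle := Nat.le_of_dvd (by norm_num) e1
    have hpos := addOrderOf_pos g
    have : addOrderOf g ≠ 2 := by
      intro h
      rw [h] at e2
      omega
    omega
  have hhalf : ∀ x ∈ X, (X.filter fun y => 2 • y = s - x).card ≤ 1 := by
    intro x _
    rw [Finset.card_le_one]
    intro y hy y' hy'
    rw [Finset.mem_filter] at hy hy'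
    have h1 : y - y' ∈ H := by
      have := H.sub_mem (hX y hy.1) (hX y' hy'.1)
      rwa [show y - q - (y' - q) = y - y' by abel] at this
    have h2 : 2 • (y - y') = 0 := by
      rw [nsmul_sub, hy.2, hy'.2, sub_self]
    exact sub_eq_zero.1 (hodd _ h1 h2)
  have hcov : ∀ x ∈ X, ∀ c ∈ C, s - x - c ∈ X := by
    intro x hx
    set Y := (X \ {x, s - 2 • x}) \ (X.filter fun y => 2 • y = s - x) with hY
    have hYc : X.card ≤ Y.card + 3 := by
      have e1 := Finset.le_card_sdiff (X.filter fun y => 2 • y = s - x) (X \ {x, s - 2 • x})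
      have e2 := Finset.le_card_sdiff ({x, s - 2 • x} : Finset Γ) X
      have e3 : ({x, s - 2 • x} : Finset Γ).card ≤ 2 := Finset.card_le_two
      have e4 := hhalf x hx
      rw [hY]
      omega
    have hmap : Y.image (fun y => s - x - y) ⊆ C := by
      intro z hz
      obtain ⟨y, hy, rfl⟩ := Finset.mem_image.1 hz
      rw [hY, Finset.mem_sdiff, Finset.mem_sdiff, Finset.mem_insert, Finset.mem_singleton,
        Finset.mem_filter] at hy
      obtain ⟨⟨hyX, hy1⟩, hy2⟩ := hy
      push Not at hy1 hy2
      rw [hC, Finset.mem_sdiff, memF]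
      constructor
      · have := H.sub_mem (H.sub_mem hq (hX x hx)) (hX y hyX)
        rwa [show s - 3 • q - (x - q) - (y - q) = s - x - y - q by abel] at this
      · intro hz
        apply hno x hx y hyX _ hz (Ne.symm hy1.1)
        · intro h
          apply hy1.2
          have : y = s - x - x := by
            have : y = s - x - (s - x - y) := by abel
            rw [this, ← h]
          rw [this, two_nsmul]; abel
        · intro h
          apply hy2 hyX
          rw [two_nsmul]
          nth_rewrite 2 [h]
          abel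
        · abel
    have himg : Y.image (fun y => s - x - y) = C := by
      apply Finset.eq_of_subset_of_card_le hmap
      rw [Finset.card_image_of_injective _ (sub_right_injective)]
      omega
    intro c hc
    rw [← himg] at hc
    obtain ⟨y, hy, rfl⟩ := Finset.mem_image.1 hc
    rw [hY, Finset.mem_sdiff, Finset.mem_sdiff] at hy
    rw [show s - x - (s - x - y) = y by abel]
    exact hy.1.1
  have hCC : ∀ c ∈ C, ∀ c' ∈ C, s - c - c' ∈ C := by
    intro c hc c' hc'
    have hcF := (memF c).1 (Finset.mem_sdiff.1 hc).1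
    have hcF' := (memF c').1 (Finset.mem_sdiff.1 hc').1
    rw [hC, Finset.mem_sdiff, memF]
    constructor
    · have := H.sub_mem (H.sub_mem hq hcF) hcF'
      rwa [show s - 3 • q - (c - q) - (c' - q) = s - c - c' - q by abel] at this
    · intro h
      have h1 := hcov _ h c hc
      rw [show s - (s - c - c') - c = c' by abel] at h1
      exact (Finset.mem_sdiff.1 hc').2 h1
  rcases Finset.eq_empty_or_nonempty C with h0 | ⟨c₀, hc₀⟩
  · rw [h0, Finset.card_empty] at hCc
    left
    omega
  · have hdiff : ∀ c₁ ∈ C, ∀ c₂ ∈ C, ∀ c ∈ C, c + (c₂ - c₁) ∈ C := by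
      intro c₁ h₁ c₂ h₂ c hc
      have := hCC c₁ h₁ _ (hCC c₂ h₂ c hc)
      rwa [show s - c₁ - (s - c₂ - c) = c + (c₂ - c₁) by abel] at this
    let K : AddSubgroup Γ :=
      { carrier := {g | c₀ + g ∈ C}
        zero_mem' := by simpa using hc₀
        add_mem' := by
          intro g g' hg hg'
          have := hdiff c₀ hc₀ _ hg' _ hg
          show c₀ + (g + g') ∈ C
          rwa [show c₀ + g + (c₀ + g' - c₀) = c₀ + (g + g') by abel] at this
        neg_mem' := by
          intro g hg
          have := hdiff _ hg _ hc₀ _ hc₀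
          show c₀ + (-g) ∈ C
          rwa [show c₀ + (c₀ - (c₀ + g)) = c₀ + (-g) by abel] at this }
    have hKC : Nat.card K = C.card := by
      rw [← card_els]
      apply Finset.card_bij (fun g _ => c₀ + g)
      · intro g hg
        exact mem_els.1 hg
      · intro g _ g' _ h
        exact add_left_cancel h
      · intro c hc
        refine ⟨c - c₀, ?_, by abel⟩
        rw [mem_els]
        show c₀ + (c - c₀) ∈ C
        rwa [show c₀ + (c - c₀) = c by abel]
    have hKH : K ≤ H := by
      intro g hg
      have h1 := (memF _).1 (Finset.mem_sdiff.1 (show c₀ + g ∈ C from hg)).1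
      have h2 := (memF _).1 (Finset.mem_sdiff.1 hc₀).1
      have := H.sub_mem h1 h2
      rwa [show c₀ + g - q - (c₀ - q) = g by abel] at this
    have hdvd := AddSubgroup.card_dvd_of_le hKH
    have e : Nat.card H = 2 * Nat.card K + 3 := by omega
    rw [e] at hdvd
    have h3 : Nat.card K ∣ 3 := (Nat.dvd_add_right (Dvd.intro_left 2 rfl)).1 hdvd
    have h4 := Nat.le_of_dvd (by norm_num) h3
    have h5 : 0 < Nat.card K := Nat.card_pos
    interval_cases h6 : Nat.card K
    · right; left; omega
    · norm_num at h3
    · right; right; omega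

end Pool.Agent.MP_e67b39_co
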