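import Pool.Agent.MP_e67b39_co.DCase

namespace Pool.Agent.MP_e67b39_co

open Finset Pointwise Pool.Agent.Lib.helper11

/-- the group -/
abbrev GG (k : ℕ) := ZMod 3 × ZMod (3 * k)

instance {k : ℕ} [NeZero k] : NeZero (3 * k) := ⟨by
  have := NeZero.ne k
  omega⟩

lemma card_GG (k : ℕ) [NeZero k] : Nat.card (GG k) = 3 * (3 * k) := by
  rw [Nat.card_prod, Nat.card_zmod, Nat.card_zmod]

lemma nsmul_GG {k : ℕ} (g : GG k) : (3 * k) • g = 0 := by
  ext
  · show (3 * k) • g.1 = 0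
    rw [nsmul_eq_mul]
    push_cast
    rw [show (3 : ZMod 3) = 0 from by decide]
    ring
  · show (3 * k) • g.2 = 0
    rw [nsmul_eq_mul, ZMod.natCast_self, zero_mul]

/-- the second coordinate modulo a divisor of `3 k` -/
def phi {k N : ℕ} (h : N ∣ 3 * k) : GG k →+ ZMod N :=
  (ZMod.castHom h (ZMod N)).toAddMonoidHom.comp (AddMonoidHom.snd (ZMod 3) (ZMod (3 * k)))

lemma phi_apply {k N : ℕ} (h : N ∣ 3 * k) (x : GG k) :
    phi h x = ZMod.castHom h (ZMod N) x.2 := rfl

lemma phi_val {k N : ℕ} [NeZero k] (h : N ∣ 3 * k) (x : GG k) :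
    phi h x = ((x.2.val : ℕ) : ZMod N) := by
  rw [phi_apply]
  conv_lhs => rw [← ZMod.natCast_zmod_val x.2]
  rw [map_natCast]

lemma phi_surjective {k N : ℕ} (h : N ∣ 3 * k) : Function.Surjective (phi h) := by
  intro c
  obtain ⟨b, hb⟩ := ZMod.castHom_surjective h c
  exact ⟨(0, b), hb⟩

lemma coprime_torsion {Λ : Type*} [AddCommGroup Λ] {x : Λ} {a b : ℕ} (ha : a • x = 0)
    (hb : b • x = 0) (hab : Nat.Coprime a b) : x = 0 := by
  rw [← AddMonoid.addOrderOf_eq_one_iff]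
  have h1 := addOrderOf_dvd_of_nsmul_eq_zero ha
  have h2 := addOrderOf_dvd_of_nsmul_eq_zero hb
  exact Nat.eq_one_of_dvd_coprimes hab h1 h2

theorem exists_chi {k : ℕ} (s : GG k) :
    ∃ χ : GG k →+ ZMod 3, Function.Surjective χ ∧ χ s = 0 := by
  set p1 : GG k →+ ZMod 3 := AddMonoidHom.fst _ _ with hp1
  set p2 : GG k →+ ZMod 3 := phi (Dvd.intro k rfl) with hp2
  have key : ∀ a b : ZMod 3, a = 0 ∨ b = 0 ∨ a - b = 0 ∨ a + b = 0 := by decide
  have h2 : ∀ a : ZMod 3, p2 (a, 0) = 0 := by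
    intro a
    rw [hp2, phi_apply, map_zero]
  rcases key (p1 s) (p2 s) with h | h | h | h
  · exact ⟨p1, fun c => ⟨(c, 0), rfl⟩, h⟩
  · exact ⟨p2, phi_surjective _, h⟩
  · refine ⟨p1 - p2, fun c => ⟨(c, 0), ?_⟩, h⟩
    show p1 (c, 0) - p2 (c, 0) = c
    rw [h2, sub_zero]
    rfl
  · refine ⟨p1 + p2, fun c => ⟨(c, 0), ?_⟩, h⟩
    show p1 (c, 0) + p2 (c, 0) = c
    rw [h2, add_zero]
    rfl

theorem tors3 {k : ℕ} [NeZero k] {Γ : Type*} [AddCommGroup Γ] [Fintype Γ] [DecidableEq Γ]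
    (π : GG k →+ Γ) (hπ : Function.Surjective π) (σ : Γ) :
    ((Finset.univ : Finset Γ).filter fun x => 3 • x = σ).card ≤ 9 := by
  classical
  refine (tors_le π hπ 3 ((Finset.univ : Finset (ZMod 3 × ZMod 3)).image
    fun p => ((p.1, ((p.2.val : ℕ) : ZMod (3 * k))) : GG k)) ?_ σ).trans ?_
  · intro g
    refine ⟨(g.1, ((((g.2.val : ℕ) : ZMod 3).val : ℕ) : ZMod (3 * k))), ?_, ?_⟩
    · exact Finset.mem_image.2 ⟨(g.1, ((g.2.val : ℕ) : ZMod 3)), Finset.mem_univ _, rfl⟩
    · refine ⟨(0, ((g.2.val / 3 : ℕ) : ZMod (3 * k))), ?_⟩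
      rw [ZMod.val_natCast]
      ext
      · show g.1 = g.1 + 3 • (0 : ZMod 3)
        rw [smul_zero, add_zero]
      · show g.2 = ((g.2.val % 3 : ℕ) : ZMod (3 * k)) + 3 • ((g.2.val / 3 : ℕ) : ZMod (3 * k))
        conv_lhs => rw [← ZMod.natCast_zmod_val g.2, ← Nat.mod_add_div g.2.val 3]
        rw [nsmul_eq_mul]
        push_cast
        ring
  · refine Finset.card_image_le.trans ?_
    rw [Finset.card_univ]
    decide

theorem tors2 {k : ℕ} [NeZero k] {Γ : Type*} [AddCommGroup Γ] [Fintype Γ] [DecidableEq Γ]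
    (π : GG k →+ Γ) (hπ : Function.Surjective π) (σ : Γ) :
    ((Finset.univ : Finset Γ).filter fun x => 2 • x = σ).card ≤ 2 := by
  classical
  refine (tors_le π hπ 2 ((Finset.univ : Finset (ZMod 2)).image
    fun p => ((0, ((p.val : ℕ) : ZMod (3 * k))) : GG k)) ?_ σ).trans ?_
  · intro g
    refine ⟨(0, ((((g.2.val : ℕ) : ZMod 2).val : ℕ) : ZMod (3 * k))), ?_, ?_⟩
    · exact Finset.mem_image.2 ⟨((g.2.val : ℕ) : ZMod 2), Finset.mem_univ _, rfl⟩
    · refine ⟨(-g.1, ((g.2.val / 2 : ℕ) : ZMod (3 * k))), ?_⟩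
      rw [ZMod.val_natCast]
      ext
      · show g.1 = 0 + 2 • (-g.1)
        have : ∀ a : ZMod 3, a = 0 + 2 • (-a) := by decide
        exact this _
      · show g.2 = ((g.2.val % 2 : ℕ) : ZMod (3 * k)) + 2 • ((g.2.val / 2 : ℕ) : ZMod (3 * k))
        conv_lhs => rw [← ZMod.natCast_zmod_val g.2, ← Nat.mod_add_div g.2.val 2]
        rw [nsmul_eq_mul]
        push_cast
        ring
  · refine Finset.card_image_le.trans ?_
    rw [Finset.card_univ]
    decide

/-- a quotient of order prime to three is given by `phi` -/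
theorem alpha_reduce {k : ℕ} [NeZero k] {Λ : Type*} [AddCommGroup Λ] [Finite Λ]
    (π : GG k →+ Λ) (hπ : Function.Surjective π) {ν : ℕ} (hν : Nat.card Λ = ν)
    (h3 : ν % 3 = 2) :
    ∃ h : ν ∣ 3 * k, ν ∣ k ∧ ∀ x y : GG k, phi h x = phi h y ↔ π x = π y := by
  have hco : Nat.Coprime 3 ν := (Nat.Prime.coprime_iff_not_dvd Nat.prime_three).2 (by omega)
  have e1 := AddSubgroup.card_eq_card_quotient_mul_card_addSubgroup π.ker
  rw [Nat.card_congr (QuotientAddGroup.quotientKerEquivOfSurjective π hπ).toEquiv, hν,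
    card_GG] at e1
  have d1 : ν ∣ 3 * (3 * k) := Dvd.intro _ e1.symm
  have d2 : ν ∣ 3 * k := hco.symm.dvd_of_dvd_mul_left d1
  have d3 : ν ∣ k := hco.symm.dvd_of_dvd_mul_left d2
  haveI : NeZero ν := ⟨by omega⟩
  have hzero : ∀ x : GG k, phi d2 x = 0 → π x = 0 := by
    intro x hx
    rw [phi_val, ZMod.natCast_eq_zero_iff] at hx
    obtain ⟨c, hc⟩ := hx
    have hx' : x = (x.1, 0) + ν • ((0, (c : ZMod (3 * k))) : GG k) := by
      ext
      · show x.1 = x.1 + ν • (0 : ZMod 3)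
        rw [smul_zero, add_zero]
      · show x.2 = 0 + ν • (c : ZMod (3 * k))
        conv_lhs => rw [← ZMod.natCast_zmod_val x.2, hc]
        rw [nsmul_eq_mul]
        push_cast
        ring
    have h1 : ∀ y : Λ, ν • y = 0 := by
      intro y
      rw [← hν]
      exact card_nsmul_eq_zero'
    rw [hx', map_add, map_nsmul, h1, add_zero]
    apply coprime_torsion (a := 3) (b := ν) _ (h1 _) hco
    rw [← map_nsmul]
    have : (3 • ((x.1, 0) : GG k)) = 0 := by
      ext
      · show 3 • x.1 = 0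
        have : ∀ a : ZMod 3, 3 • a = 0 := by decide
        exact this _
      · show 3 • (0 : ZMod (3 * k)) = 0
        exact smul_zero _
    rw [this, map_zero]
  have hker : (phi d2).ker = π.ker := by
    have hle : (phi d2).ker ≤ π.ker := fun x hx => hzero x hx
    have e2 := AddSubgroup.card_eq_card_quotient_mul_card_addSubgroup (phi d2).ker
    rw [Nat.card_congr (QuotientAddGroup.quotientKerEquivOfSurjective _
      (phi_surjective d2)).toEquiv, Nat.card_zmod, card_GG, e1] at e2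
    have hνpos : 0 < ν := by omega
    have e3 := Nat.eq_of_mul_eq_mul_left hνpos e2
    apply SetLike.coe_injective
    apply Set.eq_of_subset_of_ncard_le hle
    have f1 : Nat.card (phi d2).ker = ((phi d2).ker : Set (GG k)).ncard := rfl
    have f2 : Nat.card π.ker = (π.ker : Set (GG k)).ncard := rfl
    omega
  refine ⟨d2, d3, ?_⟩
  intro x y
  rw [← sub_eq_zero, ← map_sub, ← AddMonoidHom.mem_ker, hker, AddMonoidHom.mem_ker, map_sub,
    sub_eq_zero]

/-- the form of a set without classes `3 Q = ŝ` -/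
theorem alpha {k : ℕ} [NeZero k] {A : Finset (GG k)} {s : GG k} {H : AddSubgroup (GG k)} {N : ℕ}
    (L : AddSubgroup (GG k ⧸ H)) {ν β : ℕ} (hS : Nat.card H * N = 3 * k)
    (hL : Nat.card L * ν = 3 * N) (hβ : (img L (img H A)).card = β) (hνβ : 3 * β = ν + 1)
    (hno : ∀ x ∈ A, ∀ y ∈ A, ∀ z ∈ A,
        cl L (cl H x) + cl L (cl H y) + cl L (cl H z) ≠ cl L (cl H s)) :
    ∃ h : ν ∣ 3 * k, ν ∣ k ∧ 3 * (A.image (phi h)).card = ν + 1 ∧
      ∀ x ∈ A, ∀ y ∈ A, ∀ z ∈ A, phi h x + phi h y + phi h z ≠ phi h s := by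
  classical
  set π : GG k →+ (GG k ⧸ H) ⧸ L := (QuotientAddGroup.mk' L).comp (QuotientAddGroup.mk' H) with hπ
  have hπa : ∀ x, π x = cl L (cl H x) := fun x => rfl
  have hsurj : Function.Surjective π :=
    (QuotientAddGroup.mk'_surjective L).comp (QuotientAddGroup.mk'_surjective H)
  have hcard : Nat.card ((GG k ⧸ H) ⧸ L) = ν := by
    have e1 := AddSubgroup.card_eq_card_quotient_mul_card_addSubgroup H
    have e2 := AddSubgroup.card_eq_card_quotient_mul_card_addSubgroup L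
    have hH : 0 < Nat.card H := Nat.card_pos
    have hLp : 0 < Nat.card L := Nat.card_pos
    rw [card_GG] at e1
    have e3 : Nat.card (GG k ⧸ H) = 3 * N := by
      apply Nat.eq_of_mul_eq_mul_right hH
      refine e1.symm.trans ?_
      calc 3 * (3 * k) = 3 * (Nat.card H * N) := congrArg _ hS.symm
        _ = _ := by ring
    rw [e3, ← hL, mul_comm] at e2
    exact (Nat.eq_of_mul_eq_mul_right hLp e2).symm
  obtain ⟨h, hk, hiff⟩ := alpha_reduce π hsurj hcard (by omega)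
  refine ⟨h, hk, ?_, ?_⟩
  · rw [← hνβ, ← hβ]
    congr 1
    -- the images have the same size
    have h1 : A.image π = img L (img H A) := by
      ext Q
      rw [Finset.mem_image, mem_img]
      constructor
      · rintro ⟨x, hx, rfl⟩
        exact ⟨cl H x, mem_img.2 ⟨x, hx, rfl⟩, rfl⟩
      · rintro ⟨R, hR, rfl⟩
        obtain ⟨x, hx, rfl⟩ := mem_img.1 hR
        exact ⟨x, hx, rfl⟩
    rw [← h1]
    symm
    apply Finset.card_bij (fun Q _ => phi h (Function.surjInv hsurj Q))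
    · intro Q hQ
      obtain ⟨x, hx, rfl⟩ := Finset.mem_image.1 hQ
      refine Finset.mem_image.2 ⟨x, hx, ?_⟩
      rw [hiff]
      exact (Function.surjInv_eq hsurj _).symm
    · intro Q _ Q' _ heq
      rw [hiff, Function.surjInv_eq hsurj, Function.surjInv_eq hsurj] at heq
      exact heq
    · intro c hc
      obtain ⟨x, hx, rfl⟩ := Finset.mem_image.1 hc
      refine ⟨π x, Finset.mem_image.2 ⟨x, hx, rfl⟩, ?_⟩
      rw [hiff]
      exact Function.surjInv_eq hsurj _
  · intro x hx y hy z hz heq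
    rw [← map_add, ← map_add, hiff, map_add, map_add] at heq
    exact hno x hx y hy z hz heq

end Pool.Agent.MP_e67b39_co
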