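import Pool.Agent.MP_e67b39_co.Tools

namespace Pool.Agent.MP_e67b39_co

open Finset Pointwise Pool.Agent.Lib.helper11

variable {Γ : Type*} [AddCommGroup Γ] [Fintype Γ] [DecidableEq Γ]

/-- the divisors of `3 w` are those of `w` and `3 w` (this holds when `w` is a power of three) -/
def Tri (w : ℕ) : Prop :=
  ∀ κ, κ ∣ 3 * w → κ = 3 * w ∨ (κ ∣ w ∧ (κ = 1 ∨ 3 ≤ κ))

/-- the part of `B` over a value of `ψ` -/
def part {M : ℕ} (ψ : Γ →+ ZMod M) (B : Finset Γ) (c : ZMod M) : Finset Γ :=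
  B.filter fun x => ψ x = c

lemma mem_part {M : ℕ} {ψ : Γ →+ ZMod M} {B : Finset Γ} {c : ZMod M} {x : Γ} :
    x ∈ part ψ B c ↔ x ∈ B ∧ ψ x = c := by
  rw [part, Finset.mem_filter]

/-- `K3` for parts, with numbers -/
theorem K3w {M : ℕ} (ψ : Γ →+ ZMod M) {w : ℕ} (hT : Nat.card ψ.ker = 3 * w) (h3 : Tri w)
    {B : Finset Γ} {σ : Γ} (hB : NAE B σ) {a b c : ZMod M} (habc : a + b + c = ψ σ)
    (hne : ¬ (a = b ∧ b = c)) (ha : (part ψ B a).Nonempty) (hb : (part ψ B b).Nonempty)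
    (hc : (part ψ B c).Nonempty) :
    ∃ (H : AddSubgroup Γ) (u : ℕ), Nat.card H * u = w ∧
      (img H (part ψ B a)).card + (img H (part ψ B b)).card + (img H (part ψ B c)).card ≤
        3 * u + 1 := by
  obtain ⟨x₀, hx₀⟩ := ha
  obtain ⟨y₀, hy₀⟩ := hb
  obtain ⟨z₀, hz₀⟩ := hc
  have hx₀' := mem_part.1 hx₀
  have hy₀' := mem_part.1 hy₀
  obtain ⟨H, hH, hc⟩ := K3 ψ.ker (X := part ψ B a) (Y := part ψ B b) (Z := part ψ B c)
    ⟨x₀, hx₀⟩ ⟨y₀, hy₀⟩ ⟨z₀, hz₀⟩ (x₀ := x₀) (y₀ := y₀) (σ := σ)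
    (by
      intro x hx
      rw [AddMonoidHom.mem_ker, map_sub, (mem_part.1 hx).2, hx₀'.2, sub_self])
    (by
      intro x hx
      rw [AddMonoidHom.mem_ker, map_sub, (mem_part.1 hx).2, hy₀'.2, sub_self])
    (by
      intro x hx
      rw [AddMonoidHom.mem_ker, map_sub, map_sub, map_add, (mem_part.1 hx).2, hx₀'.2, hy₀'.2,
        ← habc]
      ring)
    (by
      intro x hx y hy z hz heq
      obtain ⟨h1, h2⟩ := hB x (mem_part.1 hx).1 y (mem_part.1 hy).1 z (mem_part.1 hz).1 heq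
      apply hne
      constructor
      · rw [← (mem_part.1 hx).2, ← (mem_part.1 hy).2, h1]
      · rw [← (mem_part.1 hz).2, ← (mem_part.1 hy).2, h2])
  have hpos : 0 < Nat.card H := Nat.card_pos
  have hdvd : Nat.card H ∣ 3 * w := by
    rw [← hT]
    exact AddSubgroup.card_dvd_of_le hH.le
  have hne' : Nat.card H ≠ 3 * w := by
    intro h
    rw [← hT] at h
    apply hH.ne
    have h1 : (H : Set Γ) = (ψ.ker : Set Γ) := by
      apply Set.eq_of_subset_of_ncard_le hH.le
      · have e1 : Nat.card H = (H : Set Γ).ncard := rfl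
        have e2 : Nat.card ψ.ker = (ψ.ker : Set Γ).ncard := rfl
        omega
    exact SetLike.coe_injective h1
  rcases h3 _ hdvd with h | ⟨⟨u, hu⟩, -⟩
  · exact absurd h hne'
  · refine ⟨H, u, hu.symm, ?_⟩
    rw [hT, hu] at hc
    have : Nat.card H * ((img H (part ψ B a)).card + (img H (part ψ B b)).card +
        (img H (part ψ B c)).card) ≤ Nat.card H * (3 * u + 1) := by
      calc _ ≤ 3 * (Nat.card H * u) + Nat.card H := hc
        _ = _ := by ring
    exact Nat.le_of_mul_le_mul_left this hpos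

/-- numbers: first consequence -/
lemma num1 {κ u w x y z ξ η ζ : ℕ} (hw : κ * u = w) (hx : x ≤ κ * ξ) (hy : y ≤ κ * η)
    (hz : z ≤ κ * ζ) (h : ξ + η + ζ ≤ 3 * u + 1) (hxy : 2 * w + 1 ≤ x + y) : z ≤ w := by
  have h1 : κ * (2 * u) < κ * (ξ + η) := by
    have e1 : κ * (2 * u) = 2 * (κ * u) := by ring
    have e2 : κ * (ξ + η) = κ * ξ + κ * η := by ring
    omega
  have h2 : 2 * u < ξ + η := lt_of_mul_lt_mul_left h1 (Nat.zero_le _)
  have h3 : ζ ≤ u := by omega
  calc z ≤ κ * ζ := hz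
    _ ≤ κ * u := Nat.mul_le_mul_left _ h3
    _ = w := hw

lemma num2 {κ u w x z ξ ζ : ℕ} (hw : κ * u = w) (hx : x ≤ κ * ξ)
    (hz : z ≤ κ * ζ) (h : ξ + ξ + ζ ≤ 3 * u + 1) (hxw : w + 1 ≤ x) : x + z ≤ 2 * w := by
  have h1 : κ * u < κ * ξ := by omega
  have h2 : u < ξ := lt_of_mul_lt_mul_left h1 (Nat.zero_le _)
  have h3 : ξ + ζ ≤ 2 * u := by omega
  calc x + z ≤ κ * ξ + κ * ζ := by omega
    _ = κ * (ξ + ζ) := by ring
    _ ≤ κ * (2 * u) := Nat.mul_le_mul_left _ h3
    _ = 2 * (κ * u) := by ring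
    _ = 2 * w := by rw [hw]

lemma num3 {κ u w x y z ξ η ζ : ℕ} (hκ : 0 < κ) (hwpos : 0 < w) (hw : κ * u = w)
    (hx : x ≤ κ * ξ) (hy : y ≤ κ * η)
    (hz : z ≤ κ * ζ) (h : ξ + η + ζ ≤ 3 * u + 1) : x + y + z ≤ 4 * w := by
  have hu : 0 < u := by
    rcases Nat.eq_zero_or_pos u with h | h
    · rw [h, mul_zero] at hw; omega
    · exact h
  calc x + y + z ≤ κ * ξ + κ * η + κ * ζ := by omega
    _ = κ * (ξ + η + ζ) := by ring
    _ ≤ κ * (4 * u) := Nat.mul_le_mul_left _ (by omega)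
    _ = 4 * (κ * u) := by ring
    _ = 4 * w := by rw [hw]

lemma num4 {κ u w x z ξ ζ : ℕ} (hw : κ * u = w) (hx : x ≤ κ * ξ)
    (hz : z ≤ κ * ζ) (hξ : 0 < ξ) (h : ξ + ξ + ζ ≤ 3 * u + 1) : x + z ≤ 3 * w := by
  calc x + z ≤ κ * ξ + κ * ζ := by omega
    _ = κ * (ξ + ζ) := by ring
    _ ≤ κ * (3 * u) := Nat.mul_le_mul_left _ (by omega)
    _ = 3 * (κ * u) := by ring
    _ = 3 * w := by rw [hw]

section consequences

variable {M : ℕ} (ψ : Γ →+ ZMod M) {w : ℕ} (hT : Nat.card ψ.ker = 3 * w) (h3 : Tri w)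
    {B : Finset Γ} {σ : Γ} (hB : NAE B σ)

include hT h3 hB

lemma cons1 {a b c : ZMod M} (habc : a + b + c = ψ σ)
    (hne : ¬ (a = b ∧ b = c)) (ha : 0 < (part ψ B a).card) (hb : 0 < (part ψ B b).card)
    (hab : 2 * w + 1 ≤ (part ψ B a).card + (part ψ B b).card) : (part ψ B c).card ≤ w := by
  rcases Nat.eq_zero_or_pos (part ψ B c).card with hc | hc
  · omega
  · obtain ⟨H, u, hu, h⟩ := K3w ψ hT h3 hB habc hne (Finset.card_pos.1 ha) (Finset.card_pos.1 hb)
      (Finset.card_pos.1 hc)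
    exact num1 hu (card_le_img H _) (card_le_img H _) (card_le_img H _) h hab

lemma cons2 {a c : ZMod M} (habc : a + a + c = ψ σ)
    (hne : a ≠ c) (ha : 0 < (part ψ B a).card) (hc : 0 < (part ψ B c).card)
    (hab : w + 1 ≤ (part ψ B a).card) : (part ψ B a).card + (part ψ B c).card ≤ 2 * w := by
  obtain ⟨H, u, hu, h⟩ := K3w ψ hT h3 hB habc (fun h => hne h.2) (Finset.card_pos.1 ha)
    (Finset.card_pos.1 ha) (Finset.card_pos.1 hc)
  exact num2 hu (card_le_img H _) (card_le_img H _) h hab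

lemma cons3 (hw : 0 < w) {a b c : ZMod M} (habc : a + b + c = ψ σ)
    (hne : ¬ (a = b ∧ b = c)) (ha : 0 < (part ψ B a).card) (hb : 0 < (part ψ B b).card)
    (hc : 0 < (part ψ B c).card) :
    (part ψ B a).card + (part ψ B b).card + (part ψ B c).card ≤ 4 * w := by
  obtain ⟨H, u, hu, h⟩ := K3w ψ hT h3 hB habc hne (Finset.card_pos.1 ha) (Finset.card_pos.1 hb)
      (Finset.card_pos.1 hc)
  exact num3 Nat.card_pos hw hu (card_le_img H _) (card_le_img H _) (card_le_img H _) h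

lemma cons4 {a c : ZMod M} (habc : a + a + c = ψ σ)
    (hne : a ≠ c) (ha : 0 < (part ψ B a).card) (hc : 0 < (part ψ B c).card) :
    (part ψ B a).card + (part ψ B c).card ≤ 3 * w := by
  obtain ⟨H, u, hu, h⟩ := K3w ψ hT h3 hB habc (fun h => hne h.2) (Finset.card_pos.1 ha)
    (Finset.card_pos.1 ha) (Finset.card_pos.1 hc)
  exact num4 hu (card_le_img H _) (card_le_img H _)
    (Finset.card_pos.2 (img_nonempty (Finset.card_pos.1 ha))) h

/-- the bound for the part containing the solutions of `3 x = σ` -/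
lemma part_le (hw : 0 < w) {r : ZMod M} (hr : r + r + r = ψ σ) (hd4 : (dd B σ).card ≤ 4)
    (hdw : (dd B σ).card ≤ w + 1) : (part ψ B r).card ≤ w + 1 := by
  classical
  rcases Nat.eq_zero_or_pos (part ψ B r).card with h0 | h0
  · omega
  obtain ⟨b₀, hb₀⟩ := Finset.card_pos.1 h0
  have hb₀' := mem_part.1 hb₀
  have hsub : part ψ B r ⊆ B := Finset.filter_subset _ _
  obtain ⟨L, hLT, h1, h2, -, -⟩ := lemmaC ψ.ker (B := part ψ B r) ⟨b₀, hb₀⟩ (b₀ := b₀) (σ := σ)
    (by
      intro x hx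
      rw [AddMonoidHom.mem_ker, map_sub, (mem_part.1 hx).2, hb₀'.2, sub_self])
    (by
      rw [AddMonoidHom.mem_ker, map_sub, map_nsmul, hb₀'.2, ← hr]
      ring)
    (fun x hx y hy z hz => hB x (hsub hx) y (hsub hy) z (hsub hz))
  set D := dd (part ψ B r) σ with hD
  have hDle : D.card ≤ (dd B σ).card := by
    apply Finset.card_le_card
    intro x hx
    rw [hD, dd, Finset.mem_filter] at hx
    rw [dd, Finset.mem_filter]
    exact ⟨hsub hx.1, hx.2⟩
  have hpos : 0 < Nat.card L := Nat.card_pos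
  have himgD : (img L D).card ≤ D.card := by
    rw [img]
    exact Finset.card_image_le
  have hle := card_le_img L (part ψ B r)
  have hdvd : Nat.card L ∣ 3 * w := by
    rw [← hT]
    exact AddSubgroup.card_dvd_of_le hLT
  rw [hT] at h1
  set β := (img L (part ψ B r)).card with hβ
  set t := (img L D).card with ht
  rcases h3 _ hdvd with h | ⟨⟨u, hu⟩, h4⟩
  · -- `L` is everything
    have h5 : 3 * β ≤ 2 + t := by
      have : Nat.card L * (3 * β) ≤ Nat.card L * (2 + t) := by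
        rw [← h] at h1
        calc _ ≤ _ := h1
          _ = _ := by ring
      exact Nat.le_of_mul_le_mul_left this hpos
    have h6 : β - t = 0 := by omega
    rw [h6, mul_zero, zero_add] at h2
    omega
  · have h5 : 3 * β ≤ 3 * u + 1 + t := by
      have : Nat.card L * (3 * β) ≤ Nat.card L * (3 * u + 1 + t) := by
        rw [hu] at h1
        calc _ ≤ _ := h1
          _ = _ := by ring
      exact Nat.le_of_mul_le_mul_left this hpos
    rcases h4 with h4 | h4
    · rw [h4, one_mul] at hu hle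
      omega
    · rcases Nat.eq_zero_or_pos t with ht0 | ht0
      · have : β ≤ u := by omega
        have := Nat.mul_le_mul_left (Nat.card L) this
        omega
      · have h7 : β - t ≤ u - 1 := by omega
        have h8 := Nat.mul_le_mul_left (Nat.card L) h7
        have hu1 : 1 ≤ u := by
          rcases Nat.eq_zero_or_pos u with h | h
          · rw [h, mul_zero] at hu; omega
          · exact h
        obtain ⟨v, rfl⟩ : ∃ v, u = v + 1 := ⟨u - 1, by omega⟩
        rw [Nat.add_sub_cancel] at h8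
        rw [mul_add, mul_one] at hu
        omega

end consequences

/-- the parts have at most `3 w` elements -/
lemma part_card_le {M : ℕ} (ψ : Γ →+ ZMod M) {w : ℕ} (hT : Nat.card ψ.ker = 3 * w)
    (B : Finset Γ) (c : ZMod M) : (part ψ B c).card ≤ 3 * w := by
  classical
  rcases Nat.eq_zero_or_pos (part ψ B c).card with h0 | h0
  · omega
  obtain ⟨b₀, hb₀⟩ := Finset.card_pos.1 h0
  have hb₀' := mem_part.1 hb₀
  rw [← hT, ← card_fib ψ.ker (cl ψ.ker b₀)]
  apply Finset.card_le_card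
  intro x hx
  rw [mem_fib]
  apply cl_eq.2
  rw [AddMonoidHom.mem_ker, map_sub, (mem_part.1 hx).2, hb₀'.2, sub_self]

lemma sum_parts {M : ℕ} [NeZero M] (ψ : Γ →+ ZMod M) (B : Finset Γ) (r : ZMod M) :
    ∑ i : ZMod M, (part ψ B (r + i)).card = B.card := by
  classical
  rw [Fintype.sum_equiv (Equiv.addLeft r) (fun i => (part ψ B (r + i)).card)
    (fun i => (part ψ B i).card) (fun i => rfl)]
  exact (Finset.card_eq_sum_card_fiberwise (f := ψ) (t := Finset.univ)
    (fun x _ => Finset.mem_coe.2 (Finset.mem_univ _))).symm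

lemma wsum_parts {M : ℕ} [NeZero M] (ψ : Γ →+ ZMod M) (B : Finset Γ) (r : ZMod M) :
    ∑ x ∈ B, (ψ x - r) = ∑ i : ZMod M, ((part ψ B (r + i)).card : ZMod M) * i := by
  classical
  rw [← Finset.sum_fiberwise_of_maps_to (s := B) (t := Finset.univ) (g := fun x => ψ x - r)
    (fun x _ => Finset.mem_univ _)]
  apply Finset.sum_congr rfl
  intro i _
  have h1 : (B.filter fun x => ψ x - r = i) = part ψ B (r + i) := by
    ext x
    rw [mem_part, Finset.mem_filter]
    constructor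
    · rintro ⟨h, rfl⟩
      exact ⟨h, by ring⟩
    · rintro ⟨h, h'⟩
      exact ⟨h, by rw [h']; ring⟩
  rw [h1, Finset.sum_congr rfl (g := fun _ => i), Finset.sum_const, nsmul_eq_mul]
  intro x hx
  rw [(mem_part.1 hx).2]
  ring

/-- the case of a homomorphism to `ℤ/2` -/
theorem psi2 (ψ : Γ →+ ZMod 2) {w : ℕ} (hT : Nat.card ψ.ker = 3 * w) (h3 : Tri w)
    (hodd : Odd w) {B : Finset Γ} {σ : Γ} (hB : NAE B σ) (hcard : B.card = 2 * w + 1)
    {r : ZMod 2} (hr : r + r + r = ψ σ) (hr0 : (part ψ B r).Nonempty) (hd4 : (dd B σ).card ≤ 4)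
    (hdw : (dd B σ).card ≤ w + 1) : ∑ x ∈ B, (ψ x - r) ≠ 0 := by
  have hw : 0 < w := hodd.pos
  have hs := sum_parts ψ B r
  have h0 := part_le ψ hT h3 hB hw hr hd4 hdw
  rw [show (Finset.univ : Finset (ZMod 2)) = {0, 1} from by decide,
    Finset.sum_insert (by decide), Finset.sum_singleton, add_zero, hcard] at hs
  rw [wsum_parts, show (Finset.univ : Finset (ZMod 2)) = {0, 1} from by decide,
    Finset.sum_insert (by decide), Finset.sum_singleton, mul_zero, mul_one, zero_add]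
  have hr0' := Finset.card_pos.2 hr0
  set b0 := (part ψ B r).card with hb0
  set b1 := (part ψ B (r + 1)).card with hb1
  have hr1 : (r + 1) + (r + 1) + r = ψ σ := by
    rw [← hr]
    have : ∀ r : ZMod 2, (r + 1) + (r + 1) + r = r + r + r := by decide
    exact this r
  have hne : r + 1 ≠ r := by
    have : ∀ r : ZMod 2, r + 1 ≠ r := by decide
    exact this r
  have hb1w : b1 = w := by
    have h1 : w ≤ b1 := by omega
    by_contra hcon
    have h2 : w + 1 ≤ b1 := by omega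
    have := cons2 ψ hT h3 hB hr1 hne (by omega) (by omega) h2
    omega
  rw [hb1w]
  intro h
  rw [ZMod.natCast_eq_zero_iff] at h
  obtain ⟨m, hm⟩ := hodd
  omega

/-- the case of a homomorphism to `ℤ/4` -/
theorem psi4 (ψ : Γ →+ ZMod 4) {w : ℕ} (hT : Nat.card ψ.ker = 3 * w) (h3 : Tri w)
    (hodd : Odd w) {B : Finset Γ} {σ : Γ} (hB : NAE B σ) (hcard : B.card = 4 * w + 1)
    {r : ZMod 4} (hr : r + r + r = ψ σ) (hr0 : (part ψ B r).Nonempty) (hd4 : (dd B σ).card ≤ 4)
    (hdw : (dd B σ).card ≤ w + 1) : ∑ x ∈ B, (ψ x - r) ≠ 0 := by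
  have hw : 0 < w := hodd.pos
  have hs := sum_parts ψ B r
  have h0 := part_le ψ hT h3 hB hw hr hd4 hdw
  have u4 : (Finset.univ : Finset (ZMod 4)) = {0, 1, 2, 3} := by decide
  rw [u4, Finset.sum_insert (by decide), Finset.sum_insert (by decide),
    Finset.sum_insert (by decide), Finset.sum_singleton, add_zero, hcard] at hs
  rw [wsum_parts, u4, Finset.sum_insert (by decide), Finset.sum_insert (by decide),
    Finset.sum_insert (by decide), Finset.sum_singleton, mul_zero, mul_one, zero_add]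
  have hr0' := Finset.card_pos.2 hr0
  have l1 := part_card_le ψ hT B (r + 1)
  have l3 := part_card_le ψ hT B (r + 3)
  have e022 : ∀ r : ZMod 4, (r + 2) + (r + 2) + r = r + r + r := by decide
  have e112 : ∀ r : ZMod 4, (r + 1) + (r + 1) + (r + 2) = r + r + r := by decide
  have e332 : ∀ r : ZMod 4, (r + 3) + (r + 3) + (r + 2) = r + r + r := by decide
  have e013 : ∀ r : ZMod 4, r + (r + 1) + (r + 3) = r + r + r := by decide
  have e031 : ∀ r : ZMod 4, r + (r + 3) + (r + 1) = r + r + r := by decide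
  have n20 : ∀ r : ZMod 4, r + 2 ≠ r := by decide
  have n12 : ∀ r : ZMod 4, r + 1 ≠ r + 2 := by decide
  have n32 : ∀ r : ZMod 4, r + 3 ≠ r + 2 := by decide
  have n013 : ∀ r : ZMod 4, ¬ (r = r + 1 ∧ r + 1 = r + 3) := by decide
  have n031 : ∀ r : ZMod 4, ¬ (r = r + 3 ∧ r + 3 = r + 1) := by decide
  have c022 := cons2 ψ hT h3 hB ((e022 r).trans hr) (n20 r)
  have c112 := cons2 ψ hT h3 hB ((e112 r).trans hr) (n12 r)
  have c332 := cons2 ψ hT h3 hB ((e332 r).trans hr) (n32 r)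
  have c013 := cons1 ψ hT h3 hB ((e013 r).trans hr) (n013 r)
  have c031 := cons1 ψ hT h3 hB ((e031 r).trans hr) (n031 r)
  have d022 := cons4 ψ hT h3 hB ((e022 r).trans hr) (n20 r)
  have t013 := cons3 ψ hT h3 hB hw ((e013 r).trans hr) (n013 r)
  clear e022 e112 e332 e013 e031 n20 n12 n32 n013 n031
  set b0 := (part ψ B r).card with hb0
  set b1 := (part ψ B (r + 1)).card with hb1
  set b2 := (part ψ B (r + 2)).card with hb2
  set b3 := (part ψ B (r + 3)).card with hb3
  have key : (b1 = w ∧ b2 = w ∧ b3 = w) ∨ (b1 = 3 * w ∧ b2 = 0 ∧ b3 = 0) ∨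
      (b1 = 0 ∧ b2 = 0 ∧ b3 = 3 * w) := by
    rcases Nat.eq_zero_or_pos b2 with z2 | p2
    · rcases Nat.eq_zero_or_pos b1 with z1 | p1
      · right; right; omega
      · rcases Nat.eq_zero_or_pos b3 with z3 | p3
        · right; left; omega
        · have := t013 hr0' p1 p3
          omega
    · -- `b1, b3 ≤ w`
      have q1 : b1 ≤ w := by
        by_contra hcon
        have h1 := c112 (by omega) p2 (by omega)
        have h2 := c031 hr0'
        by_cases p3 : 0 < b3
        · have h3 := h2 p3 (by omega)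
          omega
        · omega
      have q3 : b3 ≤ w := by
        by_contra hcon
        have h1 := c332 (by omega) p2 (by omega)
        have h2 := c013 hr0'
        by_cases p1 : 0 < b1
        · have h3 := h2 p1 (by omega)
          omega
        · omega
      have q2 : b2 ≤ w := by
        by_contra hcon
        have h1 := c022 p2 hr0' (by omega)
        omega
      left
      omega
  obtain ⟨m, hm⟩ := hodd
  have hz : ∀ n : ℕ, n % 4 ≠ 0 → (n : ZMod 4) ≠ 0 := by
    intro n hn h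
    rw [ZMod.natCast_eq_zero_iff] at h
    omega
  rcases key with ⟨h1, h2, h3⟩ | ⟨h1, h2, h3⟩ | ⟨h1, h2, h3⟩
  · rw [h1, h2, h3]
    have : (w : ZMod 4) + (w * 2 + w * 3) = ((w + (w * 2 + w * 3) : ℕ) : ZMod 4) := by
      push_cast; ring
    rw [this]
    apply hz
    omega
  · rw [h1, h2, h3]
    have : ((3 * w : ℕ) : ZMod 4) + (((0 : ℕ) : ZMod 4) * 2 + ((0 : ℕ) : ZMod 4) * 3) =
        ((3 * w : ℕ) : ZMod 4) := by
      push_cast; ring
    rw [this]
    apply hz
    omega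
  · rw [h1, h2, h3]
    have : ((0 : ℕ) : ZMod 4) + (((0 : ℕ) : ZMod 4) * 2 + ((3 * w : ℕ) : ZMod 4) * 3) =
        ((9 * w : ℕ) : ZMod 4) := by
      push_cast; ring
    rw [this]
    apply hz
    omega

end Pool.Agent.MP_e67b39_co
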