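import Pool.Agent.MP_e67b39_co.Cap
import Pool.Agent.MP_e67b39_co.Psi

namespace Pool.Agent.MP_e67b39_co

open Finset Pointwise Pool.Agent.Lib.helper11

variable {G : Type*} [AddCommGroup G] [Fintype G] [DecidableEq G]

/-- a class with `3 Q = ŝ` is at most half full -/
lemma fc_rr_le {A : Finset G} {s : G} (hno : NoTriple A s) {H : AddSubgroup G} {Q : G ⧸ H}
    (hQ : 3 • Q = cl H s) : 2 * fc H A Q ≤ Nat.card H + 3 := by
  classical
  obtain ⟨q, rfl⟩ := QuotientAddGroup.mk_surjective Q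
  have h1 : s - 3 • q ∈ H := cl_eq.1 hQ.symm
  unfold fc
  apply rr_le (q := q) h1
  · intro x hx
    exact cl_eq.1 (Finset.mem_filter.1 hx).2
  · intro x hx y hy z hz
    exact hno x (Finset.mem_filter.1 hx).1 y (Finset.mem_filter.1 hy).1 z
      (Finset.mem_filter.1 hz).1

lemma fc_rr_eq {A : Finset G} {s : G} (hno : NoTriple A s) {H : AddSubgroup G} {Q : G ⧸ H}
    (hQ : 3 • Q = cl H s) (heq : 2 * fc H A Q = Nat.card H + 3) :
    Nat.card H = 3 ∨ Nat.card H = 5 ∨ Nat.card H = 9 := by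
  classical
  obtain ⟨q, rfl⟩ := QuotientAddGroup.mk_surjective Q
  have h1 : s - 3 • q ∈ H := cl_eq.1 hQ.symm
  unfold fc at heq
  apply rr_eq (q := q) h1 _ _ heq
  · intro x hx
    exact cl_eq.1 (Finset.mem_filter.1 hx).2
  · intro x hx y hy z hz
    exact hno x (Finset.mem_filter.1 hx).1 y (Finset.mem_filter.1 hy).1 z
      (Finset.mem_filter.1 hz).1

/-- two classes with `3 Q = ŝ` -/
theorem two_classes {A : Finset G} {s : G} {n : ℕ} {H : AddSubgroup G} {N : ℕ}
    (hS : Struct A s n H N) (hno : NoTriple A s) {Q₁ Q₂ : G ⧸ H} (h1 : Q₁ ∈ img H A)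
    (h2 : Q₂ ∈ img H A) (e1 : 3 • Q₁ = cl H s) (e2 : 3 • Q₂ = cl H s) (hne : Q₁ ≠ Q₂) :
    (Nat.card H = 3 ∨ Nat.card H = 5 ∨ Nat.card H = 9) ∧
    (∀ Q ∈ img H A, 3 • Q ≠ cl H s → fc H A Q = Nat.card H) ∧
    (Nat.card H = 3 → ∀ Q ∈ img H A, fc H A Q = Nat.card H) ∧
    (Nat.card H ≠ 3 → ∀ Q ∈ img H A, 3 • Q = cl H s → Q = Q₁ ∨ Q = Q₂) := by
  classical
  have f1 := fc_rr_le hno e1
  have f2 := fc_rr_le hno e2
  have f3 := fc_pair hS.hN hS.hA hS.hB h1 h2 hne
  have g1 : 2 * fc H A Q₁ = Nat.card H + 3 := by omega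
  have g2 : 2 * fc H A Q₂ = Nat.card H + 3 := by omega
  have hfull : ∀ Q ∈ img H A, Q ≠ Q₁ → Q ≠ Q₂ → fc H A Q = Nat.card H := by
    intro Q hQ hn1 hn2
    apply le_antisymm (fc_le H A Q)
    have hs := sum_fc H A
    have m2 : Q₂ ∈ (img H A).erase Q₁ := Finset.mem_erase.2 ⟨hne.symm, h2⟩
    have m3 : Q ∈ ((img H A).erase Q₁).erase Q₂ :=
      Finset.mem_erase.2 ⟨hn2, Finset.mem_erase.2 ⟨hn1, hQ⟩⟩
    rw [← Finset.add_sum_erase _ _ h1, ← Finset.add_sum_erase _ _ m2,
      ← Finset.add_sum_erase _ _ m3] at hs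
    have hle : ∑ Q' ∈ (((img H A).erase Q₁).erase Q₂).erase Q, fc H A Q' ≤
        ((((img H A).erase Q₁).erase Q₂).erase Q).card * Nat.card H := by
      rw [← smul_eq_mul]
      exact Finset.sum_le_card_nsmul _ _ _ (fun Q' _ => fc_le H A Q')
    rw [Finset.card_erase_of_mem m3, Finset.card_erase_of_mem m2, Finset.card_erase_of_mem h1,
      hS.hB, Nat.add_sub_cancel] at hle
    have hN2 : 2 ≤ N := by
      have h3 : 3 ≤ (img H A).card := by
        have : ({Q, Q₁, Q₂} : Finset (G ⧸ H)) ⊆ img H A := by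
          intro R hR
          simp only [Finset.mem_insert, Finset.mem_singleton] at hR
          rcases hR with rfl | rfl | rfl
          · exact hQ
          · exact h1
          · exact h2
        have h4 := Finset.card_le_card this
        rwa [Finset.card_eq_three.2 ⟨Q, Q₁, Q₂, hn1, hn2, hne, rfl⟩] at h4
      have := hS.hB
      omega
    obtain ⟨M, rfl⟩ : ∃ M, N = M + 2 := ⟨N - 2, by omega⟩
    rw [show M + 2 - 1 - 1 = M by omega] at hle
    have e3 := hS.hN
    have e4 := hS.hA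
    rw [mul_add, mul_comm (Nat.card H) M] at e3
    omega
  refine ⟨fc_rr_eq hno e1 g1, ?_, ?_, ?_⟩
  · intro Q hQ hQ3
    apply hfull Q hQ
    · rintro rfl; exact hQ3 e1
    · rintro rfl; exact hQ3 e2
  · intro h3 Q hQ
    by_cases q1 : Q = Q₁
    · rw [q1]; omega
    · by_cases q2 : Q = Q₂
      · rw [q2]; omega
      · exact hfull Q hQ q1 q2
  · intro h3 Q hQ hQ3
    by_contra hcon
    push Not at hcon
    have h4 := hfull Q hQ hcon.1 hcon.2
    have h5 := fc_rr_le hno hQ3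
    have : 0 < Nat.card H := Nat.card_pos
    have h6 := fc_le H A Q₁
    omega

/-- the dichotomy for the classes with `3 Q = ŝ` -/
theorem dichotomy {A : Finset G} {s : G} {n : ℕ} {H : AddSubgroup G} {N : ℕ}
    (hG : Nat.card G = 3 * n) (hn : 0 < n) (hS : Struct A s n H N) :
    (∃ (L : AddSubgroup (G ⧸ H)) (ν β : ℕ), Nat.card L * ν = 3 * N ∧ (img L (img H A)).card = β ∧
      3 * β = ν + 1 ∧ ∀ x ∈ A, ∀ y ∈ A, ∀ z ∈ A,
        cl L (cl H x) + cl L (cl H y) + cl L (cl H z) ≠ cl L (cl H s)) ∨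
    ∃ Q₁ ∈ img H A, ∃ Q₂ ∈ img H A, Q₁ ≠ Q₂ ∧ 3 • Q₁ = cl H s ∧ 3 • Q₂ = cl H s := by
  classical
  haveI : Fintype (G ⧸ H) := Fintype.ofFinite _
  have hBne : (img H A).Nonempty := by
    apply Finset.card_pos.1
    rw [hS.hB]
    omega
  obtain ⟨b₀, hb₀⟩ := hBne
  have hnae : NAE (img H A) (cl H s) := by
    intro x hx y hy z hz h
    obtain ⟨x', hx', rfl⟩ := mem_img.1 hx
    obtain ⟨y', hy', rfl⟩ := mem_img.1 hy
    obtain ⟨z', hz', rfl⟩ := mem_img.1 hz
    exact hS.nae x' hx' y' hy' z' hz' h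
  obtain ⟨L, -, h1, h2, h3, h4⟩ := lemmaC (⊤ : AddSubgroup (G ⧸ H)) (B := img H A) ⟨b₀, hb₀⟩
    (b₀ := b₀) (σ := cl H s) (fun _ _ => AddSubgroup.mem_top _) (AddSubgroup.mem_top _) hnae
  have hQ : Nat.card (G ⧸ H) = 3 * N := by
    have e1 := AddSubgroup.card_eq_card_quotient_mul_card_addSubgroup H
    rw [hG, ← hS.hN] at e1
    have : 0 < Nat.card H := Nat.card_pos
    apply Nat.eq_of_mul_eq_mul_right this
    rw [← e1]
    ring
  rw [AddSubgroup.card_top, hQ] at h1
  rw [hS.hB] at h2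
  have hLpos : 0 < Nat.card L := Nat.card_pos
  rcases Nat.lt_or_ge (dd (img H A) (cl H s)).card 2 with hd | hd
  · -- at most one
    left
    have hd0 : dd (img H A) (cl H s) = ∅ := by
      by_contra hne
      have hpos : 0 < (dd (img H A) (cl H s)).card :=
        Finset.card_pos.2 (Finset.nonempty_iff_ne_empty.2 hne)
      have hc : (dd (img H A) (cl H s)).card = 1 := by omega
      have ht1 : (img L (dd (img H A) (cl H s))).card ≤ 1 := by
        rw [← hc, img]
        exact Finset.card_image_le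
      have ht2 : 0 < (img L (dd (img H A) (cl H s))).card :=
        Finset.card_pos.2 (img_nonempty (Finset.nonempty_iff_ne_empty.2 hne))
      have ht : (img L (dd (img H A) (cl H s))).card = 1 := by omega
      rw [ht, mul_one] at h1
      rw [ht, hc] at h2
      have hβ : 0 < (img L (img H A)).card := Finset.card_pos.2 (img_nonempty ⟨b₀, hb₀⟩)
      obtain ⟨γ, hγ⟩ : ∃ γ, (img L (img H A)).card = γ + 1 := ⟨_, (Nat.sub_add_cancel hβ).symm⟩
      rw [hγ, Nat.add_sub_cancel] at h2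
      rw [hγ] at h1
      have e1 : Nat.card L * (3 * (γ + 1)) = 3 * (Nat.card L * γ) + 3 * Nat.card L := by ring
      omega
    rw [hd0] at h1 h2
    have him : (img L (∅ : Finset (G ⧸ H))).card = 0 := by
      rw [img]; rfl
    rw [him] at h1 h2
    have hdvd : Nat.card L ∣ 3 * N := by
      rw [← hQ]
      exact AddSubgroup.card_addSubgroup_dvd_card L
    obtain ⟨ν, hν⟩ := hdvd
    refine ⟨L, ν, (img L (img H A)).card, hν.symm, rfl, ?_, ?_⟩
    · rw [hν] at h1
      simp only [mul_zero, Nat.sub_zero, Finset.card_empty, add_zero] at h1 h2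
      have e1 : Nat.card L * (3 * (img L (img H A)).card) ≤ Nat.card L * (ν + 1) := by
        rw [mul_add, mul_one]
        exact h1
      have e2 := Nat.le_of_mul_le_mul_left e1 hLpos
      have e3 : Nat.card L * ν < Nat.card L * (3 * (img L (img H A)).card) := by
        rw [← hν]
        have : Nat.card L * (3 * (img L (img H A)).card) =
          3 * (Nat.card L * (img L (img H A)).card) := by ring
        omega
      have e4 := Nat.lt_of_mul_lt_mul_left e3
      omega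
    · intro x hx y hy z hz
      apply h4 _ (mem_img.2 ⟨x, hx, rfl⟩) _ (mem_img.2 ⟨y, hy, rfl⟩) _ (mem_img.2 ⟨z, hz, rfl⟩)
      rw [hd0]
      exact Finset.notMem_empty _
  · right
    obtain ⟨Q₁, q1, Q₂, q2, hne⟩ := Finset.one_lt_card.1 (show 1 < _ from hd)
    rw [dd, Finset.mem_filter] at q1 q2
    exact ⟨Q₁, q1.1, Q₂, q2.1, hne, q1.2, q2.2⟩

end Pool.Agent.MP_e67b39_co
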