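import Pool.Agent.MP_e67b39_co.Concrete

namespace Pool.Agent.MP_e67b39_co

open Finset Pointwise Pool.Agent.Lib.helper11

lemma tri_pow (e : ℕ) : Tri (3 ^ e) := by
  intro κ hκ
  rw [← pow_succ'] at hκ
  obtain ⟨i, hi, rfl⟩ := (Nat.dvd_prime_pow Nat.prime_three).1 hκ
  rcases Nat.lt_or_ge i (e + 1) with h | h
  · right
    refine ⟨Nat.pow_dvd_pow 3 (by omega), ?_⟩
    rcases Nat.eq_zero_or_pos i with rfl | hi
    · left; rfl
    · right
      calc 3 = 3 ^ 1 := by norm_num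
        _ ≤ 3 ^ i := Nat.pow_le_pow_right (by norm_num) hi
  · left
    rw [show i = e + 1 by omega, pow_succ']

lemma nsmul_GG' {k : ℕ} (g : GG k) : k • 3 • g = 0 := by
  have := nsmul_GG g
  rwa [mul_nsmul] at this

section

variable {k : ℕ} [NeZero k] {A : Finset (GG k)} {s : GG k} {H : AddSubgroup (GG k)} {N : ℕ}

lemma card_quot (hN : Nat.card H * N = 3 * k) : Nat.card (GG k ⧸ H) = 3 * N := by
  have e1 := AddSubgroup.card_eq_card_quotient_mul_card_addSubgroup H
  have hH : 0 < Nat.card H := Nat.card_pos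
  rw [card_GG] at e1
  apply Nat.eq_of_mul_eq_mul_right hH
  refine e1.symm.trans ?_
  calc 3 * (3 * k) = 3 * (Nat.card H * N) := congrArg _ hN.symm
    _ = _ := by ring

lemma sum_psi {M : ℕ} (ψ : GG k →+ ZMod M) (hM : M ∣ 3 * k) (h3 : IsUnit (3 : ZMod M))
    (hH3 : IsUnit ((Nat.card H : ℕ) : ZMod M)) (hψ : H ≤ ψ.ker)
    (hA : A.card = 3 * k + 3) (hs : ∑ x ∈ A, x = s)
    (hfull : ∀ Q ∈ img H A, 3 • Q ≠ cl H s → fc H A Q = Nat.card H)
    {Q₁ : GG k ⧸ H} (hQ₁ : 3 • Q₁ = cl H s) :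
    ∑ Q ∈ img H A, (QuotientAddGroup.lift H ψ hψ Q - QuotientAddGroup.lift H ψ hψ Q₁) = 0 := by
  classical
  set ψ' := QuotientAddGroup.lift H ψ hψ with hψ'
  have hψa : ∀ x, ψ' (cl H x) = ψ x := fun x => rfl
  set r := ψ' Q₁ with hr
  have hr3 : 3 • r = ψ s := by
    rw [hr, ← map_nsmul, hQ₁, hψa]
  have h1 : ∑ x ∈ A, (ψ x - r) = 0 := by
    rw [Finset.sum_sub_distrib, ← map_sum, hs, Finset.sum_const, hA, add_nsmul, hr3,
      nsmul_eq_mul, (ZMod.natCast_eq_zero_iff _ _).2 hM]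
    ring
  have h2 : ∑ x ∈ A, (ψ x - r) = ∑ Q ∈ img H A, ∑ x ∈ A with cl H x = Q, (ψ x - r) := by
    rw [Finset.sum_fiberwise_of_maps_to]
    intro x hx
    exact mem_img.2 ⟨x, hx, rfl⟩
  rw [h2] at h1
  have h4 : ∀ Q ∈ img H A, ∑ x ∈ A with cl H x = Q, (ψ x - r) =
      ((Nat.card H : ℕ) : ZMod M) * (ψ' Q - r) := by
    intro Q hQ
    have e1 : ∀ x ∈ A.filter (fun x => cl H x = Q), ψ x - r = ψ' Q - r := by
      intro x hx
      rw [← (Finset.mem_filter.1 hx).2, hψa]
    rw [Finset.sum_congr rfl e1, Finset.sum_const, nsmul_eq_mul]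
    by_cases h3Q : 3 • Q = cl H s
    · have : ψ' Q - r = 0 := by
        have e2 : (3 : ZMod M) * (ψ' Q - r) = 0 := by
          have e3 : 3 • ψ' Q = 3 • r := by
            rw [hr3, ← map_nsmul, h3Q, hψa]
          rw [nsmul_eq_mul, nsmul_eq_mul] at e3
          push_cast at e3
          rw [mul_sub, e3, sub_self]
        exact (IsUnit.mul_right_eq_zero h3).1 e2
      rw [this, mul_zero, mul_zero]
    · have := hfull Q hQ h3Q
      rw [← this]
      rfl
  rw [Finset.sum_congr rfl h4, ← Finset.mul_sum] at h1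
  exact (IsUnit.mul_right_eq_zero hH3).1 h1

/-- the contradiction for `3 ∣ k` (and `k = 10`) -/
theorem psi_false {M e : ℕ} (hM24 : M = 2 ∨ M = 4) (hM : M ∣ 3 * k)
    (hS : Struct A s (3 * k) H N) (hs : ∑ x ∈ A, x = s) (hno : NoTriple A s)
    (hNM : N = M * 3 ^ e) (hHodd : Odd (Nat.card H)) (he : Nat.card H = 3 → 1 ≤ e)
    {Q₁ Q₂ : GG k ⧸ H} (h1 : Q₁ ∈ img H A)
    (h2 : Q₂ ∈ img H A) (e1 : 3 • Q₁ = cl H s) (e2 : 3 • Q₂ = cl H s) (hne : Q₁ ≠ Q₂) :
    False := by
  classical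
  haveI : Fintype (GG k ⧸ H) := Fintype.ofFinite _
  obtain ⟨-, hfull, -, hD⟩ := two_classes hS hno h1 h2 e1 e2 hne
  have hcop : Nat.Coprime (Nat.card H) M := by
    rcases hM24 with rfl | rfl
    · exact Nat.coprime_two_right.2 hHodd
    · exact (Nat.coprime_two_right.2 hHodd).pow_right 2
  have hcop3 : Nat.Coprime 3 M := by
    rcases hM24 with rfl | rfl <;> norm_num
  have u3 : IsUnit (3 : ZMod M) := by
    have := (ZMod.isUnit_iff_coprime 3 M).2 hcop3
    exact_mod_cast this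
  have uH : IsUnit ((Nat.card H : ℕ) : ZMod M) := (ZMod.isUnit_iff_coprime _ M).2 hcop
  set ψ := phi (k := k) hM with hψ
  have hψH : H ≤ ψ.ker := by
    intro h hh
    rw [AddMonoidHom.mem_ker]
    have a1 : (Nat.card H) • h = 0 := by
      have : (Nat.card H) • (⟨h, hh⟩ : H) = 0 := card_nsmul_eq_zero'
      exact congrArg Subtype.val this
    have a2 : (Nat.card H) • ψ h = 0 := by rw [← map_nsmul, a1, map_zero]
    have a3 : M • ψ h = 0 := by
      rw [nsmul_eq_mul, ZMod.natCast_self, zero_mul]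
    exact coprime_torsion a2 a3 hcop
  set ψ' := QuotientAddGroup.lift H ψ hψH with hψ'
  have hsum := sum_psi ψ hM u3 uH hψH hS.hA hs hfull e1
  rw [← hψ'] at hsum
  have hψs : Function.Surjective ψ' := by
    intro c
    obtain ⟨x, hx⟩ := phi_surjective hM c
    exact ⟨cl H x, hx⟩
  have hNAE : NAE (img H A) (cl H s) := by
    intro x hx y hy z hz h
    obtain ⟨x', hx', rfl⟩ := mem_img.1 hx
    obtain ⟨y', hy', rfl⟩ := mem_img.1 hy
    obtain ⟨z', hz', rfl⟩ := mem_img.1 hz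
    exact hS.nae x' hx' y' hy' z' hz' h
  have hMpos : 0 < M := by rcases hM24 with rfl | rfl <;> norm_num
  have hker : Nat.card ψ'.ker = 3 * 3 ^ e := by
    have a1 := AddSubgroup.card_eq_card_quotient_mul_card_addSubgroup ψ'.ker
    rw [Nat.card_congr (QuotientAddGroup.quotientKerEquivOfSurjective _ hψs).toEquiv,
      Nat.card_zmod, card_quot hS.hN, hNM] at a1
    apply Nat.eq_of_mul_eq_mul_left hMpos
    rw [← a1]
    ring
  have hdd : ∀ Q, Q ∈ dd (img H A) (cl H s) ↔ Q ∈ img H A ∧ 3 • Q = cl H s := by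
    intro Q
    rw [dd, Finset.mem_filter]
  have hd4 : (dd (img H A) (cl H s)).card ≤ 4 := by
    apply cap_le (σ := cl H s)
    · intro Q hQ
      exact ((hdd Q).1 hQ).2
    · intro x hx y hy z hz hxy _ _ h
      exact hxy (hNAE x ((hdd _).1 hx).1 y ((hdd _).1 hy).1 z ((hdd _).1 hz).1 h).1
    · exact tors3 (QuotientAddGroup.mk' H) (QuotientAddGroup.mk'_surjective H) _
  have hdw : (dd (img H A) (cl H s)).card ≤ 3 ^ e + 1 := by
    by_cases h3 : Nat.card H = 3
    · have : 3 ^ 1 ≤ 3 ^ e := Nat.pow_le_pow_right (by norm_num) (he h3)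
      omega
    · have h4 : dd (img H A) (cl H s) ⊆ {Q₁, Q₂} := by
        intro Q hQ
        rw [hdd] at hQ
        rw [Finset.mem_insert, Finset.mem_singleton]
        exact hD h3 Q hQ.1 hQ.2
      have h5 := Finset.card_le_card h4
      have h6 : ({Q₁, Q₂} : Finset (GG k ⧸ H)).card ≤ 2 := Finset.card_le_two
      have h7 : 0 < 3 ^ e := by positivity
      omega
  have hr : ψ' Q₁ + ψ' Q₁ + ψ' Q₁ = ψ' (cl H s) := by
    rw [← e1, map_nsmul]
    abel
  have hodd : Odd (3 ^ e) := Odd.pow (by decide)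
  rcases hM24 with rfl | rfl
  · exact psi2 ψ' hker (tri_pow e) hodd hNAE (by rw [hS.hB, hNM]) hr
      ⟨Q₁, mem_part.2 ⟨h1, rfl⟩⟩ hd4 hdw hsum
  · exact psi4 ψ' hker (tri_pow e) hodd hNAE (by rw [hS.hB, hNM]) hr
      ⟨Q₁, mem_part.2 ⟨h1, rfl⟩⟩ hd4 hdw hsum

/-- the case `|H| = 3`, `3 ∤ k` -/
theorem three_false (hk : ¬ 3 ∣ k) (hS : Struct A s (3 * k) H N) (hs : ∑ x ∈ A, x = s)
    (hno : NoTriple A s) (hH : Nat.card H = 3)
    {Q₁ Q₂ : GG k ⧸ H} (h1 : Q₁ ∈ img H A)
    (h2 : Q₂ ∈ img H A) (e1 : 3 • Q₁ = cl H s) (e2 : 3 • Q₂ = cl H s) (hne : Q₁ ≠ Q₂) :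
    False := by
  classical
  obtain ⟨-, -, hfull, -⟩ := two_classes hS hno h1 h2 e1 e2 hne
  have hfull := hfull hH
  -- each class is contained in `A`
  have hcls : ∀ Q ∈ img H A, (A.filter fun x => cl H x = Q) = fib H Q := by
    intro Q hQ
    apply Finset.eq_of_subset_of_card_le
    · intro x hx
      rw [mem_fib]
      exact (Finset.mem_filter.1 hx).2
    · rw [card_fib, ← hfull Q hQ]
      rfl
  -- sum of the elements of `H`
  have hHsum : 2 • ∑ h ∈ els H, h = 0 := by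
    have : ∑ h ∈ els H, h = ∑ h ∈ els H, (-h) := by
      apply Finset.sum_bij (fun h _ => -h)
      · intro h hh
        rw [mem_els] at hh ⊢
        exact H.neg_mem hh
      · intro a _ b _ hab
        exact neg_injective hab
      · intro b hb
        exact ⟨-b, mem_els.2 (H.neg_mem (mem_els.1 hb)), neg_neg b⟩
      · intro a _
        exact (neg_neg a).symm
    rw [two_nsmul]
    nth_rewrite 2 [this]
    rw [Finset.sum_neg_distrib, add_neg_cancel]
  have hfib : ∀ q : GG k, ∑ x ∈ fib H (cl H q), x = 3 • q + ∑ h ∈ els H, h := by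
    intro q
    have : ∑ x ∈ fib H (cl H q), x = ∑ h ∈ els H, (q + h) := by
      symm
      apply Finset.sum_bij (fun h _ => q + h)
      · intro h hh
        rw [mem_els] at hh
        rw [mem_fib]
        apply cl_eq.2
        simpa using hh
      · intro a _ b _ hab
        exact add_left_cancel hab
      · intro x hx
        rw [mem_fib] at hx
        refine ⟨x - q, mem_els.2 (cl_eq.1 hx), by abel⟩
      · intro _ _
        rfl
    rw [this, Finset.sum_add_distrib, Finset.sum_const, card_els, hH]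
  -- `2 k s = 0`
  have hks : (2 * k) • s = 0 := by
    have a1 : s = ∑ Q ∈ img H A, ∑ x ∈ A with cl H x = Q, x := by
      rw [Finset.sum_fiberwise_of_maps_to, hs]
      intro x hx
      exact mem_img.2 ⟨x, hx, rfl⟩
    rw [a1, Finset.smul_sum]
    apply Finset.sum_eq_zero
    intro Q hQ
    rw [hcls Q hQ]
    obtain ⟨q, hq, rfl⟩ := mem_img.1 hQ
    rw [hfib q, smul_add]
    have b1 : (2 * k) • 3 • q = 0 := by
      rw [smul_smul, show 2 * k * 3 = 3 * k * 2 by ring, mul_nsmul, nsmul_GG, smul_zero]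
    have b2 : (2 * k) • ∑ h ∈ els H, h = 0 := by
      rw [mul_nsmul, hHsum, smul_zero]
    rw [b1, b2, add_zero]
  obtain ⟨q, hq, hqQ⟩ := mem_img.1 h1
  subst hqQ
  have hmem : s - 3 • q ∈ H := cl_eq.1 e1.symm
  have a1 : 3 • (s - 3 • q) = 0 := by
    have : (Nat.card H) • (⟨_, hmem⟩ : H) = 0 := card_nsmul_eq_zero'
    rw [hH] at this
    exact congrArg Subtype.val this
  have a2 : (2 * k) • (s - 3 • q) = 0 := by
    rw [nsmul_sub, hks, smul_smul, show 2 * k * 3 = 3 * k * 2 by ring, mul_nsmul, nsmul_GG,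
      smul_zero, sub_zero]
  have hco : Nat.Coprime 3 (2 * k) := by
    rw [Nat.Prime.coprime_iff_not_dvd Nat.prime_three, Nat.Prime.dvd_mul Nat.prime_three]
    rintro (h | h)
    · norm_num at h
    · exact hk h
  have a3 := coprime_torsion a1 a2 hco
  have a4 : s = 3 • q := sub_eq_zero.1 a3
  -- the class of `q` has three elements summing to `3 q`
  have a5 : ∑ x ∈ A.filter (fun x => cl H x = cl H q), x = 3 • q := by
    rw [hcls _ h1, hfib]
    have c1 : ∑ h ∈ els H, h ∈ H := H.sum_mem (fun h hh => mem_els.1 hh)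
    have c2 : 3 • ∑ h ∈ els H, h = 0 := by
      have : (Nat.card H) • (⟨_, c1⟩ : H) = 0 := card_nsmul_eq_zero'
      rw [hH] at this
      exact congrArg Subtype.val this
    rw [coprime_torsion hHsum c2 (by norm_num), add_zero]
  have a6 : (A.filter (fun x => cl H x = cl H q)).card = 3 := by
    rw [hcls _ h1, card_fib, hH]
  obtain ⟨x, y, z, hxy, hxz, hyz, hxyz⟩ := Finset.card_eq_three.1 a6
  rw [hxyz, Finset.sum_insert (by simp [hxy, hxz]), Finset.sum_insert (by simp [hyz]),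
    Finset.sum_singleton] at a5
  have mem : ∀ t ∈ ({x, y, z} : Finset (GG k)), t ∈ A := by
    intro t ht
    rw [← hxyz] at ht
    exact (Finset.mem_filter.1 ht).1
  exact hno x (mem x (by simp)) y (mem y (by simp)) z (mem z (by simp)) hxy hxz hyz
    (by rw [a4, ← a5]; abel)

/-- the case `|H| = 9`, `3 ∤ k` -/
theorem nine_false (hk : ¬ 3 ∣ k) (hH : Nat.card H = 9)
    {Q₁ Q₂ : GG k ⧸ H} (e1 : 3 • Q₁ = cl H s) (e2 : 3 • Q₂ = cl H s) (hne : Q₁ ≠ Q₂) :
    False := by
  classical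
  have hco : Nat.Coprime 3 k := (Nat.Prime.coprime_iff_not_dvd Nat.prime_three).2 hk
  have h9 : ∀ h ∈ H, 9 • h = 0 := by
    intro h hh
    have : (Nat.card H) • (⟨h, hh⟩ : H) = 0 := card_nsmul_eq_zero'
    rw [hH] at this
    exact congrArg Subtype.val this
  have hsub : ∀ h ∈ H, 3 • h = 0 := by
    intro h hh
    have a1 : 3 • (3 • h) = 0 := by
      rw [smul_smul]; exact h9 h hh
    have a2 : k • (3 • h) = 0 := nsmul_GG' h
    exact coprime_torsion a1 a2 hco
  have hels : els H ⊆ (Finset.univ : Finset (GG k)).filter fun x => 3 • x = 0 := by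
    intro h hh
    exact Finset.mem_filter.2 ⟨Finset.mem_univ _, hsub h (mem_els.1 hh)⟩
  have heq : els H = (Finset.univ : Finset (GG k)).filter fun x => 3 • x = 0 := by
    apply Finset.eq_of_subset_of_card_le hels
    rw [card_els, hH]
    exact tors3 (AddMonoidHom.id (GG k)) Function.surjective_id 0
  obtain ⟨q, rfl⟩ := QuotientAddGroup.mk_surjective Q₁
  obtain ⟨q', rfl⟩ := QuotientAddGroup.mk_surjective Q₂
  apply hne
  apply cl_eq.2
  rw [← mem_els, heq, Finset.mem_filter]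
  refine ⟨Finset.mem_univ _, ?_⟩
  have h3 : 3 • (q - q') ∈ H := by
    have : cl H (3 • q) = cl H (3 • q') := e1.trans e2.symm
    have := cl_eq.1 this
    rwa [← nsmul_sub] at this
  have a1 : 3 • (3 • (q - q')) = 0 := hsub _ h3
  have a2 : k • (3 • (q - q')) = 0 := nsmul_GG' _
  exact coprime_torsion a1 a2 hco

end

end Pool.Agent.MP_e67b39_co
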