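import Mathlib

namespace Pool.Agent.MP_e67b39_co

open Finset

/-- `A` is weakly zero-`h`-sum-free: no `h` distinct elements of `A` sum to `0`. -/
def WeaklyZeroSumFree {G : Type*} [AddCommGroup G] (h : ℕ) (A : Finset G) : Prop :=
  ∀ S ⊆ A, S.card = h → ∑ x ∈ S, x ≠ 0

/-- `τ^(G, h)`: the largest size of a weakly zero-`h`-sum-free subset of `G`. -/
noncomputable def tauHat (G : Type*) [AddCommGroup G] (h : ℕ) : ℕ :=
  sSup {n | ∃ A : Finset G, A.card = n ∧ WeaklyZeroSumFree h A}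

/-- The exceptional integers: the odd `k` all of whose prime factors are `1` mod `3`, `k = 8`,
`k = 2 * 3 ^ j`, `k = 4 * 3 ^ j`, and `k = 2 * p` with `p` prime. -/
def Exceptional (k : ℕ) : Prop :=
  (Odd k ∧ ∀ p : ℕ, p.Prime → p ∣ k → p % 3 = 1) ∨ k = 8 ∨
    (∃ j : ℕ, k = 2 * 3 ^ j ∨ k = 4 * 3 ^ j) ∨ ∃ p : ℕ, p.Prime ∧ k = 2 * p

end Pool.Agent.MP_e67b39_co
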