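import Pool.Agent.MP_e67b39_co.AFalse
import Pool.Agent.MP_e67b39_co.Defs

namespace Pool.Agent.MP_e67b39_co

open Finset Pointwise Pool.Agent.Lib.helper11

section compl

variable {G : Type*} [AddCommGroup G] [DecidableEq G]

/-- passing to complements -/
lemma wzsf_iff {A : Finset G} {h c : ℕ} (hA : A.card = h + c) :
    WeaklyZeroSumFree h A ↔ ∀ T ⊆ A, T.card = c → ∑ x ∈ T, x ≠ ∑ x ∈ A, x := by
  constructor
  · intro hw T hT hTc heq
    apply hw (A \ T) Finset.sdiff_subset
    · rw [Finset.card_sdiff_of_subset hT, hA, hTc]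
      omega
    · have := Finset.sum_sdiff (f := fun x => x) hT
      rw [heq] at this
      exact add_eq_right.1 this
  · intro hw S hS hSc heq
    apply hw (A \ S) Finset.sdiff_subset
    · rw [Finset.card_sdiff_of_subset hS, hA, hSc]
      omega
    · have := Finset.sum_sdiff (f := fun x => x) hS
      rw [heq, add_zero] at this
      exact this

lemma wzsf_subset {A B : Finset G} {h : ℕ} (hA : WeaklyZeroSumFree h A) (hB : B ⊆ A) :
    WeaklyZeroSumFree h B := fun S hS hc => hA S (hS.trans hB) hc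

end compl

/-- a set given by classes modulo `N`, with holes -/
theorem lower_phi {k N l : ℕ} [NeZero k] (hk : k = N * l) (h : N ∣ 3 * k) (B : Finset (ZMod N))
    (hB : 3 * B.card = N + 1) (Hol : Finset (GG k)) (hHol : Hol ⊆ preim h B)
    (hHolc : Hol.card + 3 = 3 * l) {τ : ZMod N}
    (hτ : ∀ x ∈ B, ∀ y ∈ B, ∀ z ∈ B, x + y + z ≠ τ)
    (hsum : ((9 * l : ℕ) : ZMod N) * ∑ b ∈ B, b = τ + ∑ x ∈ Hol, phi h x) :
    ∃ A : Finset (GG k), A.card = 3 * k + 3 ∧
      ∀ T ⊆ A, T.card = 3 → ∑ x ∈ T, x ≠ ∑ x ∈ A, x := by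
  classical
  refine ⟨preim h B \ Hol, ?_, ?_⟩
  · rw [Finset.card_sdiff_of_subset hHol, card_preim h hk]
    have h2 : 9 * l * B.card = 3 * k + 3 * l := by
      calc 9 * l * B.card = 3 * l * (3 * B.card) := by ring
        _ = 3 * l * (N + 1) := by rw [hB]
        _ = 3 * (N * l) + 3 * l := by ring
        _ = 3 * k + 3 * l := by rw [← hk]
    omega
  · intro T hT hTc heq
    obtain ⟨x, y, z, hxy, hxz, hyz, rfl⟩ := Finset.card_eq_three.1 hTc
    have mem : ∀ t ∈ ({x, y, z} : Finset (GG k)), phi h t ∈ B := fun t ht =>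
      (mem_preim h).1 (Finset.mem_sdiff.1 (hT ht)).1
    rw [Finset.sum_insert (by simp [hxy, hxz]), Finset.sum_insert (by simp [hyz]),
      Finset.sum_singleton] at heq
    apply hτ _ (mem x (by simp)) _ (mem y (by simp)) _ (mem z (by simp))
    have h1 := congrArg (phi h) heq
    rw [map_add, map_add, map_sum] at h1
    have h2 := Finset.sum_sdiff (f := fun x => phi h x) hHol
    rw [sum_preim h hk, hsum] at h2
    rw [add_assoc, h1]
    exact add_right_cancel h2

/-- the same with natural numbers -/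
theorem lower_nat {k N l : ℕ} [NeZero k] (hk : k = N * l) (hl : 0 < l) (Bn : Finset ℕ)
    (hBn : ∀ x ∈ Bn, x < N) (hcard : 3 * Bn.card = N + 1) (c : ℕ → ℕ)
    (hc : ∀ i < 3 * (l - 1), c i ∈ Bn) {τ : ℕ}
    (hτ : ∀ x ∈ Bn, ∀ y ∈ Bn, ∀ z ∈ Bn, ¬ (x + y + z ≡ τ [MOD N]))
    (hsum : 9 * l * ∑ b ∈ Bn, b ≡ τ + ∑ i ∈ Finset.range (3 * (l - 1)), c i [MOD N]) :
    ∃ A : Finset (GG k), A.card = 3 * k + 3 ∧
      ∀ T ⊆ A, T.card = 3 → ∑ x ∈ T, x ≠ ∑ x ∈ A, x := by
  classical
  have h : N ∣ 3 * k := ⟨3 * l, by rw [hk]; ring⟩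
  have hinj : Set.InjOn (Nat.cast : ℕ → ZMod N) (Bn : Set ℕ) := by
    intro x hx y hy hxy
    have := (ZMod.natCast_eq_natCast_iff _ _ _).1 hxy
    exact Nat.ModEq.eq_of_lt_of_lt this (hBn x hx) (hBn y hy)
  set B : Finset (ZMod N) := Bn.image Nat.cast with hB
  have hBc : B.card = Bn.card := Finset.card_image_of_injOn hinj
  have hBs : ∑ b ∈ B, b = ((∑ b ∈ Bn, b : ℕ) : ZMod N) := by
    rw [hB, Finset.sum_image hinj, Nat.cast_sum]
  set f : ℕ → GG k := fun i => (0, ((c i + N * i : ℕ) : ZMod (3 * k))) with hf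
  have hval : ∀ i < 3 * (l - 1), (((c i + N * i : ℕ) : ZMod (3 * k))).val = c i + N * i := by
    intro i hi
    apply ZMod.val_natCast_of_lt
    have h1 := hBn _ (hc i hi)
    have h2 : i + 1 ≤ 3 * l := by omega
    calc c i + N * i < N + N * i := by omega
      _ = N * (i + 1) := by ring
      _ ≤ N * (3 * l) := Nat.mul_le_mul_left _ h2
      _ = 3 * (N * l) := by ring
      _ = 3 * k := by rw [← hk]
  have hfphi : ∀ i < 3 * (l - 1), phi h (f i) = ((c i : ℕ) : ZMod N) := by
    intro i hi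
    rw [phi_val]
    show (((((c i + N * i : ℕ) : ZMod (3 * k))).val : ℕ) : ZMod N) = _
    rw [hval i hi]
    push_cast
    rw [ZMod.natCast_self]
    ring
  have hfinj : Set.InjOn f (Finset.range (3 * (l - 1)) : Set ℕ) := by
    intro i hi j hj hij
    rw [Finset.mem_coe, Finset.mem_range] at hi hj
    have h1 : ((c i + N * i : ℕ) : ZMod (3 * k)) = ((c j + N * j : ℕ) : ZMod (3 * k)) :=
      congrArg Prod.snd hij
    have h2 := congrArg ZMod.val h1
    rw [hval i hi, hval j hj] at h2
    have h3 := hBn _ (hc i hi)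
    have h4 := hBn _ (hc j hj)
    have h5 : (c i + N * i) / N = (c j + N * j) / N := by rw [h2]
    rwa [Nat.add_mul_div_left _ _ (by omega), Nat.add_mul_div_left _ _ (by omega),
      Nat.div_eq_of_lt h3, Nat.div_eq_of_lt h4, zero_add, zero_add] at h5
  apply lower_phi hk h B (by rw [hBc, hcard]) ((Finset.range (3 * (l - 1))).image f)
    (τ := ((τ : ℕ) : ZMod N))
  · intro x hx
    obtain ⟨i, hi, rfl⟩ := Finset.mem_image.1 hx
    rw [Finset.mem_range] at hi
    rw [mem_preim, hfphi i hi]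
    exact Finset.mem_image.2 ⟨c i, hc i hi, rfl⟩
  · rw [Finset.card_image_of_injOn hfinj, Finset.card_range]
    omega
  · intro x hx y hy z hz
    obtain ⟨x', hx', rfl⟩ := Finset.mem_image.1 hx
    obtain ⟨y', hy', rfl⟩ := Finset.mem_image.1 hy
    obtain ⟨z', hz', rfl⟩ := Finset.mem_image.1 hz
    intro heq
    apply hτ x' hx' y' hy' z' hz'
    rw [← ZMod.natCast_eq_natCast_iff]
    push_cast
    exact heq
  · rw [hBs, Finset.sum_image hfinj, Finset.sum_congr rfl (fun i hi => hfphi i
      (Finset.mem_range.1 hi))]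
    have := (ZMod.natCast_eq_natCast_iff _ _ _).2 hsum
    push_cast at this ⊢
    exact this

/-- greedy filling -/
lemma greedy (M R : ℕ) : ∀ r : ℕ, ∑ i ∈ Finset.range r, min M (R - i * M) = min R (r * M) := by
  intro r
  induction r with
  | zero => simp
  | succ r ih =>
    rw [Finset.sum_range_succ, ih]
    have : (r + 1) * M = r * M + M := by ring
    rw [this]
    omega

/-- the property `P` -/
def PP (k : ℕ) : Prop :=
  ∃ N l : ℕ, k = N * l ∧ 5 ≤ N ∧ N % 3 = 2 ∧ (3 ≤ l ∨ (l = 1 ∧ N % 2 = 1) ∨ (l = 2 ∧ N % 2 = 0))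

theorem lower_PP {k : ℕ} [NeZero k] (hP : PP k) :
    ∃ A : Finset (GG k), A.card = 3 * k + 3 ∧
      ∀ T ⊆ A, T.card = 3 → ∑ x ∈ T, x ≠ ∑ x ∈ A, x := by
  classical
  obtain ⟨N, l, hk, hN5, hN3, hl⟩ := hP
  -- the interval
  have hint : ∀ m : ℕ, N + 1 = 3 * m → ∀ x ∈ Finset.range m, ∀ y ∈ Finset.range m,
      ∀ z ∈ Finset.range m, ¬ (x + y + z ≡ N - 1 [MOD N]) := by
    intro m hm x hx y hy z hz h
    rw [Finset.mem_range] at hx hy hz
    have := Nat.ModEq.eq_of_lt_of_lt h (by omega) (by omega)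
    omega
  obtain ⟨m, hm⟩ : ∃ m, N + 1 = 3 * m := ⟨(N + 1) / 3, by omega⟩
  have hgauss := Finset.sum_range_id_mul_two m
  rcases hl with hl | ⟨hl, hodd⟩ | ⟨hl, heven⟩
  · -- `l ≥ 3`
    set R := (9 * l * ∑ b ∈ Finset.range m, b + 1) % N with hR
    have hRN : R < N := Nat.mod_lt _ (by omega)
    apply lower_nat hk (by omega) (Finset.range m) (τ := N - 1)
      (c := fun i => min (m - 1) (R - i * (m - 1)))
    · intro x hx
      rw [Finset.mem_range] at hx
      omega
    · rw [Finset.card_range]; omega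
    · intro i _
      rw [Finset.mem_range]
      have := Nat.min_le_left (m - 1) (R - i * (m - 1))
      omega
    · exact hint m hm
    · rw [greedy]
      have h1 : R ≤ 3 * (l - 1) * (m - 1) := by
        have : 6 * (m - 1) ≤ 3 * (l - 1) * (m - 1) := Nat.mul_le_mul_right _ (by omega)
        omega
      rw [min_eq_left h1]
      have h2 : R ≡ 9 * l * ∑ b ∈ Finset.range m, b + 1 [MOD N] := Nat.mod_modEq _ _
      have h3 := h2.add_left (N - 1)
      have h4 : N - 1 + (9 * l * ∑ b ∈ Finset.range m, b + 1) =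
        9 * l * ∑ b ∈ Finset.range m, b + N := by omega
      rw [h4] at h3
      refine (h3.trans ?_).symm
      exact Nat.add_modEq_right
  · -- `l = 1`
    subst hl
    apply lower_nat hk (by omega) (Finset.range m) (τ := N - 1) (c := fun _ => 0)
    · intro x hx
      rw [Finset.mem_range] at hx
      omega
    · rw [Finset.card_range]; omega
    · intro i hi
      omega
    · exact hint m hm
    · simp only [Nat.sub_self, mul_zero, Finset.range_zero, Finset.sum_empty, add_zero, mul_one]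
      have hco : Nat.Coprime N 2 := Nat.coprime_two_right.2 (Nat.odd_iff.2 hodd)
      have h2 : 2 * (9 * ∑ b ∈ Finset.range m, b) ≡ 2 * (N - 1) [MOD N] := by
        have e1 : 2 * (9 * ∑ b ∈ Finset.range m, b) = 3 * m * (3 * m - 3) := by
          obtain ⟨t, rfl⟩ : ∃ t, m = t + 1 := ⟨m - 1, by omega⟩
          rw [show 3 * (t + 1) - 3 = 3 * t by omega]
          rw [Nat.add_sub_cancel] at hgauss
          linear_combination 9 * hgauss
        rw [e1, ← hm, show N + 1 - 3 = N - 2 by omega, Nat.add_mul, one_mul]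
        have e2 : 2 * (N - 1) = N + (N - 2) := by omega
        rw [e2]
        apply Nat.ModEq.add_right
        exact (Nat.modEq_zero_iff_dvd.2 (dvd_mul_right _ _)).trans
          (Nat.modEq_zero_iff_dvd.2 dvd_rfl).symm
      exact Nat.ModEq.cancel_left_of_coprime hco h2
  · -- `l = 2`
    subst hl
    obtain ⟨t, ht⟩ : ∃ t, N = 6 * t + 2 := ⟨N / 6, by omega⟩
    have ht1 : 1 ≤ t := by omega
    have hmem : ∀ x, x ∈ Finset.range (t + 1) ∪ Finset.Ico (3 * t + 2) (4 * t + 2) ↔
        x ≤ t ∨ (3 * t + 2 ≤ x ∧ x ≤ 4 * t + 1) := by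
      intro x
      rw [Finset.mem_union, Finset.mem_range, Finset.mem_Ico]
      omega
    have hdisj : Disjoint (Finset.range (t + 1)) (Finset.Ico (3 * t + 2) (4 * t + 2)) := by
      rw [Finset.disjoint_left]
      intro x hx hx'
      rw [Finset.mem_range] at hx
      rw [Finset.mem_Ico] at hx'
      omega
    apply lower_nat hk (by omega) (Finset.range (t + 1) ∪ Finset.Ico (3 * t + 2) (4 * t + 2))
      (τ := 3 * t + 1) (c := fun _ => t - 1)
    · intro x hx
      rw [hmem] at hx
      omega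
    · rw [Finset.card_union_of_disjoint hdisj, Finset.card_range, Nat.card_Ico]
      omega
    · intro i _
      rw [hmem]
      omega
    · intro x hx y hy z hz h
      rw [hmem] at hx hy hz
      obtain ⟨q, hq⟩ := (Nat.modEq_iff_dvd.1 h.symm)
      subst ht
      have hq' : (x : ℤ) + y + z - (3 * t + 1) = (6 * t + 2) * q := by
        have := hq
        push_cast at this
        linarith
      have hq1 : q < 2 := by
        by_contra hcon
        push Not at hcon
        have : (6 * (t : ℤ) + 2) * 2 ≤ (6 * t + 2) * q :=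
          mul_le_mul_of_nonneg_left hcon (by positivity)
        omega
      have hq2 : -1 < q := by
        by_contra hcon
        push Not at hcon
        have : (6 * (t : ℤ) + 2) * q ≤ (6 * t + 2) * (-1) :=
          mul_le_mul_of_nonneg_left hcon (by positivity)
        omega
      have : q = 0 ∨ q = 1 := by omega
      rcases this with rfl | rfl <;> omega
    · rw [Finset.sum_union hdisj]
      have hs1 := Finset.sum_range_id_mul_two (t + 1)
      rw [Nat.add_sub_cancel] at hs1
      have hs2 : ∑ i ∈ Finset.Ico (3 * t + 2) (4 * t + 2), i =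
          ∑ i ∈ Finset.range t, (3 * t + 2 + i) := by
        rw [Finset.sum_Ico_eq_sum_range]
        congr 1
        congr 1
        omega
      rw [Finset.sum_add_distrib, Finset.sum_const, Finset.card_range, smul_eq_mul] at hs2
      have hs3 := Finset.sum_range_id_mul_two t
      have hs4 : ∑ i ∈ Finset.range (3 * (2 - 1)), (t - 1) = 3 * (t - 1) := by
        rw [Finset.sum_const, Finset.card_range, smul_eq_mul]
      rw [hs4, hs2]
      obtain ⟨u, rfl⟩ : ∃ u, t = u + 1 := ⟨t - 1, by omega⟩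
      rw [Nat.add_sub_cancel] at hs3 ⊢
      set a := ∑ i ∈ Finset.range (u + 1 + 1), i with ha
      set b := ∑ i ∈ Finset.range (u + 1), i with hb
      have e1 : 9 * 2 * (a + ((u + 1) * (3 * (u + 1) + 2) + b)) =
          (3 * (u + 1) + 1 + 3 * u) + N * (12 * (u + 1) + 1) := by
        rw [ht]
        linear_combination 9 * hs1 + 9 * hs3
      rw [e1]
      unfold Nat.ModEq
      exact Nat.add_mul_mod_self_left _ _ _

end Pool.Agent.MP_e67b39_co
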