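import Pool.Agent.MP_e67b39_co.Lower

namespace Pool.Agent.MP_e67b39_co

open Finset

/-- the element with given natural coordinates -/
def el (k : ℕ) (p : ℕ × ℕ) : GG k := ((p.1 : ZMod 3), (p.2 : ZMod (3 * k)))

lemma el_inj {k : ℕ} {p q : ℕ × ℕ} (hp : p.1 < 3 ∧ p.2 < 3 * k) (hq : q.1 < 3 ∧ q.2 < 3 * k)
    (h : el k p = el k q) : p = q := by
  have h1 : ((p.1 : ℕ) : ZMod 3) = ((q.1 : ℕ) : ZMod 3) := congrArg Prod.fst h
  have h2 : ((p.2 : ℕ) : ZMod (3 * k)) = ((q.2 : ℕ) : ZMod (3 * k)) := congrArg Prod.snd h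
  have h3 := Nat.ModEq.eq_of_lt_of_lt ((ZMod.natCast_eq_natCast_iff _ _ _).1 h1) hp.1 hq.1
  have h4 := Nat.ModEq.eq_of_lt_of_lt ((ZMod.natCast_eq_natCast_iff _ _ _).1 h2) hp.2 hq.2
  exact Prod.ext h3 h4

lemma el_add {k : ℕ} (p q : ℕ × ℕ) : el k p + el k q = el k (p.1 + q.1, p.2 + q.2) := by
  ext
  · show ((p.1 : ℕ) : ZMod 3) + ((q.1 : ℕ) : ZMod 3) = ((p.1 + q.1 : ℕ) : ZMod 3)
    rw [Nat.cast_add]
  · show ((p.2 : ℕ) : ZMod (3 * k)) + ((q.2 : ℕ) : ZMod (3 * k)) =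
      ((p.2 + q.2 : ℕ) : ZMod (3 * k))
    rw [Nat.cast_add]

lemma el_injOn {k : ℕ} {An : Finset (ℕ × ℕ)} (hAn : ∀ p ∈ An, p.1 < 3 ∧ p.2 < 3 * k) :
    Set.InjOn (el k) (An : Set (ℕ × ℕ)) := fun p hp q hq h => el_inj (hAn p hp) (hAn q hq) h

lemma sum_el {k : ℕ} {An : Finset (ℕ × ℕ)} (hAn : ∀ p ∈ An, p.1 < 3 ∧ p.2 < 3 * k) :
    ∑ x ∈ An.image (el k), x = el k (∑ p ∈ An, p.1, ∑ p ∈ An, p.2) := by
  rw [Finset.sum_image (el_injOn hAn)]
  ext
  · rw [Prod.fst_sum]
    show ∑ p ∈ An, ((p.1 : ℕ) : ZMod 3) = ((∑ p ∈ An, p.1 : ℕ) : ZMod 3)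
    rw [Nat.cast_sum]
  · rw [Prod.snd_sum]
    show ∑ p ∈ An, ((p.2 : ℕ) : ZMod (3 * k)) = ((∑ p ∈ An, p.2 : ℕ) : ZMod (3 * k))
    rw [Nat.cast_sum]

/-- the construction of size `3 k + 2`, `k` even -/
theorem lower_even {k : ℕ} [NeZero k] (hk : Even k) :
    ∃ A : Finset (GG k), A.card = 3 * k + 2 ∧
      ∀ T ⊆ A, T.card = 2 → ∑ x ∈ T, x ≠ ∑ x ∈ A, x := by
  classical
  have hk0 := NeZero.ne k
  obtain ⟨t, ht⟩ := hk
  set An : Finset (ℕ × ℕ) := ({0} ×ˢ Finset.range (3 * k)) ∪ ({1} ×ˢ Finset.range 2) with hAn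
  have hmem : ∀ p ∈ An, (p.1 = 0 ∧ p.2 < 3 * k) ∨ (p.1 = 1 ∧ p.2 < 2) := by
    intro p hp
    rw [hAn, Finset.mem_union, Finset.mem_product, Finset.mem_product, Finset.mem_singleton,
      Finset.mem_singleton, Finset.mem_range, Finset.mem_range] at hp
    exact hp
  have hlt : ∀ p ∈ An, p.1 < 3 ∧ p.2 < 3 * k := by
    intro p hp
    rcases hmem p hp with h | h <;> omega
  have hdisj : Disjoint (({0} : Finset ℕ) ×ˢ Finset.range (3 * k)) ({1} ×ˢ Finset.range 2) := by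
    rw [Finset.disjoint_left]
    intro p hp hp'
    rw [Finset.mem_product, Finset.mem_singleton] at hp hp'
    omega
  refine ⟨An.image (el k), ?_, ?_⟩
  · rw [Finset.card_image_of_injOn (el_injOn hlt), hAn, Finset.card_union_of_disjoint hdisj,
      Finset.card_product, Finset.card_product]
    simp
  · intro T hT hTc heq
    obtain ⟨x, y, hxy, rfl⟩ := Finset.card_eq_two.1 hTc
    obtain ⟨p, hp, rfl⟩ := Finset.mem_image.1 (hT (Finset.mem_insert_self _ _))
    obtain ⟨q, hq, rfl⟩ := Finset.mem_image.1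
      (hT (Finset.mem_insert_of_mem (Finset.mem_singleton_self _)))
    have hpq : p ≠ q := by rintro rfl; exact hxy rfl
    rw [Finset.sum_pair hxy, sum_el hlt] at heq
    have s1 : ∑ p ∈ An, p.1 = 2 := by
      rw [hAn, Finset.sum_union hdisj, Finset.sum_product, Finset.sum_product]
      simp
    have s2 : (∑ p ∈ An, p.2) * 2 = 3 * k * (3 * k - 1) + 2 := by
      rw [hAn, Finset.sum_union hdisj, Finset.sum_product, Finset.sum_product, add_mul]
      simp only [Finset.sum_singleton]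
      rw [Finset.sum_range_id_mul_two, Finset.sum_range_id_mul_two]
    rw [el_add] at heq
    have h1 : ((p.1 + q.1 : ℕ) : ZMod 3) = ((∑ p ∈ An, p.1 : ℕ) : ZMod 3) :=
      congrArg Prod.fst heq
    have h2 : ((p.2 + q.2 : ℕ) : ZMod (3 * k)) = ((∑ p ∈ An, p.2 : ℕ) : ZMod (3 * k)) :=
      congrArg Prod.snd heq
    rw [s1] at h1
    have h3 := (ZMod.natCast_eq_natCast_iff _ _ _).1 h1
    unfold Nat.ModEq at h3
    rcases hmem p hp with hp' | hp' <;> rcases hmem q hq with hq' | hq'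
    · omega
    · omega
    · omega
    · -- `(1,0) + (1,1)`
      have h4 : p.2 + q.2 = 1 := by
        have : p.2 ≠ q.2 := fun h => hpq (Prod.ext (by omega) h)
        omega
      rw [h4] at h2
      have h5 := (ZMod.natCast_eq_natCast_iff _ _ _).1 h2
      -- the sum is `3 k / 2 + 1`
      set S := ∑ p ∈ An, p.2 with hS
      have h6 : S = 3 * t * (3 * k - 1) + 1 := by
        have : 3 * k * (3 * k - 1) = 3 * t * (3 * k - 1) * 2 := by
          rw [ht]; ring
        omega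
      have h7 : 3 * k ∣ S - 1 := (Nat.modEq_iff_dvd' (by omega)).1 h5
      rw [h6, Nat.add_sub_cancel] at h7
      have h8 : Nat.Coprime (3 * k) (3 * k - 1) := by
        rw [Nat.coprime_self_sub_right (by omega)]
        exact Nat.coprime_one_right _
      have h9 := h8.dvd_of_dvd_mul_right h7
      have h10 := Nat.le_of_dvd (by omega) h9
      omega

/-- the construction of size `3 k + 2`, `k` odd -/
theorem lower_odd {k : ℕ} [NeZero k] (hk : Odd k) (hk3 : 3 ≤ k) :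
    ∃ A : Finset (GG k), A.card = 3 * k + 2 ∧
      ∀ T ⊆ A, T.card = 2 → ∑ x ∈ T, x ≠ ∑ x ∈ A, x := by
  classical
  obtain ⟨t, ht⟩ := hk
  have hsub : ({1, 2, 7} : Finset ℕ) ⊆ Finset.range (3 * k) := by
    intro x hx
    simp only [Finset.mem_insert, Finset.mem_singleton] at hx
    rw [Finset.mem_range]
    omega
  set An : Finset (ℕ × ℕ) := ({0} ×ˢ (Finset.range (3 * k) \ {1, 2, 7})) ∪
    ({1} ×ˢ Finset.range 5) with hAn
  have hmem : ∀ p ∈ An, (p.1 = 0 ∧ p.2 < 3 * k) ∨ (p.1 = 1 ∧ p.2 < 5) := by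
    intro p hp
    rw [hAn, Finset.mem_union, Finset.mem_product, Finset.mem_product, Finset.mem_singleton,
      Finset.mem_singleton, Finset.mem_sdiff, Finset.mem_range, Finset.mem_range] at hp
    rcases hp with hp | hp
    · exact Or.inl ⟨hp.1, hp.2.1⟩
    · exact Or.inr hp
  have hlt : ∀ p ∈ An, p.1 < 3 ∧ p.2 < 3 * k := by
    intro p hp
    rcases hmem p hp with h | h <;> omega
  have hdisj : Disjoint (({0} : Finset ℕ) ×ˢ (Finset.range (3 * k) \ {1, 2, 7}))
      ({1} ×ˢ Finset.range 5) := by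
    rw [Finset.disjoint_left]
    intro p hp hp'
    rw [Finset.mem_product, Finset.mem_singleton] at hp hp'
    omega
  refine ⟨An.image (el k), ?_, ?_⟩
  · rw [Finset.card_image_of_injOn (el_injOn hlt), hAn, Finset.card_union_of_disjoint hdisj,
      Finset.card_product, Finset.card_product, Finset.card_sdiff_of_subset hsub]
    simp
    omega
  · intro T hT hTc heq
    obtain ⟨x, y, hxy, rfl⟩ := Finset.card_eq_two.1 hTc
    obtain ⟨p, hp, rfl⟩ := Finset.mem_image.1 (hT (Finset.mem_insert_self _ _))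
    obtain ⟨q, hq, rfl⟩ := Finset.mem_image.1
      (hT (Finset.mem_insert_of_mem (Finset.mem_singleton_self _)))
    have hpq : p ≠ q := by rintro rfl; exact hxy rfl
    rw [Finset.sum_pair hxy, sum_el hlt] at heq
    have s1 : ∑ p ∈ An, p.1 = 5 := by
      rw [hAn, Finset.sum_union hdisj, Finset.sum_product, Finset.sum_product]
      simp
    have s2 : (∑ p ∈ An, p.2) * 2 = 3 * k * (3 * k - 1) := by
      rw [hAn, Finset.sum_union hdisj, Finset.sum_product, Finset.sum_product, add_mul]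
      simp only [Finset.sum_singleton]
      have e1 := Finset.sum_sdiff (f := fun x => x) hsub
      have e2 := Finset.sum_range_id_mul_two (3 * k)
      have e3 : ∑ x ∈ ({1, 2, 7} : Finset ℕ), x = 10 := by decide
      have e4 : ∑ x ∈ Finset.range 5, x = 10 := by decide
      rw [e3] at e1
      rw [e4]
      omega
    rw [el_add] at heq
    have h1 : ((p.1 + q.1 : ℕ) : ZMod 3) = ((∑ p ∈ An, p.1 : ℕ) : ZMod 3) :=
      congrArg Prod.fst heq
    have h2 : ((p.2 + q.2 : ℕ) : ZMod (3 * k)) = ((∑ p ∈ An, p.2 : ℕ) : ZMod (3 * k)) :=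
      congrArg Prod.snd heq
    rw [s1] at h1
    have h3 := (ZMod.natCast_eq_natCast_iff _ _ _).1 h1
    unfold Nat.ModEq at h3
    rcases hmem p hp with hp' | hp' <;> rcases hmem q hq with hq' | hq'
    · omega
    · omega
    · omega
    · have h4 : 0 < p.2 + q.2 ∧ p.2 + q.2 < 3 * k := by
        have : p.2 ≠ q.2 := fun h => hpq (Prod.ext (by omega) h)
        omega
      set S := ∑ p ∈ An, p.2 with hS
      have h6 : S = 3 * k * (3 * t + 1) := by
        have : 3 * k * (3 * k - 1) = 3 * k * (3 * t + 1) * 2 := by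
          have : 3 * k - 1 = (3 * t + 1) * 2 := by omega
          rw [this]; ring
        omega
      rw [h6] at h2
      have h7 : ((3 * k * (3 * t + 1) : ℕ) : ZMod (3 * k)) = 0 :=
        (ZMod.natCast_eq_zero_iff _ _).2 (dvd_mul_right _ _)
      rw [h7, ZMod.natCast_eq_zero_iff] at h2
      have := Nat.le_of_dvd h4.1 h2
      omega

/-- the construction of size `3 k + 3`, `k` odd and divisible by `3` -/
theorem lower_odd3 {k : ℕ} [NeZero k] (hk : Odd k) (hk3 : 3 ∣ k) :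
    ∃ A : Finset (GG k), A.card = 3 * k + 3 ∧
      ∀ T ⊆ A, T.card = 3 → ∑ x ∈ T, x ≠ ∑ x ∈ A, x := by
  classical
  obtain ⟨u, hu⟩ := hk3
  have hk0 := NeZero.ne k
  obtain ⟨v, hv⟩ : ∃ v, u = 2 * v + 1 := by
    obtain ⟨t, ht⟩ := hk
    exact ⟨(u - 1) / 2, by omega⟩
  set g : ℕ × ℕ → ℕ := fun p => p.1 + p.2 * k with hg
  set J1 : Finset ℕ := Finset.Ico 1 u with hJ1
  set J2 : Finset ℕ := {0, u} with hJ2
  have hginj : ∀ p q : ℕ × ℕ, p.1 < k → q.1 < k → g p = g q → p = q := by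
    intro p q hp hq h
    have h1 : (p.1 + p.2 * k) / k = (q.1 + q.2 * k) / k := by rw [show p.1 + p.2 * k = q.1 + q.2 * k from h]
    rw [Nat.add_mul_div_right _ _ (by omega), Nat.add_mul_div_right _ _ (by omega),
      Nat.div_eq_of_lt hp, Nat.div_eq_of_lt hq, zero_add, zero_add] at h1
    have h2 : p.1 + p.2 * k = q.1 + q.2 * k := h
    rw [h1] at h2
    exact Prod.ext (by omega) h1
  set Y1 : Finset ℕ := (J1 ×ˢ Finset.range 3).image g with hY1
  set Y2 : Finset ℕ := (J2 ×ˢ Finset.range 3).image g with hY2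
  have injOn : ∀ J : Finset ℕ, (∀ j ∈ J, j < k) →
      Set.InjOn g ((J ×ˢ Finset.range 3 : Finset (ℕ × ℕ)) : Set (ℕ × ℕ)) := by
    intro J hJ p hp q hq h
    rw [Finset.mem_coe, Finset.mem_product] at hp hq
    exact hginj p q (hJ _ hp.1) (hJ _ hq.1) h
  have hJ1k : ∀ j ∈ J1, j < k := by
    intro j hj
    rw [hJ1, Finset.mem_Ico] at hj
    omega
  have hJ2k : ∀ j ∈ J2, j < k := by
    intro j hj
    rw [hJ2, Finset.mem_insert, Finset.mem_singleton] at hj
    omega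
  have hu0 : (0 : ℕ) ≠ u := by omega
  have cY1 : Y1.card = (u - 1) * 3 := by
    rw [hY1, Finset.card_image_of_injOn (injOn J1 hJ1k), Finset.card_product, hJ1,
      Nat.card_Ico, Finset.card_range]
  have cY2 : Y2.card = 6 := by
    rw [hY2, Finset.card_image_of_injOn (injOn J2 hJ2k), Finset.card_product, hJ2,
      Finset.card_pair hu0, Finset.card_range]
  have sY : ∀ J : Finset ℕ, (∀ j ∈ J, j < k) → ∑ y ∈ (J ×ˢ Finset.range 3).image g, y =
      3 * ∑ j ∈ J, j + J.card * (3 * k) := by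
    intro J hJ
    rw [Finset.sum_image (injOn J hJ), Finset.sum_product, Finset.mul_sum]
    have : ∀ j ∈ J, ∑ b ∈ Finset.range 3, g (j, b) = 3 * j + 3 * k := by
      intro j _
      rw [Finset.sum_range_succ, Finset.sum_range_succ, Finset.sum_range_succ,
        Finset.sum_range_zero]
      simp only [hg]
      ring
    rw [Finset.sum_congr rfl this, Finset.sum_add_distrib, Finset.sum_const, smul_eq_mul]
  set An : Finset (ℕ × ℕ) := (Finset.range 3 ×ˢ Y1) ∪ (Finset.range 2 ×ˢ Y2) with hAn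
  have hmem : ∀ p ∈ An, ∃ j b : ℕ, p.2 = j + b * k ∧ b < 3 ∧ j ≤ u ∧ p.1 < 3 ∧
      ((j = 0 ∨ j = u) → p.1 < 2) := by
    intro p hp
    rw [hAn, Finset.mem_union, Finset.mem_product, Finset.mem_product, Finset.mem_range,
      Finset.mem_range] at hp
    rcases hp with ⟨h1, h2⟩ | ⟨h1, h2⟩
    · obtain ⟨⟨j, b⟩, hjb, h3⟩ := Finset.mem_image.1 h2
      rw [Finset.mem_product, Finset.mem_range] at hjb
      simp only at hjb h3
      rw [hJ1, Finset.mem_Ico] at hjb
      exact ⟨j, b, h3.symm, hjb.2, by omega, h1, fun h => by omega⟩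
    · obtain ⟨⟨j, b⟩, hjb, h3⟩ := Finset.mem_image.1 h2
      rw [Finset.mem_product, Finset.mem_range] at hjb
      simp only at hjb h3
      rw [hJ2, Finset.mem_insert, Finset.mem_singleton] at hjb
      exact ⟨j, b, h3.symm, hjb.2, by omega, by omega, fun _ => h1⟩
  have hlt : ∀ p ∈ An, p.1 < 3 ∧ p.2 < 3 * k := by
    intro p hp
    obtain ⟨j, b, h1, h2, h3, h4, -⟩ := hmem p hp
    refine ⟨h4, ?_⟩
    have : b * k ≤ 2 * k := Nat.mul_le_mul_right _ (by omega)
    omega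
  have hdisj : Disjoint (Finset.range 3 ×ˢ Y1) (Finset.range 2 ×ˢ Y2) := by
    rw [Finset.disjoint_left]
    intro p hp hp'
    rw [Finset.mem_product] at hp hp'
    obtain ⟨⟨j, b⟩, hjb, h3⟩ := Finset.mem_image.1 hp.2
    obtain ⟨⟨j', b'⟩, hjb', h3'⟩ := Finset.mem_image.1 hp'.2
    rw [Finset.mem_product] at hjb hjb'
    have := hginj _ _ (hJ1k _ hjb.1) (hJ2k _ hjb'.1) (h3.trans h3'.symm)
    simp only [Prod.mk.injEq] at this hjb hjb'
    rw [hJ1, Finset.mem_Ico] at hjb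
    rw [hJ2, Finset.mem_insert, Finset.mem_singleton] at hjb'
    omega
  have s1 : ((∑ p ∈ An, p.1 : ℕ) : ZMod 3) = 0 := by
    rw [hAn, Finset.sum_union hdisj, Finset.sum_product, Finset.sum_product]
    simp only [Finset.sum_const, smul_eq_mul]
    rw [← Finset.mul_sum, ← Finset.mul_sum, cY1, cY2, ZMod.natCast_eq_zero_iff]
    have e1 : ∑ i ∈ Finset.range 3, i = 3 := by decide
    have e2 : ∑ i ∈ Finset.range 2, i = 1 := by decide
    rw [e1, e2]
    omega
  have s2 : ∑ p ∈ An, p.2 = 2 * k + 3 * k * (v + 3 * (u - 1) + 4) := by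
    rw [hAn, Finset.sum_union hdisj, Finset.sum_product, Finset.sum_product]
    simp only [Finset.sum_const, smul_eq_mul, Finset.card_range]
    rw [hY1, hY2, sY J1 hJ1k, sY J2 hJ2k, hJ1, Nat.card_Ico, hJ2, Finset.card_pair hu0,
      Finset.sum_pair hu0]
    have e1 : ∑ i ∈ Finset.Ico 1 u, i = ∑ i ∈ Finset.range u, i := by
      rw [Finset.range_eq_Ico, Finset.sum_eq_sum_Ico_succ_bot (by omega : 0 < u)]
      simp
    have e2 := Finset.sum_range_id_mul_two u
    have e3 : ∑ i ∈ Finset.range u, i = u * v := by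
      rw [hv, Nat.add_sub_cancel] at e2
      rw [hv]
      apply Nat.eq_of_mul_eq_mul_right (show 0 < 2 by norm_num)
      rw [e2]
      ring
    rw [e1, e3, hu]
    obtain ⟨w, hw⟩ : ∃ w, u = w + 1 := ⟨u - 1, by omega⟩
    rw [hw, Nat.add_sub_cancel]
    ring
  refine ⟨An.image (el k), ?_, ?_⟩
  · rw [Finset.card_image_of_injOn (el_injOn hlt), hAn, Finset.card_union_of_disjoint hdisj,
      Finset.card_product, Finset.card_product, cY1, cY2, Finset.card_range, Finset.card_range]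
    omega
  · intro T hT hTc heq
    obtain ⟨x, y, z, hxy, hxz, hyz, rfl⟩ := Finset.card_eq_three.1 hTc
    obtain ⟨p, hp, rfl⟩ := Finset.mem_image.1 (hT (by simp : x ∈ _))
    obtain ⟨q, hq, rfl⟩ := Finset.mem_image.1 (hT (by simp : y ∈ _))
    obtain ⟨r, hr, rfl⟩ := Finset.mem_image.1 (hT (by simp : z ∈ _))
    rw [Finset.sum_insert (by simp [hxy, hxz]), Finset.sum_insert (by simp [hyz]),
      Finset.sum_singleton, sum_el hlt] at heq
    rw [← add_assoc, el_add, el_add] at heq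
    have h1 : ((p.1 + q.1 + r.1 : ℕ) : ZMod 3) = ((∑ p ∈ An, p.1 : ℕ) : ZMod 3) :=
      congrArg Prod.fst heq
    have h2 : ((p.2 + q.2 + r.2 : ℕ) : ZMod (3 * k)) = ((∑ p ∈ An, p.2 : ℕ) : ZMod (3 * k)) :=
      congrArg Prod.snd heq
    rw [s1, ZMod.natCast_eq_zero_iff] at h1
    rw [s2, ZMod.natCast_eq_natCast_iff] at h2
    obtain ⟨j₁, b₁, e₁, hb₁, hj₁, ha₁, hc₁⟩ := hmem p hp
    obtain ⟨j₂, b₂, e₂, hb₂, hj₂, ha₂, hc₂⟩ := hmem q hq
    obtain ⟨j₃, b₃, e₃, hb₃, hj₃, ha₃, hc₃⟩ := hmem r hr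
    have h3 : p.2 + q.2 + r.2 ≡ 2 * k [MOD 3 * k] := by
      refine h2.trans ?_
      unfold Nat.ModEq
      exact Nat.add_mul_mod_self_left _ _ _
    obtain ⟨c, hc⟩ := Nat.modEq_iff_dvd.1 h3
    have h4 : ((j₁ + j₂ + j₃ : ℕ) : ℤ) = k * (2 - (b₁ + b₂ + b₃) - 3 * c) := by
      rw [e₁, e₂, e₃] at hc
      push_cast at hc ⊢
      linear_combination -hc
    -- the multiple is `0` or `1`
    have hkpos : (0 : ℤ) < k := by exact_mod_cast Nat.pos_of_ne_zero hk0
    set d : ℤ := 2 - (b₁ + b₂ + b₃) - 3 * c with hd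
    have h5 : 0 ≤ d := by
      by_contra hcon
      push Not at hcon
      have : (k : ℤ) * d < 0 := mul_neg_of_pos_of_neg hkpos hcon
      omega
    have h6 : d ≤ 1 := by
      by_contra hcon
      push Not at hcon
      have h7 : (k : ℤ) * 2 ≤ k * d := mul_le_mul_of_nonneg_left (by omega) hkpos.le
      omega
    have hne12 : ¬ (p.1 = q.1 ∧ p.2 = q.2) := by
      rintro ⟨ha, hb⟩
      exact hxy (congrArg (el k) (Prod.ext ha hb))
    have hne13 : ¬ (p.1 = r.1 ∧ p.2 = r.2) := by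
      rintro ⟨ha, hb⟩
      exact hxz (congrArg (el k) (Prod.ext ha hb))
    have hne23 : ¬ (q.1 = r.1 ∧ q.2 = r.2) := by
      rintro ⟨ha, hb⟩
      exact hyz (congrArg (el k) (Prod.ext ha hb))
    have h01 : d = 0 ∨ d = 1 := by omega
    have hj : j₁ = j₂ ∧ j₂ = j₃ ∧ (j₁ = 0 ∨ j₁ = u) := by
      rcases h01 with h | h
      · rw [h, mul_zero] at h4
        omega
      · rw [h, mul_one] at h4
        omega
    obtain ⟨hj12, hj23, hju⟩ := hj
    have ha : p.1 = q.1 ∧ q.1 = r.1 := by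
      have := hc₁ hju
      have := hc₂ (by omega)
      have := hc₃ (by omega)
      omega
    have hb12 : b₁ ≠ b₂ := by
      intro h
      exact hne12 ⟨ha.1, by rw [e₁, e₂, hj12, h]⟩
    have hb13 : b₁ ≠ b₃ := by
      intro h
      exact hne13 ⟨ha.1.trans ha.2, by rw [e₁, e₃, hj12, hj23, h]⟩
    have hb23 : b₂ ≠ b₃ := by
      intro h
      exact hne23 ⟨ha.2, by rw [e₂, e₃, hj23, h]⟩
    have hb : b₁ + b₂ + b₃ = 3 := by omega
    have hb' : (b₁ : ℤ) + b₂ + b₃ = 3 := by exact_mod_cast hb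
    omega

end Pool.Agent.MP_e67b39_co
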