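import Pool.Agent.MP_e67b39_co.Upper4
import Pool.Agent.MP_e67b39_co.Lower2

namespace Pool.Agent.MP_e67b39_co

open Finset

/-- the remaining integers -/
lemma not_exceptional {k : ℕ} (hk : 2 ≤ k) (hE : ¬ Exceptional k) :
    (Odd k ∧ 3 ∣ k) ∨ PP k := by
  have h1 : ¬ (Odd k ∧ ∀ p : ℕ, p.Prime → p ∣ k → p % 3 = 1) := fun h => hE (Or.inl h)
  have h2 : k ≠ 8 := fun h => hE (Or.inr (Or.inl h))
  have h3 : ¬ ∃ j : ℕ, k = 2 * 3 ^ j ∨ k = 4 * 3 ^ j :=
    fun h => hE (Or.inr (Or.inr (Or.inl h)))
  have h4 : ¬ ∃ p : ℕ, p.Prime ∧ k = 2 * p := fun h => hE (Or.inr (Or.inr (Or.inr h)))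
  -- a prime `p ≡ 2 mod 3`, `p ≥ 5`
  by_cases hp : ∃ p : ℕ, p.Prime ∧ p ∣ k ∧ p % 3 = 2 ∧ p ≠ 2
  · obtain ⟨p, hp, ⟨l, hl⟩, hp3, hp2⟩ := hp
    right
    have hp5 : 5 ≤ p := by
      have := hp.two_le
      by_contra hcon
      push Not at hcon
      interval_cases p <;> omega
    refine ⟨p, l, hl, hp5, hp3, ?_⟩
    have hl0 : l ≠ 0 := by
      rintro rfl
      omega
    rcases Nat.lt_or_ge l 3 with h | h
    · have : l = 1 ∨ l = 2 := by omega
      rcases this with rfl | rfl
      · right; left
        refine ⟨rfl, ?_⟩
        rcases hp.eq_two_or_odd with h | h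
        · exact absurd h hp2
        · exact h
      · exfalso
        exact h4 ⟨p, hp, by rw [hl, mul_comm]⟩
    · left; exact h
  · push Not at hp
    rcases Nat.even_or_odd k with hev | hodd
    · by_cases h8 : 8 ∣ k
      · obtain ⟨l, hl⟩ := h8
        right
        refine ⟨8, l, hl, by norm_num, by norm_num, ?_⟩
        omega
      · by_cases hp1 : ∃ p : ℕ, p.Prime ∧ p ∣ k ∧ p % 3 = 1
        · obtain ⟨p, hp', hpk, hp3⟩ := hp1
          have hpo : p % 2 = 1 := by
            rcases hp'.eq_two_or_odd with h | h
            · omega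
            · exact h
          have h2p : 2 * p ∣ k := by
            apply Nat.Coprime.mul_dvd_of_dvd_of_dvd _ hev.two_dvd hpk
            exact (Nat.coprime_primes Nat.prime_two hp').2 (by omega)
          obtain ⟨l, hl⟩ := h2p
          right
          have hp7 : 5 ≤ p := by
            have := hp'.two_le
            by_contra hcon
            push Not at hcon
            interval_cases p <;> first | omega | (norm_num at hp')
          refine ⟨2 * p, l, hl, by omega, by omega, ?_⟩
          have hl0 : l ≠ 0 := by
            rintro rfl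
            omega
          have hl1 : l ≠ 1 := by
            rintro rfl
            exact h4 ⟨p, hp', by rw [hl, mul_one]⟩
          omega
        · push Not at hp1
          exfalso
          -- all prime factors are `2` or `3`
          have hprime : ∀ p : ℕ, p.Prime → p ∣ k → p = 2 ∨ p = 3 := by
            intro p hp' hpk
            have a1 := hp1 p hp' hpk
            have a2 := hp p hp' hpk
            by_cases hp3 : p = 3
            · right; exact hp3
            · left
              by_contra hcon
              have a3 : p % 3 ≠ 0 := by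
                intro h
                exact hp3 ((Nat.prime_dvd_prime_iff_eq Nat.prime_three hp').1
                  (Nat.dvd_of_mod_eq_zero h)).symm
              exact hcon (a2 (by omega))
          have odd_pow : ∀ m : ℕ, m ∣ k → m % 2 = 1 → ∃ j, m = 3 ^ j := by
            intro m hm hmo
            refine ⟨_, Nat.eq_prime_pow_of_unique_prime_dvd (p := 3) (by omega) ?_⟩
            intro d hd hdm
            rcases hprime d hd (hdm.trans hm) with h | h
            · exfalso
              rw [h] at hdm
              omega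
            · exact h
          obtain ⟨t, ht⟩ := hev
          rcases Nat.even_or_odd t with ⟨u, hu⟩ | hto
          · -- `k = 4 u`, `u` odd
            have huo : u % 2 = 1 := by omega
            obtain ⟨j, hj⟩ := odd_pow u ⟨4, by omega⟩ huo
            exact h3 ⟨j, Or.inr (by omega)⟩
          · obtain ⟨j, hj⟩ := odd_pow t ⟨2, by omega⟩ (Nat.odd_iff.1 hto)
            exact h3 ⟨j, Or.inl (by omega)⟩
    · left
      refine ⟨hodd, ?_⟩
      by_contra h3k
      apply h1
      refine ⟨hodd, ?_⟩
      intro p hp' hpk
      have a2 := hp p hp' hpk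
      have a3 : p % 3 ≠ 0 := by
        intro h
        have := ((Nat.prime_dvd_prime_iff_eq Nat.prime_three hp').1
          (Nat.dvd_of_mod_eq_zero h)).symm
        rw [this] at hpk
        exact h3k hpk
      have a4 : p ≠ 2 := by
        rintro rfl
        have := Nat.odd_iff.1 hodd
        omega
      by_contra hcon
      exact a4 (a2 (by omega))

/-- the value is the largest size -/
lemma tauHat_eq {G : Type*} [AddCommGroup G] {h v : ℕ}
    (h1 : ∃ A : Finset G, A.card = v ∧ WeaklyZeroSumFree h A)
    (h2 : ∀ A : Finset G, A.card = v + 1 → ¬ WeaklyZeroSumFree h A) : tauHat G h = v := by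
  classical
  apply IsGreatest.csSup_eq
  refine ⟨h1, ?_⟩
  rintro n ⟨A, hA, hw⟩
  by_contra hcon
  push Not at hcon
  obtain ⟨B, hB, hBc⟩ := Finset.exists_subset_card_eq (show v + 1 ≤ A.card by omega)
  exact h2 B hBc (wzsf_subset hw hB)

theorem tau_one : tauHat (GG 1) 3 = 4 := by
  classical
  apply tauHat_eq
  · refine ⟨{(0, 0), (0, 1), (1, 0), (1, 1)}, by decide, ?_⟩
    rw [wzsf_iff (h := 3) (c := 1) (by decide)]
    intro T hT hTc heq
    obtain ⟨x, rfl⟩ := Finset.card_eq_one.1 hTc
    rw [Finset.sum_singleton, show ∑ x ∈ ({(0, 0), (0, 1), (1, 0), (1, 1)} : Finset (GG 1)), x =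
      (2, 2) from by decide] at heq
    have := hT (Finset.mem_singleton_self x)
    rw [heq] at this
    revert this
    decide
  · intro A hA hw
    have h3 : ∀ x : GG 1, 3 • x = 0 := by decide
    have : A.card ≤ 4 := by
      apply cap_le (σ := 0) (fun x _ => h3 x)
      · intro x hx y hy z hz hxy hxz hyz
        intro h
        apply hw {x, y, z}
        · intro w hw
          simp only [Finset.mem_insert, Finset.mem_singleton] at hw
          rcases hw with rfl | rfl | rfl
          · exact hx
          · exact hy
          · exact hz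
        · exact Finset.card_eq_three.2 ⟨x, y, z, hxy, hxz, hyz, rfl⟩
        · rw [Finset.sum_insert (by simp [hxy, hxz]), Finset.sum_pair hyz, ← h]
          abel
      · refine (Finset.card_filter_le _ _).trans ?_
        rw [Finset.card_univ]
        decide
    omega

open Classical in
/-- **Determination of `τ^(ℤ₃ × ℤ₃ₖ, 3k)`.** -/
theorem main (k : ℕ) (hk : 0 < k) : tauHat (ZMod 3 × ZMod (3 * k)) (3 * k) =
    if k = 1 then 4 else if Exceptional k then 3 * k + 2 else 3 * k + 3 := by
  split_ifs with h1 h2
  · subst h1
    exact tau_one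
  · haveI : NeZero k := ⟨by omega⟩
    apply tauHat_eq
    · have : ∃ A : Finset (GG k), A.card = 3 * k + 2 ∧
          ∀ T ⊆ A, T.card = 2 → ∑ x ∈ T, x ≠ ∑ x ∈ A, x := by
        rcases Nat.even_or_odd k with h | h
        · exact lower_even h
        · apply lower_odd h
          obtain ⟨t, ht⟩ := h
          omega
      obtain ⟨A, hA, hT⟩ := this
      exact ⟨A, hA, (wzsf_iff hA).2 hT⟩
    · intro A hA hw
      have hw' := (wzsf_iff (c := 3) hA).1 hw
      refine bad_false hk h2 hA rfl ?_
      intro x hx y hy z hz hxy hxz hyz h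
      apply hw' {x, y, z}
      · intro w hw
        simp only [Finset.mem_insert, Finset.mem_singleton] at hw
        rcases hw with rfl | rfl | rfl
        · exact hx
        · exact hy
        · exact hz
      · exact Finset.card_eq_three.2 ⟨x, y, z, hxy, hxz, hyz, rfl⟩
      · rw [Finset.sum_insert (by simp [hxy, hxz]), Finset.sum_pair hyz, ← h]
        abel
  · haveI : NeZero k := ⟨by omega⟩
    apply tauHat_eq
    · have : ∃ A : Finset (GG k), A.card = 3 * k + 3 ∧
          ∀ T ⊆ A, T.card = 3 → ∑ x ∈ T, x ≠ ∑ x ∈ A, x := by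
        rcases not_exceptional (by omega) h2 with ⟨ho, h3⟩ | hP
        · exact lower_odd3 ho h3
        · exact lower_PP hP
      obtain ⟨A, hA, hT⟩ := this
      exact ⟨A, hA, (wzsf_iff hA).2 hT⟩
    · intro A hA hw
      exact four_false hk hA ((wzsf_iff (c := 4) hA).1 hw)

end Pool.Agent.MP_e67b39_co
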