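import Pool.Agent.Lib.helper11.Kneser

namespace Pool.Agent.MP_e67b39_co

open Finset Pointwise Pool.Agent.Lib.helper11

variable {G : Type*} [AddCommGroup G] [Fintype G] [DecidableEq G]

/-- no three distinct elements of `A` sum to `s` -/
def NoTriple (A : Finset G) (s : G) : Prop :=
  ∀ x ∈ A, ∀ y ∈ A, ∀ z ∈ A, x ≠ y → x ≠ z → y ≠ z → x + y + z ≠ s

/-- the class of an element -/
abbrev cl (H : AddSubgroup G) (x : G) : G ⧸ H := QuotientAddGroup.mk x

/-- the number of elements of `A` in a class -/
noncomputable def fc (H : AddSubgroup G) (A : Finset G) (Q : G ⧸ H) : ℕ := by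
  classical exact (A.filter fun x => cl H x = Q).card

lemma fc_le (H : AddSubgroup G) (A : Finset G) (Q : G ⧸ H) : fc H A Q ≤ Nat.card H := by
  classical
  rw [← card_fib H Q]
  unfold fc
  apply Finset.card_le_card
  intro x hx
  rw [mem_fib]
  exact (Finset.mem_filter.1 hx).2

omit [Fintype G] in
lemma sum_fc (H : AddSubgroup G) (A : Finset G) : ∑ Q ∈ img H A, fc H A Q = A.card := by
  classical
  symm
  unfold fc
  apply Finset.card_eq_sum_card_fiberwise
  intro x hx
  exact mem_img.2 ⟨x, hx, rfl⟩

/-- structure of a set without a triple -/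
structure Struct (A : Finset G) (s : G) (n : ℕ) (H : AddSubgroup G) (N : ℕ) : Prop where
  hN : Nat.card H * N = n
  hA : A.card = n + 3
  hB : (img H A).card = N + 1
  nae : ∀ x ∈ A, ∀ y ∈ A, ∀ z ∈ A, cl H x + cl H y + cl H z = cl H s →
    cl H x = cl H y ∧ cl H y = cl H z

/-- fibre sizes -/
lemma fc_single {A : Finset G} {n : ℕ} {H : AddSubgroup G} {N : ℕ} (hN : Nat.card H * N = n)
    (hA : A.card = n + 3) (hB : (img H A).card = N + 1) {Q : G ⧸ H} (hQ : Q ∈ img H A) :
    3 ≤ fc H A Q := by
  classical
  have h1 := sum_fc H A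
  rw [← Finset.add_sum_erase _ _ hQ] at h1
  have h2 : ∑ Q' ∈ (img H A).erase Q, fc H A Q' ≤ ((img H A).erase Q).card * Nat.card H := by
    rw [← smul_eq_mul]
    exact Finset.sum_le_card_nsmul _ _ _ (fun Q' _ => fc_le H A Q')
  rw [Finset.card_erase_of_mem hQ, hB, Nat.add_sub_cancel, mul_comm, hN] at h2
  omega

lemma fc_pair {A : Finset G} {n : ℕ} {H : AddSubgroup G} {N : ℕ} (hN : Nat.card H * N = n)
    (hA : A.card = n + 3) (hB : (img H A).card = N + 1) {Q Q' : G ⧸ H} (hQ : Q ∈ img H A)
    (hQ' : Q' ∈ img H A) (hne : Q ≠ Q') : Nat.card H + 3 ≤ fc H A Q + fc H A Q' := by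
  classical
  have h1 := sum_fc H A
  have hQ'' : Q' ∈ (img H A).erase Q := Finset.mem_erase.2 ⟨hne.symm, hQ'⟩
  rw [← Finset.add_sum_erase _ _ hQ, ← Finset.add_sum_erase _ _ hQ''] at h1
  have h2 : ∑ Q₁ ∈ ((img H A).erase Q).erase Q', fc H A Q₁ ≤
      (((img H A).erase Q).erase Q').card * Nat.card H := by
    rw [← smul_eq_mul]
    exact Finset.sum_le_card_nsmul _ _ _ (fun Q₁ _ => fc_le H A Q₁)
  rw [Finset.card_erase_of_mem hQ'', Finset.card_erase_of_mem hQ, hB, Nat.add_sub_cancel] at h2
  have hN1 : 1 ≤ N := by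
    have : 1 < (img H A).card := Finset.one_lt_card.2 ⟨Q, hQ, Q', hQ', hne⟩
    omega
  obtain ⟨M, rfl⟩ : ∃ M, N = M + 1 := ⟨N - 1, by omega⟩
  rw [Nat.add_sub_cancel, mul_comm] at h2
  rw [mul_add, mul_one] at hN
  omega

/-- pigeonhole: two different classes cover their sum at least three times -/
lemma pigeon {A : Finset G} {n : ℕ} {H : AddSubgroup G} {N : ℕ} (hN : Nat.card H * N = n)
    (hA : A.card = n + 3) (hB : (img H A).card = N + 1) {Q Q' : G ⧸ H} (hQ : Q ∈ img H A)
    (hQ' : Q' ∈ img H A) (hne : Q ≠ Q') {t : G} (ht : cl H t = Q + Q') :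
    ∃ S : Finset G, 3 ≤ S.card ∧ ∀ y ∈ S, y ∈ A ∧ t - y ∈ A ∧ cl H y = Q ∧ cl H (t - y) = Q' := by
  classical
  set X := A.filter fun x => cl H x = Q with hX
  set Y := (A.filter fun x => cl H x = Q').image (fun x => t - x) with hY
  have hXsub : X ⊆ fib H Q := by
    intro x hx
    rw [mem_fib]
    exact (Finset.mem_filter.1 hx).2
  have hYsub : Y ⊆ fib H Q := by
    intro x hx
    obtain ⟨y, hy, rfl⟩ := Finset.mem_image.1 hx
    rw [mem_fib]
    have := (Finset.mem_filter.1 hy).2
    have h1 : cl H (t - y) = cl H t - cl H y := QuotientAddGroup.mk_sub _ _ _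
    have h2 : cl H t = Q + Q' := ht
    have h3 : cl H y = Q' := this
    show cl H (t - y) = Q
    rw [h1, h2, h3]
    abel
  have hcX : X.card = fc H A Q := rfl
  have hcY : Y.card = fc H A Q' := by
    rw [hY, Finset.card_image_of_injective _ (sub_right_injective (b := t))]
    rfl
  have hp := fc_pair hN hA hB hQ hQ' hne
  have hu : (X ∪ Y).card ≤ Nat.card H := by
    rw [← card_fib H Q]
    exact Finset.card_le_card (Finset.union_subset hXsub hYsub)
  have hi := Finset.card_union_add_card_inter X Y
  refine ⟨X ∩ Y, by omega, ?_⟩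
  intro y hy
  obtain ⟨hy1, hy2⟩ := Finset.mem_inter.1 hy
  obtain ⟨z, hz, hzy⟩ := Finset.mem_image.1 hy2
  have hz' := Finset.mem_filter.1 hz
  have e : t - y = z := by rw [← hzy]; abel
  rw [e]
  exact ⟨(Finset.mem_filter.1 hy1).1, hz'.1, (Finset.mem_filter.1 hy1).2, hz'.2⟩

/-- pick an element of a set with at least three elements avoiding two values -/
lemma exists_avoid {S : Finset G} (hS : 3 ≤ S.card) (a b : G) : ∃ y ∈ S, y ≠ a ∧ y ≠ b := by
  classical
  by_contra hcon
  push Not at hcon
  have : S ⊆ {a, b} := by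
    intro y hy
    by_cases h : y = a
    · simp [h]
    · simp [hcon y hy h]
  have h1 := Finset.card_le_card this
  have h2 : ({a, b} : Finset G).card ≤ 2 := Finset.card_le_two
  omega

/-- a triple of classes, the last two different, gives a triple of distinct elements -/
lemma triple_of_classes {A : Finset G} {n : ℕ} {H : AddSubgroup G} {N : ℕ}
    (hN : Nat.card H * N = n) (hA : A.card = n + 3) (hB : (img H A).card = N + 1)
    {s p q r : G} (hp : p ∈ A) (hq : q ∈ A) (hr : r ∈ A) (hne : cl H q ≠ cl H r)
    (hs : cl H p + cl H q + cl H r = cl H s) : ¬ NoTriple A s := by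
  intro hno
  have ht : cl H (s - p) = cl H q + cl H r := by
    have h1 : cl H (s - p) = cl H s - cl H p := QuotientAddGroup.mk_sub _ _ _
    rw [h1, ← hs]
    abel
  obtain ⟨S, hS, hS'⟩ := pigeon hN hA hB (mem_img.2 ⟨q, hq, rfl⟩) (mem_img.2 ⟨r, hr, rfl⟩) hne ht
  obtain ⟨y, hy, hy1, hy2⟩ := exists_avoid hS p (s - p - p)
  obtain ⟨h1, h2, h3, h4⟩ := hS' y hy
  apply hno p hp y h1 (s - p - y) h2 hy1.symm
  · intro h
    apply hy2
    have : s - p - p = y := by
      have h5 : s - p - p = s - p - (s - p - y) := by rw [← h]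
      rw [h5]; abel
    exact this.symm
  · intro h
    apply hne
    have h5 : cl H y = cl H (s - p - y) := congrArg _ h
    exact h3.symm.trans (h5.trans h4)
  · abel

lemma nae_of_noTriple {A : Finset G} {n : ℕ} {H : AddSubgroup G} {N : ℕ}
    (hN : Nat.card H * N = n) (hA : A.card = n + 3) (hB : (img H A).card = N + 1)
    {s : G} (hno : NoTriple A s) : ∀ x ∈ A, ∀ y ∈ A, ∀ z ∈ A,
    cl H x + cl H y + cl H z = cl H s → cl H x = cl H y ∧ cl H y = cl H z := by
  intro x hx y hy z hz hs
  have h1 : cl H y = cl H z := by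
    by_contra hne
    exact triple_of_classes hN hA hB hx hy hz hne hs hno
  have h2 : cl H x = cl H y := by
    by_contra hne
    exact triple_of_classes hN hA hB hz hx hy hne (by rw [← hs]; abel) hno
  exact ⟨h2, h1⟩

/-- **Structure theorem.** -/
theorem exists_struct {n : ℕ} (hn : 0 < n) (hG : Nat.card G = 3 * n) (χ : G →+ ZMod 3)
    (hχ : Function.Surjective χ) {A : Finset G} (hA : A.card = n + 3) {s : G} (hs : χ s = 0)
    (hno : NoTriple A s) : ∃ (H : AddSubgroup G) (N : ℕ), 0 < N ∧ Struct A s n H N := by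
  classical
  -- the kernel has order `n`
  have hker : Nat.card χ.ker = n := by
    have h1 : Nat.card (G ⧸ χ.ker) = 3 := by
      rw [Nat.card_congr (QuotientAddGroup.quotientKerEquivOfSurjective χ hχ).toEquiv]
      simp
    have h2 := AddSubgroup.card_eq_card_quotient_mul_card_addSubgroup χ.ker
    rw [hG, h1] at h2
    omega
  have hfib : ∀ i : ZMod 3, ((Finset.univ : Finset G).filter fun x => χ x = i).card = n := by
    intro i
    obtain ⟨g, hg⟩ := hχ i
    rw [← hker, ← card_fib χ.ker (QuotientAddGroup.mk g)]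
    congr 1
    ext x
    rw [mem_fib, Finset.mem_filter]
    simp only [Finset.mem_univ, true_and]
    rw [QuotientAddGroup.eq, AddMonoidHom.mem_ker, map_add, map_neg, ← hg]
    constructor
    · intro h; rw [h]; ring
    · intro h
      have := congrArg (fun z => χ x + z) h
      simp only [add_zero] at this
      rw [← this]; ring
  set Ai : ZMod 3 → Finset G := fun i => A.filter fun x => χ x = i with hAi
  have hAile : ∀ i, (Ai i).card ≤ n := by
    intro i
    rw [← hfib i]
    apply Finset.card_le_card
    intro x hx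
    rw [hAi] at hx
    rw [Finset.mem_filter] at hx ⊢
    exact ⟨Finset.mem_univ _, hx.2⟩
  have hAsum : (Ai 0).card + (Ai 1).card + (Ai 2).card = n + 3 := by
    have h1 : A.card = ∑ i ∈ (Finset.univ : Finset (ZMod 3)), (Ai i).card :=
      Finset.card_eq_sum_card_fiberwise (fun x _ => Finset.mem_coe.2 (Finset.mem_univ _))
    rw [← hA, h1, show (Finset.univ : Finset (ZMod 3)) = {0, 1, 2} from by decide,
      Finset.sum_insert (by decide), Finset.sum_insert (by decide), Finset.sum_singleton]
    ring
  by_cases hemp : ∃ i, Ai i = ∅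
  · -- a fibre is empty: take the kernel
    obtain ⟨i, hi⟩ := hemp
    have hAsum' : (Ai (i + 1)).card + (Ai (i + 2)).card = n + 3 := by
      have h3 : (Ai i).card = 0 := by rw [hi]; rfl
      have key : ∀ j : ZMod 3, (Ai j).card = 0 →
          (Ai (j + 1)).card + (Ai (j + 2)).card = n + 3 := by
        intro j hj
        fin_cases j
        · change (Ai 0).card = 0 at hj
          change (Ai (0 + 1)).card + (Ai (0 + 2)).card = n + 3
          rw [show (0 + 1 : ZMod 3) = 1 from by decide, show (0 + 2 : ZMod 3) = 2 from by decide]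
          omega
        · change (Ai 1).card = 0 at hj
          change (Ai (1 + 1)).card + (Ai (1 + 2)).card = n + 3
          rw [show (1 + 1 : ZMod 3) = 2 from by decide, show (1 + 2 : ZMod 3) = 0 from by decide]
          omega
        · change (Ai 2).card = 0 at hj
          change (Ai (2 + 1)).card + (Ai (2 + 2)).card = n + 3
          rw [show (2 + 1 : ZMod 3) = 0 from by decide, show (2 + 2 : ZMod 3) = 1 from by decide]
          omega
      exact key i h3
    have h1 := hAile (i + 1)
    have h2 := hAile (i + 2)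
    have ne1 : (Ai (i + 1)).Nonempty := Finset.card_pos.1 (by omega)
    have ne2 : (Ai (i + 2)).Nonempty := Finset.card_pos.1 (by omega)
    obtain ⟨a, ha⟩ := ne1
    obtain ⟨b, hb⟩ := ne2
    rw [hAi, Finset.mem_filter] at ha hb
    have hcls : ∀ x y : G, cl χ.ker x = cl χ.ker y ↔ χ x = χ y := by
      intro x y
      rw [cl, cl, QuotientAddGroup.eq, AddMonoidHom.mem_ker, map_add, map_neg]
      constructor
      · intro h
        have := congrArg (fun z => χ x + z) h
        simp only [add_zero] at this
        rw [← this]; ring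
      · intro h; rw [h]; ring
    have key3 : ∀ i c : ZMod 3, c ≠ i → c = i + 1 ∨ c = i + 2 := by decide
    have key4 : ∀ i : ZMod 3, i + 1 ≠ i + 2 := by decide
    have key5 : ∀ i p q r : ZMod 3, p + q + r = 0 → (p = i + 1 ∨ p = i + 2) →
      (q = i + 1 ∨ q = i + 2) → (r = i + 1 ∨ r = i + 2) → p = q ∧ q = r := by decide
    have hval : ∀ x ∈ A, χ x = i + 1 ∨ χ x = i + 2 := by
      intro x hx
      have h3 : χ x ≠ i := by
        intro h
        have : x ∈ Ai i := Finset.mem_filter.2 ⟨hx, h⟩
        rw [hi] at this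
        simp at this
      exact key3 i (χ x) h3
    have himg : img χ.ker A = {cl χ.ker a, cl χ.ker b} := by
      ext Q
      rw [mem_img]
      simp only [Finset.mem_insert, Finset.mem_singleton]
      constructor
      · rintro ⟨x, hx, rfl⟩
        rcases hval x hx with h | h
        · left
          exact (hcls x a).2 (by rw [h, ha.2])
        · right
          exact (hcls x b).2 (by rw [h, hb.2])
      · rintro (rfl | rfl)
        · exact ⟨a, ha.1, rfl⟩
        · exact ⟨b, hb.1, rfl⟩
    refine ⟨χ.ker, 1, one_pos, ⟨by rw [hker]; ring, hA, ?_, ?_⟩⟩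
    · rw [himg, Finset.card_pair]
      intro h
      have := (hcls a b).1 h
      rw [ha.2, hb.2] at this
      exact key4 i this
    · intro x hx y hy z hz hsum
      have h3 : χ x + χ y + χ z = 0 := by
        have : cl χ.ker (x + y + z) = cl χ.ker s := hsum
        rw [hcls, map_add, map_add, hs] at this
        exact this
      rw [hcls, hcls]
      exact key5 i _ _ _ h3 (hval x hx) (hval y hy) (hval z hz)
  · -- all fibres nonempty: Kneser
    push Not at hemp
    obtain ⟨H, hper, _, hk⟩ := kneser (Ai 0) (Ai 1) (hemp 0) (hemp 1)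
    have hHle : H ≤ χ.ker := by
      intro h hh
      obtain ⟨x, hx⟩ := (hemp 0).add (hemp 1)
      have h1 := hper h hh x hx
      have hval : ∀ y ∈ Ai 0 + Ai 1, χ y = 1 := by
        intro y hy
        obtain ⟨u, hu, v, hv, rfl⟩ := Finset.mem_add.1 hy
        rw [map_add, (Finset.mem_filter.1 hu).2, (Finset.mem_filter.1 hv).2]
        decide
      have h2 := hval _ h1
      rw [map_add, hval x hx] at h2
      rw [AddMonoidHom.mem_ker]
      have := congrArg (fun z => z - 1) h2
      simpa using this
    obtain ⟨N, hNn⟩ : Nat.card H ∣ n := by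
      rw [← hker]
      exact AddSubgroup.card_dvd_of_le hHle
    have hHpos : 0 < Nat.card H := Nat.card_pos
    have hNpos : 0 < N := by
      rcases Nat.eq_zero_or_pos N with h | h
      · rw [h, mul_zero] at hNn
        omega
      · exact h
    -- the class-one part
    set F := (Finset.univ : Finset G).filter fun x => χ x = 1 with hF
    have hFper : Periodic H F := by
      intro h hh x hx
      rw [hF, Finset.mem_filter] at hx ⊢
      refine ⟨Finset.mem_univ _, ?_⟩
      rw [map_add, hx.2, AddMonoidHom.mem_ker.1 (hHle hh)]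
      decide
    have hFcard : (img H F).card = N := by
      have h1 := hfib 1
      rw [← hF] at h1
      rw [hFper.eq_pre, card_pre, hNn] at h1
      exact Nat.eq_of_mul_eq_mul_left hHpos h1
    set Z := (Ai 2).image (fun x => s - x) with hZ
    have hdisj : Disjoint (img H (Ai 0 + Ai 1)) (img H Z) := by
      rw [Finset.disjoint_left]
      intro Q h1 h2
      obtain ⟨x, hx, hxQ⟩ := mem_img.1 h1
      obtain ⟨y, hy, hyQ⟩ := mem_img.1 h2
      obtain ⟨z, hz, rfl⟩ := Finset.mem_image.1 hy
      have h3 := QuotientAddGroup.eq.1 (hxQ.trans hyQ.symm)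
      have h4 := hper _ h3 x hx
      rw [show -x + (s - z) + x = s - z by abel] at h4
      obtain ⟨u, hu, v, hv, huv⟩ := Finset.mem_add.1 h4
      have hu' := Finset.mem_filter.1 hu
      have hv' := Finset.mem_filter.1 hv
      have hz' := Finset.mem_filter.1 hz
      apply hno u hu'.1 v hv'.1 z hz'.1
      · rintro rfl
        have := hu'.2.symm.trans hv'.2
        revert this; decide
      · rintro rfl
        have := hu'.2.symm.trans hz'.2
        revert this; decide
      · rintro rfl
        have := hv'.2.symm.trans hz'.2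
        revert this; decide
      · rw [huv]; abel
    have hsub : img H (Ai 0 + Ai 1) ∪ img H Z ⊆ img H F := by
      apply Finset.union_subset
      · intro Q hQ
        obtain ⟨x, hx, rfl⟩ := mem_img.1 hQ
        refine mem_img.2 ⟨x, ?_, rfl⟩
        obtain ⟨u, hu, v, hv, rfl⟩ := Finset.mem_add.1 hx
        rw [hF, Finset.mem_filter, map_add, (Finset.mem_filter.1 hu).2, (Finset.mem_filter.1 hv).2]
        exact ⟨Finset.mem_univ _, by decide⟩
      · intro Q hQ
        obtain ⟨x, hx, rfl⟩ := mem_img.1 hQ
        refine mem_img.2 ⟨x, ?_, rfl⟩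
        obtain ⟨z, hz, rfl⟩ := Finset.mem_image.1 hx
        rw [hF, Finset.mem_filter, map_sub, (Finset.mem_filter.1 hz).2, hs]
        exact ⟨Finset.mem_univ _, by decide⟩
    have hZcard : (img H Z).card = (img H (Ai 2)).card := by
      have : img H Z = (img H (Ai 2)).image (fun Q => cl H s - Q) := by
        ext Q
        rw [mem_img, Finset.mem_image]
        constructor
        · rintro ⟨x, hx, rfl⟩
          obtain ⟨z, hz, rfl⟩ := Finset.mem_image.1 hx
          exact ⟨cl H z, mem_img.2 ⟨z, hz, rfl⟩, (QuotientAddGroup.mk_sub _ _ _).symm⟩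
        · rintro ⟨Q', hQ', rfl⟩
          obtain ⟨z, hz, rfl⟩ := mem_img.1 hQ'
          exact ⟨s - z, Finset.mem_image.2 ⟨z, hz, rfl⟩, QuotientAddGroup.mk_sub _ _ _⟩
      rw [this, Finset.card_image_of_injective _ (sub_right_injective)]
    have hc1 := Finset.card_le_card hsub
    rw [Finset.card_union_of_disjoint hdisj, hFcard, hZcard] at hc1
    -- images of the fibres are disjoint
    have hcard : (img H A).card ≤ N + 1 := by
      have hcov : img H A ⊆ img H (Ai 0) ∪ img H (Ai 1) ∪ img H (Ai 2) := by
        intro Q hQ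
        obtain ⟨x, hx, rfl⟩ := mem_img.1 hQ
        rw [Finset.mem_union, Finset.mem_union, mem_img, mem_img, mem_img]
        have : χ x = 0 ∨ χ x = 1 ∨ χ x = 2 := by
          generalize χ x = c
          revert c
          decide
        rcases this with h | h | h
        · exact Or.inl (Or.inl ⟨x, Finset.mem_filter.2 ⟨hx, h⟩, rfl⟩)
        · exact Or.inl (Or.inr ⟨x, Finset.mem_filter.2 ⟨hx, h⟩, rfl⟩)
        · exact Or.inr ⟨x, Finset.mem_filter.2 ⟨hx, h⟩, rfl⟩
      have h1 := Finset.card_le_card hcov
      have h2 := Finset.card_union_le (img H (Ai 0) ∪ img H (Ai 1)) (img H (Ai 2))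
      have h3 := Finset.card_union_le (img H (Ai 0)) (img H (Ai 1))
      omega
    have hcard' : N + 1 ≤ (img H A).card := by
      have h1 := Finset.card_le_card (subset_pre_img H A)
      rw [card_pre, hA] at h1
      by_contra hcon
      push Not at hcon
      have h2 : (img H A).card ≤ N := by omega
      have h3 : Nat.card H * (img H A).card ≤ Nat.card H * N := Nat.mul_le_mul_left _ h2
      rw [← hNn] at h3
      omega
    have hB : (img H A).card = N + 1 := le_antisymm hcard hcard'
    exact ⟨H, N, hNpos, hNn.symm, hA, hB, nae_of_noTriple hNn.symm hA hB hno⟩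

end Pool.Agent.MP_e67b39_co
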