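import Pool.Agent.MP_e67b39_co.Struct

namespace Pool.Agent.MP_e67b39_co

open Finset Pointwise Pool.Agent.Lib.helper11

variable {Γ : Type*} [AddCommGroup Γ] [Fintype Γ] [DecidableEq Γ]

lemma cl_eq {H : AddSubgroup Γ} {x y : Γ} : cl H x = cl H y ↔ x - y ∈ H := by
  rw [cl, cl, QuotientAddGroup.eq, ← H.neg_mem_iff]
  rw [show -(-x + y) = x - y by abel]

lemma img_reflect (H : AddSubgroup Γ) (Z : Finset Γ) (s : Γ) :
    (img H (Z.image fun x => s - x)).card = (img H Z).card := by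
  classical
  have : img H (Z.image fun x => s - x) = (img H Z).image (fun Q => cl H s - Q) := by
    ext Q
    rw [mem_img, Finset.mem_image]
    constructor
    · rintro ⟨x, hx, rfl⟩
      obtain ⟨z, hz, rfl⟩ := Finset.mem_image.1 hx
      exact ⟨cl H z, mem_img.2 ⟨z, hz, rfl⟩, (QuotientAddGroup.mk_sub _ _ _).symm⟩
    · rintro ⟨Q', hQ', rfl⟩
      obtain ⟨z, hz, rfl⟩ := mem_img.1 hQ'
      exact ⟨s - z, Finset.mem_image.2 ⟨z, hz, rfl⟩, QuotientAddGroup.mk_sub _ _ _⟩
  rw [this, Finset.card_image_of_injective _ (sub_right_injective)]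

lemma img_nonempty {H : AddSubgroup Γ} {X : Finset Γ} (hX : X.Nonempty) : (img H X).Nonempty := by
  obtain ⟨x, hx⟩ := hX
  exact ⟨_, mem_img.2 ⟨x, hx, rfl⟩⟩

lemma card_le_img (H : AddSubgroup Γ) (X : Finset Γ) :
    X.card ≤ Nat.card H * (img H X).card := by
  rw [← card_pre]
  exact Finset.card_le_card (subset_pre_img H X)

/-- three subsets of cosets of `T` without a solution of `x + y + z = σ` -/
theorem K3 (T : AddSubgroup Γ) {X Y Z : Finset Γ} (hX : X.Nonempty) (hY : Y.Nonempty)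
    (hZ : Z.Nonempty) {x₀ y₀ σ : Γ} (hXT : ∀ x ∈ X, x - x₀ ∈ T) (hYT : ∀ y ∈ Y, y - y₀ ∈ T)
    (hZT : ∀ z ∈ Z, σ - z - (x₀ + y₀) ∈ T)
    (h : ∀ x ∈ X, ∀ y ∈ Y, ∀ z ∈ Z, x + y + z ≠ σ) :
    ∃ H : AddSubgroup Γ, H < T ∧
      Nat.card H * ((img H X).card + (img H Y).card + (img H Z).card) ≤
        Nat.card T + Nat.card H := by
  classical
  obtain ⟨H, hper, _, hk⟩ := kneser X Y hX hY
  have hXY : ∀ w ∈ X + Y, w - (x₀ + y₀) ∈ T := by
    intro w hw
    obtain ⟨x, hx, y, hy, rfl⟩ := Finset.mem_add.1 hw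
    have := T.add_mem (hXT x hx) (hYT y hy)
    rwa [show x - x₀ + (y - y₀) = x + y - (x₀ + y₀) by abel] at this
  have hHle : H ≤ T := by
    intro g hg
    obtain ⟨w, hw⟩ := hX.add hY
    have h1 := hXY _ (hper g hg w hw)
    have h2 := hXY w hw
    have := T.sub_mem h1 h2
    rwa [show g + w - (x₀ + y₀) - (w - (x₀ + y₀)) = g by abel] at this
  set F := fib T (cl T (x₀ + y₀)) with hF
  have memF : ∀ w, w ∈ F ↔ w - (x₀ + y₀) ∈ T := by
    intro w
    rw [hF, mem_fib]
    exact cl_eq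
  have hFper : Periodic H F := by
    intro g hg w hw
    rw [memF] at hw ⊢
    have := T.add_mem (hHle hg) hw
    rwa [← add_sub_assoc] at this
  have hFcard : Nat.card H * (img H F).card = Nat.card T := by
    rw [← card_pre, ← hFper.eq_pre, hF, card_fib]
  set W := Z.image (fun x => σ - x) with hW
  have hdisj : Disjoint (img H (X + Y)) (img H W) := by
    rw [Finset.disjoint_left]
    intro Q h1 h2
    obtain ⟨w, hw, hwQ⟩ := mem_img.1 h1
    obtain ⟨v, hv, hvQ⟩ := mem_img.1 h2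
    obtain ⟨z, hz, rfl⟩ := Finset.mem_image.1 hv
    have h3 := cl_eq.1 (hvQ.trans hwQ.symm)
    have h4 := hper _ h3 w hw
    rw [show σ - z - w + w = σ - z by abel] at h4
    obtain ⟨x, hx, y, hy, hxy⟩ := Finset.mem_add.1 h4
    exact h x hx y hy z hz (by rw [hxy]; abel)
  have hsub : img H (X + Y) ∪ img H W ⊆ img H F := by
    apply Finset.union_subset
    · intro Q hQ
      obtain ⟨w, hw, rfl⟩ := mem_img.1 hQ
      exact mem_img.2 ⟨w, (memF w).2 (hXY w hw), rfl⟩
    · intro Q hQ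
      obtain ⟨v, hv, rfl⟩ := mem_img.1 hQ
      obtain ⟨z, hz, rfl⟩ := Finset.mem_image.1 hv
      exact mem_img.2 ⟨_, (memF _).2 (hZT z hz), rfl⟩
  have hc1 := Finset.card_le_card hsub
  rw [Finset.card_union_of_disjoint hdisj, hW, img_reflect] at hc1
  have hmain : Nat.card H * ((img H X).card + (img H Y).card + (img H Z).card) ≤
        Nat.card T + Nat.card H := by
    rw [← hFcard]
    calc Nat.card H * ((img H X).card + (img H Y).card + (img H Z).card)
        ≤ Nat.card H * ((img H F).card + 1) := Nat.mul_le_mul_left _ (by omega)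
      _ = _ := by ring
  refine ⟨H, lt_of_le_of_ne hHle ?_, hmain⟩
  intro hHT
  rw [← hHT] at hmain
  have e1 := Finset.card_pos.2 (img_nonempty (H := H) hX)
  have e2 := Finset.card_pos.2 (img_nonempty (H := H) hY)
  have e3 := Finset.card_pos.2 (img_nonempty (H := H) hZ)
  have : 0 < Nat.card H := Nat.card_pos
  have h5 : Nat.card H * 3 ≤ Nat.card H * ((img H X).card + (img H Y).card + (img H Z).card) :=
    Nat.mul_le_mul_left _ (by omega)
  omega

/-- the elements of `B` with `3 x = σ` -/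
def dd (B : Finset Γ) (σ : Γ) : Finset Γ := B.filter fun x => 3 • x = σ

/-- `x + y + z = σ` only with `x = y = z` -/
def NAE (B : Finset Γ) (σ : Γ) : Prop :=
  ∀ x ∈ B, ∀ y ∈ B, ∀ z ∈ B, x + y + z = σ → x = y ∧ y = z

/-- the structure of a set without non-constant solutions of `x + y + z = σ` -/
theorem lemmaC (T : AddSubgroup Γ) {B : Finset Γ} (hB : B.Nonempty) {b₀ σ : Γ}
    (hBT : ∀ x ∈ B, x - b₀ ∈ T) (hσ : σ - 3 • b₀ ∈ T) (h : NAE B σ) :
    ∃ L : AddSubgroup Γ, L ≤ T ∧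
      Nat.card L * (3 * (img L B).card) ≤
        Nat.card T + Nat.card L + Nat.card L * (img L (dd B σ)).card ∧
      B.card ≤ Nat.card L * ((img L B).card - (img L (dd B σ)).card) + (dd B σ).card ∧
      (∀ x ∈ B, cl L x ∈ img L (dd B σ) → x ∈ dd B σ) ∧
      (∀ x ∈ B, ∀ y ∈ B, ∀ z ∈ B, z ∉ dd B σ → cl L x + cl L y + cl L z ≠ cl L σ) := by
  classical
  obtain ⟨L, hper, _, hk⟩ := kneser B B hB hB
  have hBB : ∀ w ∈ B + B, w - (b₀ + b₀) ∈ T := by
    intro w hw
    obtain ⟨x, hx, y, hy, rfl⟩ := Finset.mem_add.1 hw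
    have := T.add_mem (hBT x hx) (hBT y hy)
    rwa [show x - b₀ + (y - b₀) = x + y - (b₀ + b₀) by abel] at this
  have hLle : L ≤ T := by
    intro g hg
    obtain ⟨w, hw⟩ := hB.add hB
    have h1 := hBB _ (hper g hg w hw)
    have h2 := hBB w hw
    have := T.sub_mem h1 h2
    rwa [show g + w - (b₀ + b₀) - (w - (b₀ + b₀)) = g by abel] at this
  -- elements outside `dd` are not hit
  have hmiss : ∀ z ∈ B, z ∉ dd B σ → σ - z ∉ B + B := by
    intro z hz hzd hmem
    obtain ⟨x, hx, y, hy, hxy⟩ := Finset.mem_add.1 hmem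
    have h1 : x + y + z = σ := by rw [hxy]; abel
    obtain ⟨h2, h3⟩ := h x hx y hy z hz h1
    apply hzd
    rw [dd, Finset.mem_filter]
    refine ⟨hz, ?_⟩
    rw [← h1, h2, h3]
    abel
  have hhit : ∀ z ∈ dd B σ, σ - z ∈ B + B := by
    intro z hz
    rw [dd, Finset.mem_filter] at hz
    refine Finset.mem_add.2 ⟨z, hz.1, z, hz.1, ?_⟩
    rw [← hz.2]
    abel
  have hmissL : ∀ x ∈ B, ∀ y ∈ B, ∀ z ∈ B, z ∉ dd B σ →
      cl L x + cl L y + cl L z ≠ cl L σ := by
    intro x hx y hy z hz hzd heq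
    apply hmiss z hz hzd
    have h1 : cl L (σ - z) = cl L (x + y) := by
      have h2 : cl L (σ - z) = cl L σ - cl L z := QuotientAddGroup.mk_sub _ _ _
      have h3 : cl L (x + y) = cl L x + cl L y := QuotientAddGroup.mk_add _ _ _
      rw [h2, h3, ← heq]
      abel
    have h4 := hper _ (cl_eq.1 h1) (x + y) (Finset.add_mem_add hx hy)
    rwa [sub_add_cancel] at h4
  have hD : ∀ x ∈ B, cl L x ∈ img L (dd B σ) → x ∈ dd B σ := by
    intro x hx hxd
    by_contra hcon
    obtain ⟨d, hd, hdx⟩ := mem_img.1 hxd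
    have hdB : d ∈ B := (Finset.mem_filter.1 hd).1
    apply hmissL d hdB d hdB x hx hcon
    have h2 : cl L x = cl L d := hdx.symm
    rw [h2, ← (Finset.mem_filter.1 hd).2]
    have h3 : cl L (3 • d) = 3 • cl L d := rfl
    rw [h3]
    abel
  -- the count
  set F := fib T (cl T (b₀ + b₀)) with hF
  have memF : ∀ w, w ∈ F ↔ w - (b₀ + b₀) ∈ T := by
    intro w
    rw [hF, mem_fib]
    exact cl_eq
  have hFper : Periodic L F := by
    intro g hg w hw
    rw [memF] at hw ⊢
    have := T.add_mem (hLle hg) hw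
    rwa [← add_sub_assoc] at this
  have hFcard : Nat.card L * (img L F).card = Nat.card T := by
    rw [← card_pre, ← hFper.eq_pre, hF, card_fib]
  set W := (B \ dd B σ).image (fun x => σ - x) with hW
  have hdisj : Disjoint (img L (B + B)) (img L W) := by
    rw [Finset.disjoint_left]
    intro Q h1 h2
    obtain ⟨w, hw, hwQ⟩ := mem_img.1 h1
    obtain ⟨v, hv, hvQ⟩ := mem_img.1 h2
    obtain ⟨z, hz, rfl⟩ := Finset.mem_image.1 hv
    rw [Finset.mem_sdiff] at hz
    have h3 := cl_eq.1 (hvQ.trans hwQ.symm)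
    have h4 := hper _ h3 w hw
    rw [show σ - z - w + w = σ - z by abel] at h4
    exact hmiss z hz.1 hz.2 h4
  have hsub : img L (B + B) ∪ img L W ⊆ img L F := by
    apply Finset.union_subset
    · intro Q hQ
      obtain ⟨w, hw, rfl⟩ := mem_img.1 hQ
      exact mem_img.2 ⟨w, (memF w).2 (hBB w hw), rfl⟩
    · intro Q hQ
      obtain ⟨v, hv, rfl⟩ := mem_img.1 hQ
      obtain ⟨z, hz, rfl⟩ := Finset.mem_image.1 hv
      rw [Finset.mem_sdiff] at hz
      refine mem_img.2 ⟨_, (memF _).2 ?_, rfl⟩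
      have := T.sub_mem hσ (hBT z hz.1)
      rwa [show σ - 3 • b₀ - (z - b₀) = σ - z - (b₀ + b₀) by abel] at this
  have hc1 := Finset.card_le_card hsub
  rw [Finset.card_union_of_disjoint hdisj, hW, img_reflect] at hc1
  have hsplit : (img L B).card = (img L (B \ dd B σ)).card + (img L (dd B σ)).card := by
    rw [← Finset.card_union_of_disjoint]
    · congr 1
      ext Q
      rw [Finset.mem_union, mem_img, mem_img, mem_img]
      constructor
      · rintro ⟨x, hx, rfl⟩
        by_cases hxd : x ∈ dd B σ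
        · exact Or.inr ⟨x, hxd, rfl⟩
        · exact Or.inl ⟨x, Finset.mem_sdiff.2 ⟨hx, hxd⟩, rfl⟩
      · rintro (⟨x, hx, rfl⟩ | ⟨x, hx, rfl⟩)
        · exact ⟨x, (Finset.mem_sdiff.1 hx).1, rfl⟩
        · exact ⟨x, (Finset.mem_filter.1 hx).1, rfl⟩
    · rw [Finset.disjoint_left]
      intro Q h1 h2
      obtain ⟨x, hx, rfl⟩ := mem_img.1 h1
      rw [Finset.mem_sdiff] at hx
      exact hx.2 (hD x hx.1 h2)
  refine ⟨L, hLle, ?_, ?_, hD, hmissL⟩
  · rw [← hFcard]
    calc Nat.card L * (3 * (img L B).card)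
        ≤ Nat.card L * ((img L F).card + 1 + (img L (dd B σ)).card) :=
          Nat.mul_le_mul_left _ (by omega)
      _ = _ := by ring
  · have h1 : B.card = (B \ dd B σ).card + (dd B σ).card := by
      have := Finset.card_sdiff_add_card_eq_card (Finset.filter_subset (fun x => 3 • x = σ) B)
      exact this.symm
    have h2 := card_le_img L (B \ dd B σ)
    rw [show (img L B).card - (img L (dd B σ)).card = (img L (B \ dd B σ)).card by omega]
    omega

end Pool.Agent.MP_e67b39_co
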