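import Pool.Agent.MP_e67b39_co.AFalse
import Pool.Agent.MP_e67b39_co.Defs

namespace Pool.Agent.MP_e67b39_co

open Finset Pointwise Pool.Agent.Lib.helper11

lemma mod_one_of_primes : ∀ n : ℕ, 0 < n → (∀ p : ℕ, p.Prime → p ∣ n → p % 3 = 1) →
    n % 3 = 1 := by
  intro n
  induction n using Nat.strong_induction_on with
  | _ n ih =>
    intro hn h
    rcases Nat.lt_or_ge 1 n with h1 | h1
    · obtain ⟨p, hp, hpn⟩ := Nat.exists_prime_and_dvd (show n ≠ 1 by omega)
      obtain ⟨m, rfl⟩ := hpn
      have hm : 0 < m := by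
        rcases Nat.eq_zero_or_pos m with h | h
        · rw [h, mul_zero] at hn; omega
        · exact h
      have hlt : m < p * m := by
        have := hp.two_le
        nlinarith
      have h2 := ih m hlt hm (fun q hq hqm => h q hq (Dvd.dvd.mul_left hqm p))
      rw [Nat.mul_mod, h2, h p hp (Dvd.intro m rfl)]
    · have : n = 1 := by omega
      rw [this]

lemma dvd_mul_pow {c ν j : ℕ} (h : ν ∣ c * 3 ^ j) (h3 : ν % 3 = 2) : ν ∣ c := by
  have hco : Nat.Coprime ν 3 := by
    rw [Nat.coprime_comm, Nat.Prime.coprime_iff_not_dvd Nat.prime_three]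
    omega
  exact (hco.pow_right j).dvd_of_dvd_mul_right h

lemma exc_div {k ν : ℕ} (hE : Exceptional k) (hk : 0 < k) (hν : ν ∣ k) (h3 : ν % 3 = 2) :
    ν = 2 ∨ (ν = 8 ∧ k = ν) ∨ (∃ p : ℕ, p.Prime ∧ p % 3 = 1 ∧ ν = 2 * p ∧ k = ν) ∨
      (ν.Prime ∧ 5 ≤ ν ∧ k = ν * 2) := by
  have hνpos : 0 < ν := Nat.pos_of_dvd_of_pos hν hk
  rcases hE with ⟨hodd, hp⟩ | rfl | ⟨j, rfl | rfl⟩ | ⟨p, hp, rfl⟩
  · have := mod_one_of_primes ν hνpos (fun p h1 h2 => hp p h1 (h2.trans hν))
    omega
  · have := Nat.le_of_dvd hk hν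
    interval_cases ν <;> first | omega | simp_all
  · have h1 := dvd_mul_pow hν h3
    have := Nat.le_of_dvd (by norm_num) h1
    left; omega
  · have h1 := dvd_mul_pow hν h3
    have := Nat.le_of_dvd (by norm_num) h1
    left; omega
  · rcases (Nat.dvd_mul.1 hν) with ⟨a, b, ha, hb, rfl⟩
    rcases (Nat.dvd_prime Nat.prime_two).1 ha with rfl | rfl
    · rcases (Nat.dvd_prime hp).1 hb with rfl | rfl
      · omega
      · rcases Nat.lt_or_ge b 5 with h5 | h5
        · left
          have := hp.two_le
          interval_cases b <;> omega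
        · right; right; right
          exact ⟨by simpa using hp, by omega, by omega⟩
    · rcases (Nat.dvd_prime hp).1 hb with rfl | rfl
      · left; rfl
      · right; right; left
        exact ⟨b, hp, by omega, rfl, rfl⟩

/-- **Upper bound**, exceptional case -/
theorem bad_false {k : ℕ} (hk : 0 < k) (hE : Exceptional k) {A : Finset (GG k)} (hA : A.card = 3 * k + 3)
    {s : GG k} (hs : ∑ x ∈ A, x = s) (hno : NoTriple A s) : False := by
  classical
  haveI : NeZero k := ⟨by omega⟩
  obtain ⟨χ, hχ, hχs⟩ := exists_chi s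
  obtain ⟨H, N, hN, hS⟩ := exists_struct (n := 3 * k) (by omega) (card_GG k) χ hχ hA hχs hno
  rcases dichotomy (card_GG k) (by omega) hS with ⟨L, ν, β, hL, hβ, hνβ, hna⟩ |
    ⟨Q₁, h1, Q₂, h2, hne, e1, e2⟩
  · obtain ⟨h, hνk, hm, hno'⟩ := alpha L hS.hN hL hβ hνβ hna
    rcases exc_div hE hk hνk (by omega) with h2 | ⟨h8, hk8⟩ | ⟨p, hp, hp3, h2p, hk2p⟩ |
      ⟨hp, h5, hk2⟩
    · exact a_two h h2 hA hs hm hno'
    · exact a_eight h h8 hk8 hA hs hm hno'
    · exact a_2p h hp hp3 h2p hk2p hA hs hm hno'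
    · exact a_p h hp h5 hk2 hA hs hm hno'
  · obtain ⟨hH, -⟩ := two_classes hS hno h1 h2 e1 e2 hne
    have hHN := hS.hN
    -- `3 ∤ k` and `5 ∤ k`
    have c35 : ¬ 3 ∣ k → ¬ 5 ∣ k → False := by
      intro h3 h5
      rcases hH with h | h | h
      · exact three_false h3 hS hs hno h h1 h2 e1 e2 hne
      · apply h5
        rw [h] at hHN
        exact (Nat.Coprime.dvd_of_dvd_mul_left (by norm_num) (Dvd.intro _ hHN) :
          5 ∣ k)
      · exact nine_false h3 h e1 e2 hne
    have cpow : ∀ c j : ℕ, (c = 2 ∨ c = 4) → k = c * 3 ^ j → False := by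
      intro c j hc hkc
      have h5 : ¬ 5 ∣ k := by
        rw [hkc, Nat.Prime.dvd_mul Nat.prime_five]
        rintro (h | h)
        · rcases hc with rfl | rfl <;> norm_num at h
        · have := Nat.Prime.dvd_of_dvd_pow Nat.prime_five h
          norm_num at this
      rcases Nat.eq_zero_or_pos j with rfl | hj
      · apply c35 _ h5
        rw [hkc]
        rcases hc with rfl | rfl <;> norm_num
      · have hMk : c ∣ 3 * k := by
          rw [hkc]
          exact ⟨3 * 3 ^ j, by ring⟩
        rcases hH with h | h | h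
        · refine psi_false (e := j) hc hMk hS hs hno ?_ (by rw [h]; decide) (fun _ => hj)
            h1 h2 e1 e2 hne
          rw [h, hkc] at hHN
          omega
        · apply h5
          rw [h] at hHN
          exact (Nat.Coprime.dvd_of_dvd_mul_left (by norm_num) (Dvd.intro _ hHN) :
            5 ∣ k)
        · refine psi_false (e := j - 1) hc hMk hS hs hno ?_ (by rw [h]; decide)
            (fun h3 => by omega) h1 h2 e1 e2 hne
          obtain ⟨i, rfl⟩ : ∃ i, j = i + 1 := ⟨j - 1, by omega⟩
          rw [Nat.add_sub_cancel]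
          rw [h, hkc, pow_succ] at hHN
          have : 9 * N = 9 * (c * 3 ^ i) := by rw [hHN]; ring
          omega
    rcases hE with ⟨hodd, hp⟩ | h8 | ⟨j, hj | hj⟩ | ⟨p, hp, h2p⟩
    · apply c35
      · intro h; have := hp 3 Nat.prime_three h; omega
      · intro h; have := hp 5 Nat.prime_five h; omega
    · apply c35 <;> omega
    · exact cpow 2 j (Or.inl rfl) hj
    · exact cpow 4 j (Or.inr rfl) hj
    · by_cases hp3 : p = 3
      · exact cpow 2 1 (Or.inl rfl) (by rw [h2p, hp3]; norm_num)
      · have h3 : ¬ 3 ∣ k := by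
          rw [h2p, Nat.Prime.dvd_mul Nat.prime_three]
          rintro (h | h)
          · norm_num at h
          · exact hp3 ((Nat.prime_dvd_prime_iff_eq Nat.prime_three hp).1 h).symm
        by_cases hp5 : p = 5
        · have hk10 : k = 10 := by omega
          rcases hH with h | h | h
          · exact three_false h3 hS hs hno h h1 h2 e1 e2 hne
          · have hMk : 2 ∣ 3 * k := by omega
            refine psi_false (M := 2) (e := 1) (Or.inl rfl) hMk hS hs hno ?_ (by rw [h]; decide)
              (fun _ => le_rfl) h1 h2 e1 e2 hne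
            rw [h] at hHN
            omega
          · exact nine_false h3 h e1 e2 hne
        · apply c35 h3
          rw [h2p, Nat.Prime.dvd_mul Nat.prime_five]
          rintro (h | h)
          · norm_num at h
          · exact hp5 ((Nat.prime_dvd_prime_iff_eq Nat.prime_five hp).1 h).symm

end Pool.Agent.MP_e67b39_co
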