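import Pool.Agent.MP_e67b39_co.Upper

namespace Pool.Agent.MP_e67b39_co

open Finset Pointwise Pool.Agent.Lib.helper11

section general

variable {G : Type*} [AddCommGroup G] [Fintype G] [DecidableEq G]

/-- four classes, the last two different, give four distinct elements -/
lemma four_of_classes {A : Finset G} {n : ℕ} {H : AddSubgroup G} {N : ℕ}
    (hN : Nat.card H * N = n) (hA : A.card = n + 3) (hB : (img H A).card = N + 1)
    {R₁ R₂ R₃ R₄ : G ⧸ H} (h1 : R₁ ∈ img H A) (h2 : R₂ ∈ img H A) (h3 : R₃ ∈ img H A)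
    (h4 : R₄ ∈ img H A) (hne : R₃ ≠ R₄) {g : G} (hg : R₁ + R₂ + (R₃ + R₄) = cl H g) :
    ∃ S ⊆ A, S.card = 4 ∧ ∑ x ∈ S, x = g := by
  classical
  obtain ⟨y₁, hy₁, rfl⟩ := mem_img.1 h1
  -- the second element
  obtain ⟨y₂, hy₂, hy₂c, hy12⟩ : ∃ y₂ ∈ A, cl H y₂ = R₂ ∧ y₂ ≠ y₁ := by
    have := fc_single hN hA hB h2
    unfold fc at this
    obtain ⟨y, hy, hne, -⟩ := exists_avoid this y₁ y₁
    exact ⟨y, (Finset.mem_filter.1 hy).1, (Finset.mem_filter.1 hy).2, hne⟩
  set t := g - y₁ - y₂ with ht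
  have htc : cl H t = R₃ + R₄ := by
    have e1 : cl H t = cl H g - cl H y₁ - cl H y₂ := rfl
    have e2 : cl H y₁ = (QuotientAddGroup.mk y₁ : G ⧸ H) := rfl
    rw [e1, ← hg, hy₂c, e2]
    abel
  obtain ⟨S, hS3, hS⟩ := pigeon hN hA hB h3 h4 hne htc
  have hboth : ∀ y : G, ¬ (y ∈ S ∧ t - y ∈ S) := by
    rintro y ⟨ha, hb⟩
    apply hne
    have e1 := (hS y ha).2.2.1
    have e2 := (hS _ hb).2.2.2
    rw [show t - (t - y) = y by abel] at e2
    rw [← e1, ← e2]
  obtain ⟨y₃, hy₃, hb1, hb2⟩ := exists_avoid hS3 (if y₁ ∈ S then y₁ else t - y₁)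
    (if y₂ ∈ S then y₂ else t - y₂)
  have key : ∀ y : G, y₃ ≠ (if y ∈ S then y else t - y) → y₃ ≠ y ∧ t - y₃ ≠ y := by
    intro y hy
    constructor
    · rintro rfl
      rw [if_pos hy₃] at hy
      exact hy rfl
    · intro h
      have h5 : y₃ = t - y := by rw [← h]; abel
      by_cases hyS : y ∈ S
      · exact hboth y ⟨hyS, by rw [← h5]; exact hy₃⟩
      · rw [if_neg hyS] at hy
        exact hy h5
  obtain ⟨a1, a2⟩ := key y₁ hb1
  obtain ⟨a3, a4⟩ := key y₂ hb2
  obtain ⟨b1, b2, b3, b4⟩ := hS y₃ hy₃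
  have h34 : y₃ ≠ t - y₃ := by
    intro h
    apply hne
    rw [← b3, ← b4, ← h]
  refine ⟨{y₁, y₂, y₃, t - y₃}, ?_, ?_, ?_⟩
  · intro x hx
    simp only [Finset.mem_insert, Finset.mem_singleton] at hx
    rcases hx with rfl | rfl | rfl | rfl
    · exact hy₁
    · exact hy₂
    · exact b1
    · exact b2
  · rw [Finset.card_insert_of_notMem, Finset.card_insert_of_notMem, Finset.card_pair h34]
    · simp only [Finset.mem_insert, Finset.mem_singleton, not_or]
      exact ⟨a3.symm, a4.symm⟩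
    · simp only [Finset.mem_insert, Finset.mem_singleton, not_or]
      exact ⟨hy12.symm, a1.symm, a2.symm⟩
  · rw [Finset.sum_insert, Finset.sum_insert, Finset.sum_pair h34]
    · rw [ht]; abel
    · simp only [Finset.mem_insert, Finset.mem_singleton, not_or]
      exact ⟨a3.symm, a4.symm⟩
    · simp only [Finset.mem_insert, Finset.mem_singleton, not_or]
      exact ⟨hy12.symm, a1.symm, a2.symm⟩

lemma four_of_classes' {A : Finset G} {n : ℕ} {H : AddSubgroup G} {N : ℕ}
    (hN : Nat.card H * N = n) (hA : A.card = n + 3) (hB : (img H A).card = N + 1)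
    {R₁ R₂ R₃ R₄ : G ⧸ H} (h1 : R₁ ∈ img H A) (h2 : R₂ ∈ img H A) (h3 : R₃ ∈ img H A)
    (h4 : R₄ ∈ img H A) (hne : R₁ + R₂ ≠ R₃ + R₄) {g : G}
    (hg : R₁ + R₂ + (R₃ + R₄) = cl H g) :
    ∃ S ⊆ A, S.card = 4 ∧ ∑ x ∈ S, x = g := by
  by_cases h34 : R₃ = R₄
  · by_cases h12 : R₁ = R₂
    · have h13 : R₁ ≠ R₃ := by
        rintro rfl
        apply hne
        rw [← h12, ← h34]
      refine four_of_classes hN hA hB h2 h4 h1 h3 h13 ?_
      rw [← hg]
      abel
    · refine four_of_classes hN hA hB h3 h4 h1 h2 h12 ?_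
      rw [← hg]
      abel
  · exact four_of_classes hN hA hB h1 h2 h3 h4 h34 hg

/-- many sums of two classes -/
lemma many_sums {Γ : Type*} [AddCommGroup Γ] [Fintype Γ] [DecidableEq Γ] {N : ℕ}
    (hΓ : Nat.card Γ = 3 * N) {B : Finset Γ} (hB : B.card = N + 1) (hN : 0 < N)
    (h2 : ∀ σ : Γ, ((Finset.univ : Finset Γ).filter fun x => 2 • x = σ).card ≤ 2)
    (hL : ∀ L : AddSubgroup Γ, Nat.card L * 2 = 3 * N → (img L B).card ≠ 1) (t : Γ) :
    ∃ R₁ ∈ B, ∃ R₂ ∈ B, ∃ R₃ ∈ B, ∃ R₄ ∈ B, R₁ + R₂ ≠ R₃ + R₄ ∧ R₁ + R₂ + (R₃ + R₄) = t := by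
  classical
  have hBne : B.Nonempty := Finset.card_pos.1 (by omega)
  obtain ⟨L, hper, -, hk⟩ := kneser B B hBne hBne
  have hBB : (B + B).card = Nat.card L * (img L (B + B)).card := by
    rw [← card_pre, ← hper.eq_pre]
  have hLpos : 0 < Nat.card L := Nat.card_pos
  obtain ⟨ν, hν⟩ : Nat.card L ∣ 3 * N := by
    rw [← hΓ]
    exact AddSubgroup.card_addSubgroup_dvd_card L
  have hle := card_le_img L B
  have hL' := hL L
  set β := (img L B).card with hβ
  set c := Nat.card L with hc
  -- the count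
  have hmain : 3 * N + 3 ≤ 2 * (B + B).card := by
    have h5 : c * (2 * β) ≤ (B + B).card + c := by
      rw [hBB]
      calc c * (2 * β) ≤ c * ((img L (B + B)).card + 1) := Nat.mul_le_mul_left _ (by omega)
        _ = _ := by ring
    have h5' : 2 * (c * β) ≤ (B + B).card + c := by
      have : c * (2 * β) = 2 * (c * β) := by ring
      omega
    have h6 : c * ν < c * (3 * β) := by
      have : c * (3 * β) = 3 * (c * β) := by ring
      omega
    have h7 : ν < 3 * β := Nat.lt_of_mul_lt_mul_left h6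
    rcases Nat.lt_or_ge ν 6 with h8 | h8
    · have hν2 : ν = 2 → 2 ≤ β := by
        intro h
        have := hL' (by rw [hν, h])
        omega
      have hν0 : ν ≠ 0 := by
        rintro rfl
        omega
      -- reduce to small `β`
      have h9 : ∃ e, 2 * (2 * β) = ν + 2 + e ∧ 3 ≤ c * e := by
        refine ⟨2 * (2 * β) - ν - 2, by omega, ?_⟩
        have hν3 : ν = 1 ∨ ν = 4 ∨ ν = 5 → 3 ≤ c := by
          rintro (h | h | h)
          · rw [h] at hν; omega
          · rw [h] at hν; omega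
          · rw [h] at hν; omega
        interval_cases ν
        · omega
        · have h10 : 1 ≤ 2 * (2 * β) - 1 - 2 := by omega
          calc 3 ≤ c * 1 := by have := hν3 (by omega); omega
            _ ≤ _ := Nat.mul_le_mul_left _ h10
        · have h10 : 3 ≤ 2 * (2 * β) - 2 - 2 := by have := hν2 rfl; omega
          calc 3 ≤ c * 3 := by omega
            _ ≤ _ := Nat.mul_le_mul_left _ h10
        · have h10 : 3 ≤ 2 * (2 * β) - 3 - 2 := by omega
          calc 3 ≤ c * 3 := by omega
            _ ≤ _ := Nat.mul_le_mul_left _ h10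
        · have h10 : 1 ≤ 2 * (2 * β) - 4 - 2 := by omega
          calc 3 ≤ c * 1 := by have := hν3 (by omega); omega
            _ ≤ _ := Nat.mul_le_mul_left _ h10
        · have h10 : 1 ≤ 2 * (2 * β) - 5 - 2 := by omega
          calc 3 ≤ c * 1 := by have := hν3 (by omega); omega
            _ ≤ _ := Nat.mul_le_mul_left _ h10
      obtain ⟨e, he, he3⟩ := h9
      have h10 : 4 * (c * β) = c * ν + 2 * c + c * e := by
        calc 4 * (c * β) = c * (2 * (2 * β)) := by ring
          _ = c * (ν + 2 + e) := by rw [he]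
          _ = _ := by ring
      omega
    · have h9 : c * 6 ≤ c * ν := Nat.mul_le_mul_left _ h8
      omega
  -- representations
  set W := (B + B) ∩ (B + B).image (fun x => t - x) with hW
  have hWc : 3 ≤ W.card := by
    have h1 := Finset.card_union_add_card_inter (B + B) ((B + B).image (fun x => t - x))
    rw [Finset.card_image_of_injective _ sub_right_injective] at h1
    have h2 : ((B + B) ∪ (B + B).image (fun x => t - x)).card ≤ 3 * N := by
      rw [← hΓ, Nat.card_eq_fintype_card]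
      exact Finset.card_le_univ _
    rw [hW]
    omega
  obtain ⟨u, hu, hu2⟩ : ∃ u ∈ W, 2 • u ≠ t := by
    by_contra hcon
    push Not at hcon
    have : W ⊆ (Finset.univ : Finset Γ).filter fun x => 2 • x = t := by
      intro u hu
      exact Finset.mem_filter.2 ⟨Finset.mem_univ _, hcon u hu⟩
    have h3 := Finset.card_le_card this
    have h4 := h2 t
    omega
  obtain ⟨hu1, hu3⟩ := Finset.mem_inter.1 hu
  obtain ⟨v, hv, hvu⟩ := Finset.mem_image.1 hu3
  obtain ⟨R₁, r1, R₂, r2, h12⟩ := Finset.mem_add.1 hu1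
  obtain ⟨R₃, r3, R₄, r4, h34⟩ := Finset.mem_add.1 hv
  refine ⟨R₁, r1, R₂, r2, R₃, r3, R₄, r4, ?_, ?_⟩
  · rw [h12, h34]
    rintro rfl
    apply hu2
    rw [two_nsmul]
    nth_rewrite 2 [← hvu]
    abel
  · rw [h12, h34, ← hvu]
    abel

end general

/-- **Upper bound**, in general -/
theorem four_false {k : ℕ} (hk : 0 < k) {A : Finset (GG k)} (hA : A.card = 3 * k + 4)
    (hno : ∀ S ⊆ A, S.card = 4 → ∑ x ∈ S, x ≠ ∑ x ∈ A, x) : False := by
  classical
  haveI : NeZero k := ⟨by omega⟩
  obtain ⟨a, ha⟩ := Finset.card_pos.1 (show 0 < A.card by omega)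
  set A' := A.erase a with hA'
  have hA'c : A'.card = 3 * k + 3 := by
    rw [hA', Finset.card_erase_of_mem ha, hA]
    rfl
  set s := ∑ x ∈ A', x with hs
  have hsum : ∑ x ∈ A, x = a + s := (Finset.add_sum_erase A (fun x => x) ha).symm
  have hno3 : NoTriple A' s := by
    intro x hx y hy z hz hxy hxz hyz h
    rw [hA', Finset.mem_erase] at hx hy hz
    apply hno {a, x, y, z}
    · intro w hw
      simp only [Finset.mem_insert, Finset.mem_singleton] at hw
      rcases hw with rfl | rfl | rfl | rfl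
      · exact ha
      · exact hx.2
      · exact hy.2
      · exact hz.2
    · rw [Finset.card_insert_of_notMem, Finset.card_insert_of_notMem, Finset.card_pair hyz]
      · simp only [Finset.mem_insert, Finset.mem_singleton, not_or]
        exact ⟨hxy, hxz⟩
      · simp only [Finset.mem_insert, Finset.mem_singleton, not_or]
        exact ⟨hx.1.symm, hy.1.symm, hz.1.symm⟩
    · rw [Finset.sum_insert, Finset.sum_insert, Finset.sum_pair hyz, hsum, ← h]
      · abel
      · simp only [Finset.mem_insert, Finset.mem_singleton, not_or]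
        exact ⟨hxy, hxz⟩
      · simp only [Finset.mem_insert, Finset.mem_singleton, not_or]
        exact ⟨hx.1.symm, hy.1.symm, hz.1.symm⟩
  obtain ⟨χ, hχ, hχs⟩ := exists_chi s
  obtain ⟨H, N, hN, hS⟩ := exists_struct (n := 3 * k) (by omega) (card_GG k) χ hχ hA'c hχs hno3
  haveI : Fintype (GG k ⧸ H) := Fintype.ofFinite _
  have hexc : ∀ L : AddSubgroup (GG k ⧸ H), Nat.card L * 2 = 3 * N →
      (img L (img H A')).card ≠ 1 := by
    intro L hL h1
    set π : GG k →+ (GG k ⧸ H) ⧸ L := (QuotientAddGroup.mk' L).comp (QuotientAddGroup.mk' H)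
      with hπ
    have hsurj : Function.Surjective π :=
      (QuotientAddGroup.mk'_surjective L).comp (QuotientAddGroup.mk'_surjective H)
    obtain ⟨P, hP⟩ := Finset.card_eq_one.1 h1
    have hval : ∀ x ∈ A', π x = P := by
      intro x hx
      have : π x ∈ img L (img H A') := mem_img.2 ⟨cl H x, mem_img.2 ⟨x, hx, rfl⟩, rfl⟩
      rwa [hP, Finset.mem_singleton] at this
    obtain ⟨q, hq⟩ := Finset.card_pos.1 (show 0 < A'.card by omega)
    have hM : Nat.card π.ker * 2 = 3 * (3 * k) := by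
      have e1 := AddSubgroup.card_eq_card_quotient_mul_card_addSubgroup π.ker
      have e2 := AddSubgroup.card_eq_card_quotient_mul_card_addSubgroup L
      rw [Nat.card_congr (QuotientAddGroup.quotientKerEquivOfSurjective _ hsurj).toEquiv,
        card_GG] at e1
      rw [card_quot hS.hN, ← hL, mul_comm] at e2
      have hLpos : 0 < Nat.card L := Nat.card_pos
      have e3 := Nat.eq_of_mul_eq_mul_right hLpos e2
      rw [← e3] at e1
      omega
    have h5 := rr_le (H := π.ker) (X := A') (q := q) (s := s)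
      (by
        rw [AddMonoidHom.mem_ker, map_sub, hs, map_sum, Finset.sum_congr rfl hval,
          Finset.sum_const, hA'c, map_nsmul, hval q hq, add_nsmul]
        obtain ⟨g, rfl⟩ := hsurj P
        rw [← map_nsmul, nsmul_GG, map_zero, zero_add, sub_self])
      (by
        intro x hx
        rw [AddMonoidHom.mem_ker, map_sub, hval x hx, hval q hq, sub_self])
      hno3
    omega
  obtain ⟨R₁, r1, R₂, r2, R₃, r3, R₄, r4, hne, hsumR⟩ := many_sums (card_quot hS.hN) hS.hB hN
    (fun σ => tors2 (QuotientAddGroup.mk' H) (QuotientAddGroup.mk'_surjective H) σ) hexc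
    (cl H (∑ x ∈ A, x))
  obtain ⟨S, hSA, hS4, hSsum⟩ := four_of_classes' hS.hN hS.hA hS.hB r1 r2 r3 r4 hne hsumR
  exact hno S (hSA.trans (Finset.erase_subset _ _)) hS4 hSsum

end Pool.Agent.MP_e67b39_co
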